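import Pool.Agent.Helper26.Tf.Basic

set_option autoImplicit false
set_option linter.unusedVariables false

namespace Pool.Agent.Helper26.Tf

open MeasureTheory Filter Topology Set Pool.Agent.TFDW
open scoped ENNReal NNReal ContDiff

variable {f : E3 → ℝ} {g : E3 → E3}

/-- volume of the ball of radius `r` -/
noncomputable def vol (r : ℝ) : ℝ := vB * r ^ 3

lemma vol_pos {r : ℝ} (hr : 0 < r) : 0 < vol r := by
  have := vB_pos
  unfold vol
  positivity

lemma volume_ball' (x : E3) {r : ℝ} (hr : 0 ≤ r) :
    (volume : Measure E3) (Metric.ball x r) = ENNReal.ofReal (vol r) := by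
  have hfin : Module.finrank ℝ E3 = 3 := by simp
  rw [Measure.addHaar_ball volume x hr, vB_eq, hfin, vol, mul_comm vB,
    ENNReal.ofReal_mul (by positivity)]

lemma volume_closedBall' (x : E3) {r : ℝ} (hr : 0 ≤ r) :
    (volume : Measure E3) (Metric.closedBall x r) = ENNReal.ofReal (vol r) := by
  rw [Measure.addHaar_closedBall_eq_addHaar_ball, volume_ball' x hr]

lemma shift_meas (hf : Measurable f) : Measurable fun q : E3 × E3 => f (q.1 + q.2) :=
  hf.comp (measurable_fst.add measurable_snd)

lemma H1.shift (h : H1 f g) (a : E3) :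
    ∫⁻ x, ENNReal.ofReal ((f (x + a) - f x) ^ 2) ≤ ENNReal.ofReal (‖a‖ ^ 2 * Tk g) := by
  refine (tr_weak2 f g h.f2 h.g2 h.weak a).trans ?_
  rw [← ofReal_integral_eq_lintegral_ofReal h.gsq_int
    (Filter.Eventually.of_forall fun x => sq_nonneg _), ← ENNReal.ofReal_mul (sq_nonneg _)]
  rfl

/-- the mass in the ball of radius `r` centred at `x` -/
noncomputable def mb (f : E3 → ℝ) (x : E3) (r : ℝ) : ℝ := ∫ y in Metric.ball x r, f y ^ 2

lemma mb_nonneg (f : E3 → ℝ) (x : E3) (r : ℝ) : 0 ≤ mb f x r :=
  integral_nonneg fun y => sq_nonneg _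

lemma mb_le (h : H1 f g) (x : E3) (r : ℝ) : mb f x r ≤ Ms f :=
  setIntegral_le_integral h.sq_int (Filter.Eventually.of_forall fun y => sq_nonneg _)

lemma mb_lint (h : H1 f g) (x : E3) (r : ℝ) :
    ∫⁻ a in Metric.ball (0 : E3) r, ENNReal.ofReal (f (x + a) ^ 2) = ENNReal.ofReal (mb f x r) := by
  unfold mb
  rw [ofReal_integral_eq_lintegral_ofReal h.sq_int.integrableOn
    (Filter.Eventually.of_forall fun y => sq_nonneg _)]
  rw [← lintegral_indicator measurableSet_ball, ← lintegral_indicator measurableSet_ball,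
    ← lintegral_add_left_eq_self
      (fun y => (Metric.ball x r).indicator (fun y => ENNReal.ofReal (f y ^ 2)) y) x]
  apply lintegral_congr
  intro a
  by_cases ha : a ∈ Metric.ball (0 : E3) r
  · have : x + a ∈ Metric.ball x r := by simpa using ha
    rw [indicator_of_mem ha, indicator_of_mem this]
  · have : x + a ∉ Metric.ball x r := by simpa using ha
    rw [indicator_of_notMem ha, indicator_of_notMem this]

/-- the part of the mass where `f` is not small -/
noncomputable def big (f : E3 → ℝ) : ℝ := ∫ x, (if 1 / 4 ≤ |f x| then f x ^ 2 else 0)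

lemma big_meas (hf : Measurable f) : Measurable fun x => if 1 / 4 ≤ |f x| then f x ^ 2 else 0 := by
  apply Measurable.ite _ (hf.pow_const 2) measurable_const
  exact measurableSet_le measurable_const hf.norm

lemma H1.big_int (h : H1 f g) :
    Integrable (fun x => if 1 / 4 ≤ |f x| then f x ^ 2 else 0) volume := by
  refine Integrable.mono' h.sq_int (big_meas h.fm).aestronglyMeasurable ?_
  filter_upwards with x
  split_ifs
  · rw [Real.norm_of_nonneg (sq_nonneg _)]
  · rw [norm_zero]; exact sq_nonneg _

/-- If no ball of radius `r` has much mass, then the mass where `f` is not small is controlled by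
the kinetic energy. -/
lemma big_le (h : H1 f g) {r : ℝ} (hr : 0 < r) (hm : ∀ x, mb f x r ≤ vol r / 128) :
    big f ≤ 8 * r ^ 2 * Tk g := by
  have hv := vol_pos hr
  set v := vol r with hvdef
  have hT := Tk_nonneg g
  -- pointwise
  have hpt : ∀ x a : E3, (if 1 / 4 ≤ |f x| then f x ^ 2 else 0) ≤
      4 * (f (x + a) - f x) ^ 2 + 64 * ((if 1 / 4 ≤ |f x| then f x ^ 2 else 0) * f (x + a) ^ 2) := by
    intro x a
    split_ifs with hc
    · by_cases hle : |f (x + a)| ≤ |f x| / 2
      · have h1 : |f x| / 2 ≤ |f (x + a) - f x| := by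
          have := abs_sub_abs_le_abs_sub (f x) (f (x + a))
          rw [abs_sub_comm] at this
          linarith
        have h2 : (|f x| / 2) ^ 2 ≤ (f (x + a) - f x) ^ 2 := by
          rw [← sq_abs (f (x + a) - f x)]
          exact pow_le_pow_left₀ (by positivity) h1 2
        have h3 : |f x| ^ 2 = f x ^ 2 := sq_abs _
        have h4 : 0 ≤ 64 * (f x ^ 2 * f (x + a) ^ 2) := by positivity
        nlinarith
      · push Not at hle
        have h1 : 1 / 8 ≤ |f (x + a)| := by linarith
        have h2 : (1 / 8 : ℝ) ^ 2 ≤ f (x + a) ^ 2 := by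
          rw [← sq_abs (f (x + a))]
          exact pow_le_pow_left₀ (by positivity) h1 2
        have h3 : f x ^ 2 * (1 / 64) ≤ f x ^ 2 * f (x + a) ^ 2 := by
          apply mul_le_mul_of_nonneg_left _ (sq_nonneg _)
          linarith
        have h4 : 0 ≤ 4 * (f (x + a) - f x) ^ 2 := by positivity
        linarith
    · have : 0 ≤ (f (x + a) - f x) ^ 2 := sq_nonneg _
      linarith
  have hi0 : ∀ x, 0 ≤ (if 1 / 4 ≤ |f x| then f x ^ 2 else 0) := fun x => by
    split_ifs
    · exact sq_nonneg _
    · exact le_rfl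
  have hbm := big_meas h.fm
  set b : E3 → ℝ := fun x => if 1 / 4 ≤ |f x| then f x ^ 2 else 0 with hb
  have hsm := shift_meas h.fm
  have hm1 : Measurable fun q : E3 × E3 => ENNReal.ofReal (4 * (f (q.1 + q.2) - f q.1) ^ 2) :=
    (((hsm.sub (h.fm.comp measurable_fst)).pow_const 2).const_mul 4).ennreal_ofReal
  have key : ENNReal.ofReal v * ENNReal.ofReal (big f) ≤
      ENNReal.ofReal (v * (4 * r ^ 2 * Tk g)) + ENNReal.ofReal (v / 2) * ENNReal.ofReal (big f) := by
    have hbig : ENNReal.ofReal (big f) = ∫⁻ x, ENNReal.ofReal (b x) :=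
      ofReal_integral_eq_lintegral_ofReal h.big_int (Filter.Eventually.of_forall hi0)
    rw [hbig]
    calc ENNReal.ofReal v * ∫⁻ x, ENNReal.ofReal (b x)
        = ∫⁻ x, ∫⁻ a in Metric.ball (0 : E3) r, ENNReal.ofReal (b x) := by
          rw [mul_comm, ← lintegral_mul_const' _ _ ENNReal.ofReal_ne_top]
          apply lintegral_congr
          intro x
          rw [setLIntegral_const, volume_ball' 0 hr.le]
      _ ≤ ∫⁻ x, ((∫⁻ a in Metric.ball (0 : E3) r, ENNReal.ofReal (4 * (f (x + a) - f x) ^ 2)) +
            ENNReal.ofReal (v / 2) * ENNReal.ofReal (b x)) := by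
          apply lintegral_mono
          intro x
          have h1 : ∫⁻ a in Metric.ball (0 : E3) r, ENNReal.ofReal (b x) ≤
              ∫⁻ a in Metric.ball (0 : E3) r, (ENNReal.ofReal (4 * (f (x + a) - f x) ^ 2) +
                ENNReal.ofReal (64 * b x) * ENNReal.ofReal (f (x + a) ^ 2)) := by
            apply lintegral_mono
            intro a
            show ENNReal.ofReal (b x) ≤ ENNReal.ofReal (4 * (f (x + a) - f x) ^ 2) +
                ENNReal.ofReal (64 * b x) * ENNReal.ofReal (f (x + a) ^ 2)
            rw [← ENNReal.ofReal_mul (by have := hi0 x; positivity),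
              ← ENNReal.ofReal_add (by positivity)
                (mul_nonneg (mul_nonneg (by norm_num) (hi0 x)) (sq_nonneg _))]
            apply ENNReal.ofReal_le_ofReal
            have := hpt x a
            show b x ≤ _
            calc b x ≤ 4 * (f (x + a) - f x) ^ 2 + 64 * (b x * f (x + a) ^ 2) := this
              _ = _ := by ring
          refine h1.trans ?_
          have hmx : Measurable fun a => ENNReal.ofReal (4 * (f (x + a) - f x) ^ 2) :=
            ((((h.fm.comp (measurable_const_add x)).sub measurable_const).pow_const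
              2).const_mul 4).ennreal_ofReal
          rw [lintegral_add_left hmx, lintegral_const_mul' _ _ ENNReal.ofReal_ne_top, mb_lint h]
          apply add_le_add le_rfl
          rw [← ENNReal.ofReal_mul (by have := hi0 x; positivity),
            ← ENNReal.ofReal_mul (by positivity)]
          apply ENNReal.ofReal_le_ofReal
          have h3 := hm x
          have h4 := hi0 x
          calc 64 * b x * mb f x r ≤ 64 * b x * (v / 128) :=
                mul_le_mul_of_nonneg_left h3 (by positivity)
            _ = v / 2 * b x := by ring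
      _ = (∫⁻ x, ∫⁻ a in Metric.ball (0 : E3) r, ENNReal.ofReal (4 * (f (x + a) - f x) ^ 2)) +
            ENNReal.ofReal (v / 2) * ∫⁻ x, ENNReal.ofReal (b x) := by
          rw [lintegral_add_right _ (hbm.ennreal_ofReal.const_mul _),
            lintegral_const_mul' _ _ ENNReal.ofReal_ne_top]
      _ ≤ _ := by
          apply add_le_add _ le_rfl
          rw [lintegral_lintegral_swap (f := fun x a => ENNReal.ofReal (4 * (f (x + a) - f x) ^ 2))
            hm1.aemeasurable]
          calc ∫⁻ a in Metric.ball (0 : E3) r, ∫⁻ x, ENNReal.ofReal (4 * (f (x + a) - f x) ^ 2)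
              ≤ ∫⁻ a in Metric.ball (0 : E3) r, ENNReal.ofReal (4 * r ^ 2 * Tk g) := by
                apply setLIntegral_mono' measurableSet_ball
                intro a ha
                have e1 : ∀ x, ENNReal.ofReal (4 * (f (x + a) - f x) ^ 2) =
                    ENNReal.ofReal 4 * ENNReal.ofReal ((f (x + a) - f x) ^ 2) := fun x =>
                  ENNReal.ofReal_mul (by norm_num)
                simp only [e1]
                rw [lintegral_const_mul' _ _ ENNReal.ofReal_ne_top]
                refine (mul_le_mul' le_rfl (h.shift a)).trans ?_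
                rw [← ENNReal.ofReal_mul (by norm_num)]
                apply ENNReal.ofReal_le_ofReal
                have h2 : ‖a‖ < r := by simpa using ha
                have h3 : ‖a‖ ^ 2 ≤ r ^ 2 := pow_le_pow_left₀ (norm_nonneg _) h2.le 2
                nlinarith
            _ = ENNReal.ofReal (v * (4 * r ^ 2 * Tk g)) := by
                rw [setLIntegral_const, volume_ball' 0 hr.le, mul_comm,
                  ← ENNReal.ofReal_mul hv.le]
  have hbn : 0 ≤ big f := integral_nonneg hi0
  rw [← ENNReal.ofReal_mul hv.le, ← ENNReal.ofReal_mul (by positivity),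
    ← ENNReal.ofReal_add (by positivity) (by positivity),
    ENNReal.ofReal_le_ofReal_iff (by positivity)] at key
  have h5 : v * big f ≤ v * (8 * r ^ 2 * Tk g) := by nlinarith
  exact le_of_mul_le_mul_left h5 hv

lemma W_small {u : ℝ} (hu : |u| < 1 / 4) : u ^ 2 / 3 ≤ W u := by
  unfold W
  set y := (u ^ 2) ^ (1 / 3 : ℝ) with hy
  have hy0 : 0 ≤ y := cbrt_nonneg u
  have hy3 : y ^ 3 = u ^ 2 := cbrt_cube u
  have h1 : y ≤ 2 / 5 := by
    by_contra hc
    push Not at hc
    have h2 : (2 / 5 : ℝ) ^ 3 < y ^ 3 := pow_lt_pow_left₀ hc (by norm_num) (by norm_num)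
    have h3 : u ^ 2 < (1 / 4) ^ 2 := by
      rw [← sq_abs]
      exact pow_lt_pow_left₀ hu (abs_nonneg _) (by norm_num)
    rw [hy3] at h2
    norm_num at h2 h3
    linarith
  have h2 : 1 / 3 ≤ (y - 1) ^ 2 := by nlinarith
  calc u ^ 2 / 3 = u ^ 2 * (1 / 3) := by ring
    _ ≤ _ := mul_le_mul_of_nonneg_left h2 (sq_nonneg _)

lemma Ws_ge (h : H1 f g) : (Ms f - big f) / 3 ≤ Ws f := by
  have h1 : (Ms f - big f) / 3 = ∫ x, (f x ^ 2 - (if 1 / 4 ≤ |f x| then f x ^ 2 else 0)) / 3 := by
    rw [integral_div, integral_sub h.sq_int h.big_int]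
    rfl
  rw [h1]
  apply integral_mono ((h.sq_int.sub h.big_int).div_const 3) h.W_int
  intro x
  show (f x ^ 2 - (if 1 / 4 ≤ |f x| then f x ^ 2 else 0)) / 3 ≤ W (f x)
  split_ifs with hc
  · rw [sub_self, zero_div]
    exact W_nonneg _
  · push Not at hc
    rw [sub_zero]
    exact W_small hc

/-- The alternative: either the energy per particle is large or some ball has a definite mass. -/
lemma alternative (h : H1 f g) {A r : ℝ} (hr : 0 < r) (hrA : 16 * r ^ 2 ≤ 3 * A)
    (hm : ∀ x, mb f x r ≤ vol r / 128) :
    A / 2 * Tk g + Ms f / 3 ≤ A * Tk g + Ws f := by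
  have h1 := big_le h hr hm
  have h2 := Ws_ge h
  have hT := Tk_nonneg g
  have h3 : 8 * r ^ 2 * Tk g / 3 ≤ A / 2 * Tk g := by
    have := mul_le_mul_of_nonneg_right hrA hT
    linarith
  linarith

end Pool.Agent.Helper26.Tf
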