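import Pool.Agent.Helper26.Tf.Cut
import Pool.Agent.Helper26.Tf.Conc

set_option autoImplicit false
set_option linter.unusedVariables false

namespace Pool.Agent.Helper26.Tf

open MeasureTheory Filter Topology Set Pool.Agent.TFDW
open scoped ENNReal NNReal ContDiff

variable {f : E3 → ℝ} {g : E3 → E3}

lemma ofReal_NN (h : H1 f g) {A : ℝ} (hA : 0 ≤ A) : ENNReal.ofReal (NN A f g) =
    ENNReal.ofReal A * (∫⁻ x, ENNReal.ofReal (‖g x‖ ^ 2)) + (∫⁻ x, ENNReal.ofReal (W (f x))) +
      ENNReal.ofReal (1 / 2) * ∫⁻ p, ENNReal.ofReal (kk f p) ∂((volume : Measure E3).prod volume) := by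
  unfold NN
  have hT := Tk_nonneg g
  rw [ENNReal.ofReal_add (add_nonneg (mul_nonneg hA hT) (Ws_nonneg f)) (Dd_nonneg f),
    ENNReal.ofReal_add (mul_nonneg hA hT) (Ws_nonneg f), ENNReal.ofReal_mul hA]
  unfold Tk Ws Dd
  rw [ENNReal.ofReal_mul (by norm_num)]
  rw [ofReal_integral_eq_lintegral_ofReal h.gsq_int (Eventually.of_forall fun x => sq_nonneg _),
    ofReal_integral_eq_lintegral_ofReal h.W_int (Eventually.of_forall fun x => W_nonneg _),
    ofReal_integral_eq_lintegral_ofReal h.kk_int (Eventually.of_forall fun x => kk_nonneg f _)]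

/-- the local energy density under multiplication by a cutoff -/
lemma W_mul_le {θ : ℝ} (h0 : 0 ≤ θ) (h1 : θ ≤ 1) (u : ℝ) : W (θ * u) ≤ θ ^ 2 * (W u + u ^ 2) := by
  unfold W
  set y := (u ^ 2) ^ (1 / 3 : ℝ) with hy
  set y' := ((θ * u) ^ 2) ^ (1 / 3 : ℝ) with hy'
  have hy0 : 0 ≤ y' := cbrt_nonneg _
  have hyy : y' ≤ y := by
    apply Real.rpow_le_rpow (by positivity) _ (by norm_num)
    rw [mul_pow]
    have : θ ^ 2 ≤ 1 := pow_le_one₀ h0 h1
    nlinarith [sq_nonneg u]
  have h2 : (y' - 1) ^ 2 ≤ (y - 1) ^ 2 + 1 := by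
    rcases le_total y' 1 with h | h
    · have : (y' - 1) ^ 2 ≤ 1 := by nlinarith
      nlinarith [sq_nonneg (y - 1)]
    · nlinarith
  calc (θ * u) ^ 2 * (y' - 1) ^ 2 ≤ (θ * u) ^ 2 * ((y - 1) ^ 2 + 1) :=
        mul_le_mul_of_nonneg_left h2 (sq_nonneg _)
    _ = _ := by ring

lemma vol_ann {R w : ℝ} (hR : 0 ≤ R) (hw : 0 ≤ w) :
    (volume : Measure E3) (ann R w) = ENNReal.ofReal (vol (R + w) - vol R) := by
  have h1 : ann R w = Metric.closedBall 0 (R + w) \ Metric.ball 0 R := by
    ext x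
    simp only [ann, mem_ofPred_eq, Set.mem_sdiff, Metric.mem_closedBall, dist_zero_right,
      Metric.mem_ball, not_lt]
    tauto
  have hsub : Metric.ball (0 : E3) R ⊆ Metric.closedBall 0 (R + w) :=
    (Metric.ball_subset_ball (by linarith)).trans Metric.ball_subset_closedBall
  rw [h1, measure_sdiff hsub measurableSet_ball.nullMeasurableSet measure_ball_lt_top.ne,
    volume_closedBall' 0 (by positivity), volume_ball' 0 hR, ← ENNReal.ofReal_sub]
  unfold vol
  have := vB_pos
  positivity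

lemma vol_mono {r s : ℝ} (hr : 0 ≤ r) (h : r ≤ s) : vol r ≤ vol s := by
  unfold vol
  exact mul_le_mul_of_nonneg_left (pow_le_pow_left₀ hr h 3) vB_pos.le

/-- integral of the squared cutoff -/
noncomputable def vc (R : ℝ) : ℝ := ∫ x, ct R 1 x ^ 2

lemma ct_sq_int {R : ℝ} (hR : 0 < R) : Integrable (fun x => ct R 1 x ^ 2) volume := by
  apply ((ct_smooth hR one_pos).continuous.pow 2).integrable_of_hasCompactSupport
  simp only [pow_two]
  exact (ct_supp (R := R) one_pos).mul_right

lemma vc_ge {R : ℝ} (hR : 0 < R) : vol R ≤ vc R := by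
  have h1 : ∫ x in Metric.ball (0 : E3) R, (1 : ℝ) = vol R := by
    rw [setIntegral_const, Measure.real, volume_ball' 0 hR.le,
      ENNReal.toReal_ofReal (vol_pos hR).le]
    simp
  rw [← h1, ← integral_indicator measurableSet_ball]
  apply integral_mono _ (ct_sq_int hR)
  · intro x
    by_cases hx : x ∈ Metric.ball (0 : E3) R
    · rw [indicator_of_mem hx]
      have : ‖x‖ < R := by simpa using hx
      show 1 ≤ ct R 1 x ^ 2
      rw [ct_one one_pos this.le]
      norm_num
    · rw [indicator_of_notMem hx]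
      exact sq_nonneg _
  · rw [integrable_indicator_iff measurableSet_ball]
    exact integrableOn_const (hs := measure_ball_lt_top.ne)

lemma lint_ct {R : ℝ} (hR : 0 < R) (x : E3) :
    ∫⁻ a, ENNReal.ofReal (ct R 1 (x - a) ^ 2) = ENNReal.ofReal (vc R) := by
  rw [lintegral_sub_left_eq_self (fun b => ENNReal.ofReal (ct R 1 b ^ 2)) x]
  exact (ofReal_integral_eq_lintegral_ofReal (ct_sq_int hR)
    (Eventually.of_forall fun x => sq_nonneg _)).symm

lemma lint_ann {R : ℝ} (hR : 0 < R) (x : E3) :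
    ∫⁻ a, (ann R 1).indicator (fun _ => (1 : ℝ≥0∞)) (x - a) =
      ENNReal.ofReal (vol (R + 1) - vol R) := by
  rw [lintegral_sub_left_eq_self (fun b => (ann R 1).indicator (fun _ => (1 : ℝ≥0∞)) b) x,
    lintegral_indicator_const (ann_meas R 1), vol_ann hR.le zero_le_one, one_mul]

lemma fderiv_ct_neg {R w : ℝ} (hR : 0 < R) (hw : 0 < w) (x v : E3) :
    fderiv ℝ (ct R w) (-x) v = -fderiv ℝ (ct R w) x v := by
  have h1 : HasFDerivAt (ct R w) (fderiv ℝ (ct R w) (-x)) (-x) :=
    ((ct_smooth hR hw).differentiable (by simp) (-x)).hasFDerivAt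
  have h2 : HasFDerivAt (fun y : E3 => -y) (-(ContinuousLinearMap.id ℝ E3)) x :=
    (hasFDerivAt_id x).neg
  have h3 : HasFDerivAt (fun y => ct R w (-y)) ((fderiv ℝ (ct R w) (-x)).comp
      (-(ContinuousLinearMap.id ℝ E3))) x := h1.comp x h2
  have h4 : (fun y => ct R w (-y)) = ct R w := funext fun y => ct_neg R w y
  rw [h4] at h3
  rw [h3.fderiv]
  simp

/-- averaged kinetic energy of the localized function, at a point -/
lemma kin_avg {L : ℝ} (hL : ∀ R w : ℝ, 0 < w → ∀ x, ‖fderiv ℝ (ct R w) x‖ ≤ L / w) {R : ℝ}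
    (hR : 0 < R) (G : E3) (F : ℝ) :
    ∫⁻ a, ENNReal.ofReal (‖ct R 1 a • G + F • gradient (ct R 1) a‖ ^ 2) ≤
      ENNReal.ofReal (vc R * ‖G‖ ^ 2 + L ^ 2 * (vol (R + 1) - vol R) * F ^ 2) := by
  have hs := ct_smooth hR one_pos
  have hc := ct_supp (R := R) one_pos
  have hgc := gradient_cont hs
  have hgs : HasCompactSupport (gradient (ct R 1)) := by
    have : HasCompactSupport (fderiv ℝ (ct R 1)) := hc.fderiv (𝕜 := ℝ)
    exact this.comp_left (g := fun L => (InnerProductSpace.toDual ℝ E3).symm L) (by simp)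
  have hexp : ∀ a, ‖ct R 1 a • G + F • gradient (ct R 1) a‖ ^ 2 =
      ‖G‖ ^ 2 * ct R 1 a ^ 2 + (2 * F * (ct R 1 a * fderiv ℝ (ct R 1) a G) +
        F ^ 2 * ‖gradient (ct R 1) a‖ ^ 2) := by
    intro a
    rw [norm_add_sq_real, norm_smul, norm_smul, real_inner_smul_left, real_inner_smul_right,
      real_inner_comm, inner_gradient', mul_pow, mul_pow, Real.norm_eq_abs, sq_abs,
      Real.norm_eq_abs, sq_abs]
    ring
  have i1 : Integrable (fun a => ct R 1 a ^ 2) volume := ct_sq_int hR
  have i2 : Integrable (fun a => ct R 1 a * fderiv ℝ (ct R 1) a G) volume := by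
    apply (hs.continuous.mul ((hs.continuous_fderiv (by simp)).clm_apply
      continuous_const)).integrable_of_hasCompactSupport
    exact hc.mul_right
  have i3 : Integrable (fun a => ‖gradient (ct R 1) a‖ ^ 2) volume := by
    apply (hgc.norm.pow 2).integrable_of_hasCompactSupport
    simp only [pow_two]
    exact hgs.norm.mul_right
  have hodd : ∫ a, ct R 1 a * fderiv ℝ (ct R 1) a G = 0 := by
    have h1 := integral_neg_eq_self (fun a => ct R 1 a * fderiv ℝ (ct R 1) a G)
      (volume : Measure E3)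
    have h2 : ∀ a, ct R 1 (-a) * fderiv ℝ (ct R 1) (-a) G =
        -(ct R 1 a * fderiv ℝ (ct R 1) a G) := by
      intro a
      rw [ct_neg, fderiv_ct_neg hR one_pos]
      ring
    simp only [h2] at h1
    rw [integral_neg] at h1
    linarith
  have hgr : ∫ a, ‖gradient (ct R 1) a‖ ^ 2 ≤ L ^ 2 * (vol (R + 1) - vol R) := by
    have h1 : ∀ a, ‖gradient (ct R 1) a‖ ^ 2 ≤ (ann R 1).indicator (fun _ => L ^ 2) a := by
      intro a
      rw [norm_gradient']
      have := ct_fderiv_ann hL one_pos (R := R) a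
      rw [div_one] at this
      by_cases ha : a ∈ ann R 1
      · rw [indicator_of_mem ha] at this ⊢
        exact pow_le_pow_left₀ (norm_nonneg _) this 2
      · rw [indicator_of_notMem ha] at this ⊢
        have h0 : ‖fderiv ℝ (ct R 1) a‖ = 0 := le_antisymm this (norm_nonneg _)
        rw [h0]
        norm_num
    have hfin : (volume : Measure E3) (ann R 1) ≠ ⊤ := by
      rw [vol_ann hR.le zero_le_one]
      exact ENNReal.ofReal_ne_top
    calc ∫ a, ‖gradient (ct R 1) a‖ ^ 2 ≤ ∫ a, (ann R 1).indicator (fun _ => L ^ 2) a := by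
          apply integral_mono i3 _ h1
          rw [integrable_indicator_iff (ann_meas R 1)]
          exact integrableOn_const (hs := hfin)
      _ = L ^ 2 * (vol (R + 1) - vol R) := by
          rw [integral_indicator (ann_meas R 1), setIntegral_const, Measure.real,
            vol_ann hR.le zero_le_one, ENNReal.toReal_ofReal
              (sub_nonneg.2 (vol_mono hR.le (by linarith))), smul_eq_mul, mul_comm]
  have i23 : Integrable (fun a => 2 * F * (ct R 1 a * fderiv ℝ (ct R 1) a G) +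
      F ^ 2 * ‖gradient (ct R 1) a‖ ^ 2) volume := (i2.const_mul _).add (i3.const_mul _)
  have hint : Integrable (fun a => ‖ct R 1 a • G + F • gradient (ct R 1) a‖ ^ 2) volume := by
    simp only [hexp]
    exact (i1.const_mul _).add i23
  rw [← ofReal_integral_eq_lintegral_ofReal hint (Eventually.of_forall fun x => sq_nonneg _)]
  apply ENNReal.ofReal_le_ofReal
  simp only [hexp]
  rw [integral_add (i1.const_mul _) i23,
    integral_add (i2.const_mul _) (i3.const_mul _), integral_const_mul, integral_const_mul,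
    integral_const_mul, hodd]
  have : F ^ 2 * ∫ a, ‖gradient (ct R 1) a‖ ^ 2 ≤ F ^ 2 * (L ^ 2 * (vol (R + 1) - vol R)) :=
    mul_le_mul_of_nonneg_left hgr (sq_nonneg _)
  unfold vc
  linarith

end Pool.Agent.Helper26.Tf
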