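import Pool.Agent.Helper26.Tf.Avg

set_option autoImplicit false
set_option linter.unusedVariables false

namespace Pool.Agent.Helper26.Tf

open MeasureTheory Filter Topology Set Pool.Agent.TFDW
open scoped ENNReal NNReal ContDiff

variable {f : E3 → ℝ} {g : E3 → E3}

/-- localized function -/
noncomputable def pf (R : ℝ) (a : E3) (f : E3 → ℝ) (x : E3) : ℝ := ct R 1 (x - a) * f x
/-- its gradient -/
noncomputable def pg (R : ℝ) (a : E3) (f : E3 → ℝ) (g : E3 → E3) (x : E3) : E3 :=
  ct R 1 (x - a) • g x + f x • gradient (ct R 1) (x - a)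

lemma gradient_sub {φ : E3 → ℝ} (hφ : ContDiff ℝ ∞ φ) (a x : E3) :
    fderiv ℝ (fun y => φ (y - a)) x = fderiv ℝ φ (x - a) := by
  have h1 : HasFDerivAt φ (fderiv ℝ φ (x - a)) (x - a) :=
    (hφ.differentiable (by simp) (x - a)).hasFDerivAt
  have h2 : HasFDerivAt (fun y : E3 => y - a) (ContinuousLinearMap.id ℝ E3) x :=
    (hasFDerivAt_id x).sub_const a
  have h3 : HasFDerivAt (fun y => φ (y - a)) ((fderiv ℝ φ (x - a)).comp
      (ContinuousLinearMap.id ℝ E3)) x := h1.comp x h2
  rw [h3.fderiv]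
  simp

lemma H1.piece (h : H1 f g) {R : ℝ} (hR : 0 < R) (a : E3) : H1 (pf R a f) (pg R a f g) := by
  obtain ⟨L, hL0, hL⟩ := ct_lip
  have hs := ct_smooth hR one_pos
  have h1 : ContDiff ℝ ∞ fun x => ct R 1 (x - a) := hs.comp (contDiff_id.sub contDiff_const)
  have h2 := h.mul h1 (B := 1) (C := L) (fun x => by
      rw [abs_of_nonneg (ct_nonneg _ _ _)]; exact ct_le_one _ _ _) (fun x => by
      rw [gradient_sub hs]
      have := hL R 1 one_pos (x - a)
      rwa [div_one] at this)
  have e : (fun x => ct R 1 (x - a) • g x + f x • gradient (fun y => ct R 1 (y - a)) x) =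
      pg R a f g := by
    funext x
    unfold pg gradient
    rw [gradient_sub hs]
  rw [e] at h2
  exact h2

lemma ctsub_meas {R : ℝ} (hR : 0 < R) : Measurable fun q : E3 × E3 => ct R 1 (q.2 - q.1) :=
  ((ct_smooth hR one_pos).continuous.comp (continuous_snd.sub continuous_fst)).measurable

lemma pf_meas (hf : Measurable f) {R : ℝ} (hR : 0 < R) :
    Measurable fun q : E3 × E3 => pf R q.1 f q.2 :=
  (ctsub_meas hR).mul (hf.comp measurable_snd)

lemma pg_meas (hf : Measurable f) (hg : Measurable g) {R : ℝ} (hR : 0 < R) :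
    Measurable fun q : E3 × E3 => pg R q.1 f g q.2 := by
  have h1 : Measurable fun q : E3 × E3 => gradient (ct R 1) (q.2 - q.1) :=
    ((gradient_cont (ct_smooth hR one_pos)).comp (continuous_snd.sub continuous_fst)).measurable
  exact ((ctsub_meas hR).smul (hg.comp measurable_snd)).add
    ((hf.comp measurable_snd).smul h1)

lemma avg_T (h : H1 f g) {L : ℝ}
    (hL : ∀ R w : ℝ, 0 < w → ∀ x, ‖fderiv ℝ (ct R w) x‖ ≤ L / w) {R : ℝ} (hR : 0 < R) :
    ∫⁻ a, ∫⁻ x, ENNReal.ofReal (‖pg R a f g x‖ ^ 2) ≤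
      ENNReal.ofReal (vc R * Tk g + L ^ 2 * (vol (R + 1) - vol R) * Ms f) := by
  rw [lintegral_lintegral_swap (f := fun a x => ENNReal.ofReal (‖pg R a f g x‖ ^ 2))
    (((pg_meas h.fm h.gm hR).norm.pow_const 2).ennreal_ofReal).aemeasurable]
  calc ∫⁻ x, ∫⁻ a, ENNReal.ofReal (‖pg R a f g x‖ ^ 2)
      ≤ ∫⁻ x, ENNReal.ofReal (vc R * ‖g x‖ ^ 2 + L ^ 2 * (vol (R + 1) - vol R) * f x ^ 2) := by
        apply lintegral_mono
        intro x
        have e := lintegral_sub_left_eq_self (μ := (volume : Measure E3))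
          (fun b => ENNReal.ofReal (‖ct R 1 b • g x + f x • gradient (ct R 1) b‖ ^ 2)) x
        show ∫⁻ a, ENNReal.ofReal (‖ct R 1 (x - a) • g x + f x • gradient (ct R 1) (x - a)‖ ^ 2) ≤ _
        rw [e]
        exact kin_avg hL hR (g x) (f x)
    _ = ENNReal.ofReal (∫ x, (vc R * ‖g x‖ ^ 2 + L ^ 2 * (vol (R + 1) - vol R) * f x ^ 2)) := by
        have hi : Integrable (fun x => vc R * ‖g x‖ ^ 2 + L ^ 2 * (vol (R + 1) - vol R) * f x ^ 2)
          volume := (h.gsq_int.const_mul _).add (h.sq_int.const_mul _)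
        rw [ofReal_integral_eq_lintegral_ofReal hi (Eventually.of_forall fun x => ?_)]
        have h1 : 0 ≤ vc R := integral_nonneg fun x => sq_nonneg _
        have h2 : 0 ≤ vol (R + 1) - vol R := sub_nonneg.2 (vol_mono hR.le (by linarith))
        show 0 ≤ vc R * ‖g x‖ ^ 2 + L ^ 2 * (vol (R + 1) - vol R) * f x ^ 2
        positivity
    _ = _ := by
        rw [integral_add (h.gsq_int.const_mul _) (h.sq_int.const_mul _), integral_const_mul,
          integral_const_mul]
        rfl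

lemma avg_W (h : H1 f g) {R : ℝ} (hR : 0 < R) :
    ∫⁻ a, ∫⁻ x, ENNReal.ofReal (W (pf R a f x)) ≤
      ENNReal.ofReal (vc R * Ws f + (vol (R + 1) - vol R) * Ms f) := by
  have hv : 0 ≤ vol (R + 1) - vol R := sub_nonneg.2 (vol_mono hR.le (by linarith))
  have hvc : 0 ≤ vc R := integral_nonneg fun x => sq_nonneg _
  rw [lintegral_lintegral_swap (f := fun a x => ENNReal.ofReal (W (pf R a f x)))
    ((W_cont.measurable.comp (pf_meas h.fm hR)).ennreal_ofReal).aemeasurable]
  calc ∫⁻ x, ∫⁻ a, ENNReal.ofReal (W (pf R a f x))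
      ≤ ∫⁻ x, ENNReal.ofReal (vc R * W (f x) + (vol (R + 1) - vol R) * f x ^ 2) := by
        apply lintegral_mono
        intro x
        have h1 : ∀ a, ENNReal.ofReal (W (pf R a f x)) ≤
            ENNReal.ofReal (ct R 1 (x - a) ^ 2) * ENNReal.ofReal (W (f x)) +
              (ann R 1).indicator (fun _ => (1 : ℝ≥0∞)) (x - a) * ENNReal.ofReal (f x ^ 2) := by
          intro a
          by_cases ha : x - a ∈ ann R 1
          · rw [indicator_of_mem ha, one_mul, ← ENNReal.ofReal_mul (sq_nonneg _),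
              ← ENNReal.ofReal_add (mul_nonneg (sq_nonneg _) (W_nonneg _)) (sq_nonneg _)]
            apply ENNReal.ofReal_le_ofReal
            have h2 := W_mul_le (ct_nonneg R 1 (x - a)) (ct_le_one R 1 (x - a)) (f x)
            have h3 : ct R 1 (x - a) ^ 2 ≤ 1 :=
              pow_le_one₀ (ct_nonneg R 1 (x - a)) (ct_le_one R 1 (x - a))
            have h4 : ct R 1 (x - a) ^ 2 * f x ^ 2 ≤ 1 * f x ^ 2 :=
              mul_le_mul_of_nonneg_right h3 (sq_nonneg _)
            show W (ct R 1 (x - a) * f x) ≤ _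
            linarith
          · rw [indicator_of_notMem ha, zero_mul, add_zero, ← ENNReal.ofReal_mul (sq_nonneg _)]
            apply ENNReal.ofReal_le_ofReal
            have : ‖x - a‖ < R ∨ R + 1 < ‖x - a‖ := by
              by_contra hc
              push Not at hc
              exact ha hc
            show W (ct R 1 (x - a) * f x) ≤ _
            rcases this with h2 | h2
            · rw [ct_one one_pos h2.le]
              norm_num
            · rw [ct_zero one_pos h2.le]
              unfold W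
              norm_num
        have hm : Measurable fun a => ENNReal.ofReal (ct R 1 (x - a) ^ 2) *
            ENNReal.ofReal (W (f x)) := by
          have : Measurable fun a => ct R 1 (x - a) :=
            ((ct_smooth hR one_pos).continuous.comp (continuous_const.sub
              continuous_id)).measurable
          exact ((this.pow_const 2).ennreal_ofReal).mul_const _
        show ∫⁻ a, ENNReal.ofReal (W (pf R a f x)) ≤
          ENNReal.ofReal (vc R * W (f x) + (vol (R + 1) - vol R) * f x ^ 2)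
        refine (lintegral_mono h1).trans ?_
        rw [lintegral_add_left hm, lintegral_mul_const' _ _ ENNReal.ofReal_ne_top,
          lintegral_mul_const' _ _ ENNReal.ofReal_ne_top, lint_ct hR, lint_ann hR,
          ← ENNReal.ofReal_mul hvc, ← ENNReal.ofReal_mul hv,
          ← ENNReal.ofReal_add (mul_nonneg hvc (W_nonneg _)) (mul_nonneg hv (sq_nonneg _))]
    _ = ENNReal.ofReal (∫ x, (vc R * W (f x) + (vol (R + 1) - vol R) * f x ^ 2)) := by
        have hi : Integrable (fun x => vc R * W (f x) + (vol (R + 1) - vol R) * f x ^ 2) volume :=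
          (h.W_int.const_mul _).add (h.sq_int.const_mul _)
        rw [ofReal_integral_eq_lintegral_ofReal hi (Eventually.of_forall fun x => ?_)]
        exact add_nonneg (mul_nonneg hvc (W_nonneg _)) (mul_nonneg hv (sq_nonneg _))
    _ = _ := by
        rw [integral_add (h.W_int.const_mul _) (h.sq_int.const_mul _), integral_const_mul,
          integral_const_mul]
        rfl

lemma pf_meas1 (hf : Measurable f) {R : ℝ} (hR : 0 < R) :
    Measurable fun q : E3 × (E3 × E3) => pf R q.1 f q.2.1 := by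
  have h : Measurable fun q : E3 × (E3 × E3) => (q.1, q.2.1) :=
    measurable_fst.prodMk (measurable_fst.comp measurable_snd)
  exact (pf_meas hf hR).comp h

lemma pf_meas2 (hf : Measurable f) {R : ℝ} (hR : 0 < R) :
    Measurable fun q : E3 × (E3 × E3) => pf R q.1 f q.2.2 := by
  have h : Measurable fun q : E3 × (E3 × E3) => (q.1, q.2.2) :=
    measurable_fst.prodMk (measurable_snd.comp measurable_snd)
  exact (pf_meas hf hR).comp h

lemma kkpf_meas (hf : Measurable f) {R : ℝ} (hR : 0 < R) :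
    Measurable fun q : E3 × (E3 × E3) => kk (pf R q.1 f) q.2 := by
  unfold kk
  have h1 := pf_meas1 hf hR
  have h2 := pf_meas2 hf hR
  have h3 : Measurable fun q : E3 × (E3 × E3) => ‖q.2.1 - q.2.2‖ :=
    ((measurable_fst.comp measurable_snd).sub (measurable_snd.comp measurable_snd)).norm
  exact ((h1.pow_const 2).mul (h2.pow_const 2)).div h3

lemma avg_D (h : H1 f g) {R : ℝ} (hR : 0 < R) :
    ∫⁻ a, ∫⁻ p, ENNReal.ofReal (kk (pf R a f) p) ∂((volume : Measure E3).prod volume) ≤
      ENNReal.ofReal (vc R) *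
        ∫⁻ p, ENNReal.ofReal (kk f p) ∂((volume : Measure E3).prod volume) := by
  rw [lintegral_lintegral_swap (f := fun a p => ENNReal.ofReal (kk (pf R a f) p))
    ((kkpf_meas h.fm hR).ennreal_ofReal).aemeasurable,
    ← lintegral_const_mul' _ _ ENNReal.ofReal_ne_top]
  apply lintegral_mono
  intro p
  have h1 : ∀ a, ENNReal.ofReal (kk (pf R a f) p) ≤
      ENNReal.ofReal (ct R 1 (p.1 - a) ^ 2) * ENNReal.ofReal (kk f p) := by
    intro a
    rw [← ENNReal.ofReal_mul (sq_nonneg _)]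
    apply ENNReal.ofReal_le_ofReal
    have h3 : ct R 1 (p.2 - a) ^ 2 ≤ 1 :=
      pow_le_one₀ (ct_nonneg R 1 (p.2 - a)) (ct_le_one R 1 (p.2 - a))
    have e : kk (pf R a f) p = ct R 1 (p.2 - a) ^ 2 * (ct R 1 (p.1 - a) ^ 2 * kk f p) := by
      unfold kk pf
      ring
    rw [e]
    have := kk_nonneg f p
    calc _ ≤ 1 * (ct R 1 (p.1 - a) ^ 2 * kk f p) :=
          mul_le_mul_of_nonneg_right h3 (by positivity)
      _ = _ := one_mul _
  show ∫⁻ a, ENNReal.ofReal (kk (pf R a f) p) ≤ ENNReal.ofReal (vc R) * ENNReal.ofReal (kk f p)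
  refine (lintegral_mono h1).trans ?_
  rw [lintegral_mul_const' _ _ ENNReal.ofReal_ne_top, lint_ct hR]

/-- averaged energy of the pieces -/
lemma avg_NN (h : H1 f g) {A L : ℝ} (hA : 0 ≤ A)
    (hL : ∀ R w : ℝ, 0 < w → ∀ x, ‖fderiv ℝ (ct R w) x‖ ≤ L / w) {R : ℝ} (hR : 0 < R) :
    ∫⁻ a, ENNReal.ofReal (NN A (pf R a f) (pg R a f g)) ≤
      ENNReal.ofReal (vc R * NN A f g + (A * L ^ 2 + 1) * (vol (R + 1) - vol R) * Ms f) := by
  have hv : 0 ≤ vol (R + 1) - vol R := sub_nonneg.2 (vol_mono hR.le (by linarith))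
  have hvc : 0 ≤ vc R := integral_nonneg fun x => sq_nonneg _
  have hTk := Tk_nonneg g
  have hMs := Ms_nonneg f
  have hWs := Ws_nonneg f
  have hDd := Dd_nonneg f
  simp only [fun a => ofReal_NN (h.piece hR a) hA]
  have m1 : Measurable fun a => ∫⁻ x, ENNReal.ofReal (‖pg R a f g x‖ ^ 2) :=
    (((pg_meas h.fm h.gm hR).norm.pow_const 2).ennreal_ofReal).lintegral_prod_right'
  have m2 : Measurable fun a => ∫⁻ x, ENNReal.ofReal (W (pf R a f x)) :=
    ((W_cont.measurable.comp (pf_meas h.fm hR)).ennreal_ofReal).lintegral_prod_right'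
  have m12 : Measurable fun a => ENNReal.ofReal A * (∫⁻ x, ENNReal.ofReal (‖pg R a f g x‖ ^ 2)) +
      ∫⁻ x, ENNReal.ofReal (W (pf R a f x)) := (m1.const_mul _).add m2
  rw [lintegral_add_left m12, lintegral_add_left (m1.const_mul _),
    lintegral_const_mul' _ _ ENNReal.ofReal_ne_top, lintegral_const_mul' _ _ ENNReal.ofReal_ne_top]
  have hD : ENNReal.ofReal (1 / 2) * (ENNReal.ofReal (vc R) *
        ∫⁻ p, ENNReal.ofReal (kk f p) ∂((volume : Measure E3).prod volume)) =
      ENNReal.ofReal (vc R * Dd f) := by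
    rw [← ofReal_integral_eq_lintegral_ofReal h.kk_int (Eventually.of_forall fun x =>
      kk_nonneg f _), ← ENNReal.ofReal_mul hvc, ← ENNReal.ofReal_mul (by norm_num)]
    congr 1
    unfold Dd
    ring
  calc _ ≤ ENNReal.ofReal A * ENNReal.ofReal (vc R * Tk g + L ^ 2 * (vol (R + 1) - vol R) * Ms f) +
        ENNReal.ofReal (vc R * Ws f + (vol (R + 1) - vol R) * Ms f) +
        ENNReal.ofReal (1 / 2) * (ENNReal.ofReal (vc R) *
          ∫⁻ p, ENNReal.ofReal (kk f p) ∂((volume : Measure E3).prod volume)) := by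
        gcongr
        · exact avg_T h hL hR
        · exact avg_W h hR
        · exact avg_D h hR
    _ = _ := by
        rw [hD, ← ENNReal.ofReal_mul hA, ← ENNReal.ofReal_add (by positivity) (by positivity),
          ← ENNReal.ofReal_add (by positivity) (by positivity)]
        congr 1
        unfold NN
        ring

lemma ofReal_Ms (h : H1 f g) :
    ENNReal.ofReal (Ms f) = ∫⁻ x, ENNReal.ofReal (f x ^ 2) :=
  ofReal_integral_eq_lintegral_ofReal h.sq_int (Eventually.of_forall fun x => sq_nonneg _)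

lemma Mspf_meas (h : H1 f g) {R : ℝ} (hR : 0 < R) :
    Measurable fun a => ENNReal.ofReal (Ms (pf R a f)) := by
  simp only [fun a => ofReal_Ms (h.piece hR a)]
  exact (((pf_meas h.fm hR).pow_const 2).ennreal_ofReal).lintegral_prod_right'

lemma avg_M (h : H1 f g) {R : ℝ} (hR : 0 < R) :
    ∫⁻ a, ENNReal.ofReal (Ms (pf R a f)) = ENNReal.ofReal (vc R * Ms f) := by
  have hvc : 0 ≤ vc R := integral_nonneg fun x => sq_nonneg _
  simp only [fun a => ofReal_Ms (h.piece hR a)]
  rw [lintegral_lintegral_swap (f := fun a x => ENNReal.ofReal (pf R a f x ^ 2))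
    (((pf_meas h.fm hR).pow_const 2).ennreal_ofReal).aemeasurable,
    ENNReal.ofReal_mul hvc, ofReal_Ms h, ← lintegral_const_mul' _ _ ENNReal.ofReal_ne_top]
  apply lintegral_congr
  intro x
  have h1 : ∀ a, ENNReal.ofReal (pf R a f x ^ 2) =
      ENNReal.ofReal (ct R 1 (x - a) ^ 2) * ENNReal.ofReal (f x ^ 2) := by
    intro a
    rw [← ENNReal.ofReal_mul (sq_nonneg _)]
    unfold pf
    rw [mul_pow]
  simp only [h1]
  rw [lintegral_mul_const' _ _ ENNReal.ofReal_ne_top, lint_ct hR]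

/-- pairs at distance less than `ρ` -/
noncomputable def qq (f : E3 → ℝ) (ρ : ℝ) (p : E3 × E3) : ℝ :=
  if ‖p.1 - p.2‖ < ρ then f p.1 ^ 2 * f p.2 ^ 2 else 0

noncomputable def QQ (f : E3 → ℝ) (ρ : ℝ) : ℝ :=
  ∫ p, qq f ρ p ∂((volume : Measure E3).prod volume)

lemma qq_nonneg (f : E3 → ℝ) (ρ : ℝ) (p : E3 × E3) : 0 ≤ qq f ρ p := by
  unfold qq
  split_ifs
  · positivity
  · exact le_rfl

lemma qq_meas (hf : Measurable f) (ρ : ℝ) : Measurable (qq f ρ) := by
  unfold qq
  have h3 : Measurable fun p : E3 × E3 => ‖p.1 - p.2‖ :=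
    (continuous_fst.sub continuous_snd).norm.measurable
  apply Measurable.ite (measurableSet_lt h3 measurable_const) _ measurable_const
  exact ((hf.comp measurable_fst).pow_const 2).mul ((hf.comp measurable_snd).pow_const 2)

lemma H1.qq_int (h : H1 f g) (ρ : ℝ) : Integrable (qq f ρ) ((volume : Measure E3).prod volume) := by
  refine Integrable.mono' (h.sq_int.mul_prod h.sq_int) (qq_meas h.fm ρ).aestronglyMeasurable ?_
  filter_upwards with p
  rw [Real.norm_of_nonneg (qq_nonneg f ρ p)]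
  unfold qq
  split_ifs
  · exact le_rfl
  · positivity

lemma avg_M2 (h : H1 f g) {R : ℝ} (hR : 0 < R) :
    ∫⁻ a, ENNReal.ofReal (Ms (pf R a f) ^ 2) ≤ ENNReal.ofReal (vc R * QQ f (2 * (R + 1))) := by
  have hvc : 0 ≤ vc R := integral_nonneg fun x => sq_nonneg _
  have h1 : ∀ a, ENNReal.ofReal (Ms (pf R a f) ^ 2) =
      ∫⁻ p : E3 × E3, ENNReal.ofReal (pf R a f p.1 ^ 2) * ENNReal.ofReal (pf R a f p.2 ^ 2)
        ∂((volume : Measure E3).prod volume) := by
    intro a
    have hm : Measurable fun x => ENNReal.ofReal (pf R a f x ^ 2) :=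
      ((h.piece hR a).fm.pow_const 2).ennreal_ofReal
    rw [lintegral_prod_mul hm.aemeasurable hm.aemeasurable, ← ofReal_Ms (h.piece hR a), pow_two,
      ENNReal.ofReal_mul (Ms_nonneg _)]
  simp only [h1]
  have hm2 : Measurable fun q : E3 × (E3 × E3) =>
      ENNReal.ofReal (pf R q.1 f q.2.1 ^ 2) * ENNReal.ofReal (pf R q.1 f q.2.2 ^ 2) := by
    exact (((pf_meas1 h.fm hR).pow_const 2).ennreal_ofReal).mul
      (((pf_meas2 h.fm hR).pow_const 2).ennreal_ofReal)
  rw [lintegral_lintegral_swap (f := fun a (p : E3 × E3) =>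
    ENNReal.ofReal (pf R a f p.1 ^ 2) * ENNReal.ofReal (pf R a f p.2 ^ 2)) hm2.aemeasurable,
    ENNReal.ofReal_mul hvc]
  unfold QQ
  rw [ofReal_integral_eq_lintegral_ofReal (h.qq_int _) (Eventually.of_forall fun x =>
    qq_nonneg f _ _), ← lintegral_const_mul' _ _ ENNReal.ofReal_ne_top]
  apply lintegral_mono
  intro p
  show ∫⁻ a, ENNReal.ofReal (pf R a f p.1 ^ 2) * ENNReal.ofReal (pf R a f p.2 ^ 2) ≤
    ENNReal.ofReal (vc R) * ENNReal.ofReal (qq f (2 * (R + 1)) p)
  have h2 : ∀ a, ENNReal.ofReal (pf R a f p.1 ^ 2) * ENNReal.ofReal (pf R a f p.2 ^ 2) ≤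
      ENNReal.ofReal (ct R 1 (p.1 - a) ^ 2) * ENNReal.ofReal (qq f (2 * (R + 1)) p) := by
    intro a
    rw [← ENNReal.ofReal_mul (sq_nonneg _), ← ENNReal.ofReal_mul (sq_nonneg _)]
    apply ENNReal.ofReal_le_ofReal
    by_cases hd : ‖p.1 - p.2‖ < 2 * (R + 1)
    · have e : qq f (2 * (R + 1)) p = f p.1 ^ 2 * f p.2 ^ 2 := by
        unfold qq
        rw [if_pos hd]
      rw [e]
      have h3 : ct R 1 (p.2 - a) ^ 2 ≤ 1 :=
        pow_le_one₀ (ct_nonneg R 1 (p.2 - a)) (ct_le_one R 1 (p.2 - a))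
      unfold pf
      calc (ct R 1 (p.1 - a) * f p.1) ^ 2 * (ct R 1 (p.2 - a) * f p.2) ^ 2 =
            ct R 1 (p.2 - a) ^ 2 * (ct R 1 (p.1 - a) ^ 2 * (f p.1 ^ 2 * f p.2 ^ 2)) := by ring
        _ ≤ 1 * (ct R 1 (p.1 - a) ^ 2 * (f p.1 ^ 2 * f p.2 ^ 2)) :=
            mul_le_mul_of_nonneg_right h3 (by positivity)
        _ = _ := one_mul _
    · have hz : pf R a f p.1 ^ 2 * pf R a f p.2 ^ 2 = 0 := by
        push Not at hd
        have h4 : ‖p.1 - p.2‖ ≤ ‖p.1 - a‖ + ‖p.2 - a‖ := by
          calc ‖p.1 - p.2‖ = ‖(p.1 - a) - (p.2 - a)‖ := by rw [sub_sub_sub_cancel_right]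
            _ ≤ _ := norm_sub_le _ _
        rcases le_or_gt (R + 1) ‖p.1 - a‖ with h5 | h5
        · unfold pf
          rw [ct_zero one_pos h5]
          ring
        · have h6 : R + 1 ≤ ‖p.2 - a‖ := by linarith
          unfold pf
          rw [ct_zero one_pos h6]
          ring
      rw [hz]
      exact mul_nonneg (sq_nonneg _) (qq_nonneg _ _ _)
  refine (lintegral_mono h2).trans ?_
  rw [lintegral_mul_const' _ _ ENNReal.ofReal_ne_top, lint_ct hR]

end Pool.Agent.Helper26.Tf
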