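import Pool.Graph.R_pool_sql_team_b88adf34.TFDWGrow

set_option autoImplicit false

namespace Pool.Agent.Helper26.Tf

open MeasureTheory Filter Topology Set Pool.Agent.TFDW
open scoped ENNReal NNReal ContDiff

/-- Sobolev functions, with measurable representatives of the function and its weak gradient. -/
structure H1 (f : E3 → ℝ) (g : E3 → E3) : Prop where
  fm : Measurable f
  gm : Measurable g
  f2 : MemLp f 2 volume
  g2 : MemLp g 2 volume
  weak : IsWeakGrad f g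

/-- mass -/
noncomputable def Ms (f : E3 → ℝ) : ℝ := ∫ x, f x ^ 2
/-- kinetic energy -/
noncomputable def Tk (g : E3 → E3) : ℝ := ∫ x, ‖g x‖ ^ 2
/-- local energy density -/
noncomputable def W (u : ℝ) : ℝ := u ^ 2 * ((u ^ 2) ^ (1 / 3 : ℝ) - 1) ^ 2
/-- local energy -/
noncomputable def Ws (f : E3 → ℝ) : ℝ := ∫ x, W (f x)
/-- potential at a point -/
noncomputable def Ph (f : E3 → ℝ) (a : E3) : ℝ := ∫ x, f x ^ 2 / ‖x - a‖
/-- the integrand of the Coulomb energy -/
noncomputable def kk (f : E3 → ℝ) (p : E3 × E3) : ℝ := f p.1 ^ 2 * f p.2 ^ 2 / ‖p.1 - p.2‖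
/-- Coulomb energy -/
noncomputable def Dd (f : E3 → ℝ) : ℝ := 1 / 2 * ∫ p, kk f p ∂((volume : Measure E3).prod volume)
/-- the energy without nucleus, shifted by the mass -/
noncomputable def NN (A : ℝ) (f : E3 → ℝ) (g : E3 → E3) : ℝ := A * Tk g + Ws f + Dd f

lemma W_nonneg (u : ℝ) : 0 ≤ W u := by unfold W; positivity

lemma W_cont : Continuous W := by
  unfold W
  have h : Continuous fun u : ℝ => (u ^ 2) ^ (1 / 3 : ℝ) :=
    (continuous_pow 2).rpow_const fun x => Or.inr (by norm_num)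
  exact (continuous_pow 2).mul ((h.sub continuous_const).pow 2)

lemma cbrt_cube (u : ℝ) : ((u ^ 2) ^ (1 / 3 : ℝ)) ^ 3 = u ^ 2 := by
  rw [← Real.rpow_natCast, ← Real.rpow_mul (by positivity)]
  norm_num

lemma cbrt_nonneg (u : ℝ) : 0 ≤ (u ^ 2) ^ (1 / 3 : ℝ) := by positivity

lemma W_le (u : ℝ) : W u ≤ 4 * u ^ 2 + 2 * u ^ 6 := by
  unfold W
  set y := (u ^ 2) ^ (1 / 3 : ℝ) with hy
  have hy0 : 0 ≤ y := cbrt_nonneg u
  have hy3 : y ^ 3 = u ^ 2 := cbrt_cube u
  have h1 : y ^ 2 ≤ 1 + y ^ 6 := by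
    rcases le_total y 1 with h | h
    · have : y ^ 2 ≤ 1 := pow_le_one₀ hy0 h
      have : 0 ≤ y ^ 6 := by positivity
      linarith
    · have : y ^ 2 ≤ y ^ 6 := pow_le_pow_right₀ h (by norm_num)
      linarith
  have h2 : y ^ 6 = u ^ 4 := by
    calc y ^ 6 = (y ^ 3) ^ 2 := by ring
      _ = u ^ 4 := by rw [hy3]; ring
  have h3 : (y - 1) ^ 2 ≤ 4 + 2 * u ^ 4 := by nlinarith [sq_nonneg (y + 1)]
  calc u ^ 2 * (y - 1) ^ 2 ≤ u ^ 2 * (4 + 2 * u ^ 4) := mul_le_mul_of_nonneg_left h3 (sq_nonneg _)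
    _ = 4 * u ^ 2 + 2 * u ^ 6 := by ring

variable {f : E3 → ℝ} {g : E3 → E3}

lemma H1.sq_int (h : H1 f g) : Integrable (fun x => f x ^ 2) volume := h.f2.integrable_sq

lemma H1.gsq_int (h : H1 f g) : Integrable (fun x => ‖g x‖ ^ 2) volume :=
  (memLp_two_iff_integrable_sq_norm h.g2.1).1 h.g2

lemma H1.six (h : H1 f g) : MemLp f 6 volume := by
  obtain ⟨S, hS⟩ := sobolev
  exact ⟨h.f2.1, lt_of_le_of_lt (hS f g h.f2 h.g2 h.weak)
    (ENNReal.mul_lt_top ENNReal.coe_lt_top h.g2.2)⟩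

lemma H1.six_int (h : H1 f g) : Integrable (fun x => f x ^ 6) volume := by
  have h1 := (integrable_norm_rpow_iff h.f2.1 (by norm_num) (by norm_num)).2 h.six
  refine h1.congr ?_
  filter_upwards with x
  rw [ENNReal.toReal_ofNat]
  show ‖f x‖ ^ ((6 : ℕ) : ℝ) = f x ^ 6
  rw [Real.rpow_natCast, Real.norm_eq_abs]
  exact Even.pow_abs (by decide) _

lemma H1.W_int (h : H1 f g) : Integrable (fun x => W (f x)) volume := by
  refine Integrable.mono' ((h.sq_int.const_mul 4).add (h.six_int.const_mul 2))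
    (W_cont.measurable.comp h.fm).aestronglyMeasurable ?_
  filter_upwards with x
  rw [Real.norm_of_nonneg (W_nonneg _)]
  exact W_le _

lemma Ms_nonneg (f : E3 → ℝ) : 0 ≤ Ms f := integral_nonneg fun x => sq_nonneg _
lemma Tk_nonneg (g : E3 → E3) : 0 ≤ Tk g := integral_nonneg fun x => sq_nonneg _
lemma Ws_nonneg (f : E3 → ℝ) : 0 ≤ Ws f := integral_nonneg fun x => W_nonneg _
lemma kk_nonneg (f : E3 → ℝ) (p : E3 × E3) : 0 ≤ kk f p := by unfold kk; positivity
lemma Dd_nonneg (f : E3 → ℝ) : 0 ≤ Dd f :=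
  mul_nonneg (by norm_num) (integral_nonneg fun p => kk_nonneg f p)
lemma Ph_nonneg (f : E3 → ℝ) (a : E3) : 0 ≤ Ph f a := integral_nonneg fun x => by positivity

lemma kk_meas (hf : Measurable f) : Measurable (kk f) := by
  unfold kk
  have h1 : Measurable fun p : E3 × E3 => f p.1 := hf.comp measurable_fst
  have h2 : Measurable fun p : E3 × E3 => f p.2 := hf.comp measurable_snd
  have h3 : Measurable fun p : E3 × E3 => ‖p.1 - p.2‖ :=
    (continuous_fst.sub continuous_snd).norm.measurable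
  exact ((h1.pow_const 2).mul (h2.pow_const 2)).div h3

/-- The local part of the potential is controlled by the kinetic energy. -/
lemma loc_pot : ∃ K : ℝ, 0 < K ∧ ∀ (f : E3 → ℝ) (g : E3 → E3), H1 f g → ∀ (a : E3) (s : ℝ), 0 < s →
    Integrable (fun x => f x ^ 2 * Kr s (x - a)) volume ∧
    ∫ x, f x ^ 2 * Kr s (x - a) ≤ K * s * Tk g := by
  obtain ⟨S, hS⟩ := sobolev
  set c : ℝ := (∫ x, K1 x ^ (3 / 2 : ℝ)) ^ (1 / (3 / 2) : ℝ) with hc
  have hc0 : 0 ≤ c := Real.rpow_nonneg (integral_nonneg fun x => Real.rpow_nonneg (K1_nonneg x) _) _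
  refine ⟨(S : ℝ) ^ 2 * c + 1, by positivity, ?_⟩
  intro f g h a s hs
  have hpq : (3 : ℝ).HolderConjugate (3 / 2) := by
    rw [Real.holderConjugate_iff]
    norm_num
  have hK : MemLp (fun x => Kr s (x - a)) (ENNReal.ofReal (3 / 2)) volume :=
    (Kr_mem s hs).comp_measurePreserving (measurePreserving_sub_right volume a)
  have h3 : MemLp (fun x => f x ^ 2) (ENNReal.ofReal 3) volume := by
    rw [← integrable_norm_rpow_iff (h.fm.pow_const 2).aestronglyMeasurable (by simp) (by simp)]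
    refine h.six_int.congr ?_
    filter_upwards with x
    rw [ENNReal.toReal_ofReal (by norm_num), Real.norm_of_nonneg (sq_nonneg _)]
    show f x ^ 6 = (f x ^ 2) ^ ((3 : ℕ) : ℝ)
    rw [Real.rpow_natCast]
    ring
  have hint1 : Integrable (fun x => f x ^ 2 * Kr s (x - a)) volume := by
    haveI : ENNReal.HolderConjugate (ENNReal.ofReal 3) (ENNReal.ofReal (3 / 2)) :=
      hpq.ennrealOfReal
    exact h3.integrable_mul hK
  have hH := integral_mul_le_Lp_mul_Lq_of_nonneg hpq (μ := (volume : Measure E3))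
    (f := fun x => f x ^ 2) (g := fun x => Kr s (x - a))
    (Filter.Eventually.of_forall fun x => sq_nonneg _)
    (Filter.Eventually.of_forall fun x => Kr_nonneg s _) h3 hK
  rw [integral_sub_right_eq_self (fun x => Kr s x ^ (3 / 2 : ℝ)) a, Kr_int s hs, ← hc] at hH
  refine ⟨hint1, hH.trans ?_⟩
  have h1 := hS f g h.f2 h.g2 h.weak
  rw [h.six.eLpNorm_eq_integral_rpow_norm (by norm_num) (by norm_num),
    h.g2.eLpNorm_eq_integral_rpow_norm (by norm_num) (by norm_num)] at h1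
  have e1 : (∫ x, ‖f x‖ ^ (6 : ℝ≥0∞).toReal) = ∫ x, (f x ^ 2) ^ (3 : ℝ) := by
    apply integral_congr_ae
    filter_upwards with x
    rw [ENNReal.toReal_ofNat]
    show ‖f x‖ ^ ((6 : ℕ) : ℝ) = (f x ^ 2) ^ ((3 : ℕ) : ℝ)
    rw [Real.rpow_natCast, Real.rpow_natCast, Real.norm_eq_abs, ← pow_mul]
    exact Even.pow_abs (by decide) _
  have e2 : (∫ x, ‖g x‖ ^ (2 : ℝ≥0∞).toReal) = Tk g := by
    unfold Tk
    apply integral_congr_ae
    filter_upwards with x
    rw [ENNReal.toReal_ofNat]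
    exact Real.rpow_two _
  rw [e1, e2, ENNReal.toReal_ofNat, ENNReal.toReal_ofNat] at h1
  have hT0 := Tk_nonneg g
  have hQ0 : 0 ≤ ∫ x, (f x ^ 2) ^ (3 : ℝ) := integral_nonneg fun x => by positivity
  have h2 : ENNReal.ofReal ((∫ x, (f x ^ 2) ^ (3 : ℝ)) ^ ((6 : ℝ)⁻¹)) ≤
      ENNReal.ofReal (S * (Tk g) ^ ((2 : ℝ)⁻¹)) := by
    rw [ENNReal.ofReal_mul S.coe_nonneg, ENNReal.ofReal_coe_nnreal]
    exact h1
  rw [ENNReal.ofReal_le_ofReal_iff (by positivity)] at h2
  have h4 := pow_le_pow_left₀ (Real.rpow_nonneg hQ0 _) h2 2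
  rw [mul_pow, ← Real.rpow_natCast, ← Real.rpow_natCast ((Tk g) ^ ((2 : ℝ)⁻¹)),
    ← Real.rpow_mul hQ0, ← Real.rpow_mul hT0] at h4
  norm_num at h4
  have h5 : (∫ x, (f x ^ 2) ^ (3 : ℝ)) ^ (1 / 3 : ℝ) ≤ (S : ℝ) ^ 2 * Tk g := by
    norm_num
    exact h4
  calc (∫ x, (f x ^ 2) ^ (3 : ℝ)) ^ (1 / 3 : ℝ) * (s * c) ≤ ((S : ℝ) ^ 2 * Tk g) * (s * c) :=
        mul_le_mul_of_nonneg_right h5 (by positivity)
    _ = ((S : ℝ) ^ 2 * c) * (s * Tk g) := by ring
    _ ≤ ((S : ℝ) ^ 2 * c + 1) * (s * Tk g) := by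
        apply mul_le_mul_of_nonneg_right (by linarith)
        positivity
    _ = _ := by ring

/-- pointwise splitting of the Coulomb kernel -/
lemma inv_le_Kr (x : E3) (s : ℝ) (hs : 0 < s) (t : ℝ) (ht : 0 ≤ t) :
    t / ‖x‖ ≤ t * Kr s x + t / s := by
  unfold Kr
  have hts : 0 ≤ t / s := by positivity
  split_ifs with h
  · rw [div_eq_mul_inv]; linarith
  · push Not at h
    rw [mul_zero, zero_add]
    exact div_le_div_of_nonneg_left ht hs h

lemma pot_bd : ∃ K : ℝ, 0 < K ∧ ∀ (f : E3 → ℝ) (g : E3 → E3), H1 f g → ∀ (a : E3),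
    Integrable (fun x => f x ^ 2 / ‖x - a‖) volume ∧
    ∀ s : ℝ, 0 < s → Ph f a ≤ K * s * Tk g + Ms f / s := by
  obtain ⟨K, hK, hl⟩ := loc_pot
  refine ⟨K, hK, ?_⟩
  intro f g h a
  have hm : AEStronglyMeasurable (fun x => f x ^ 2 / ‖x - a‖) (volume : Measure E3) :=
    ((h.fm.pow_const 2).div ((measurable_id.sub_const a).norm)).aestronglyMeasurable
  have hdom : ∀ s : ℝ, 0 < s → ∀ x, f x ^ 2 / ‖x - a‖ ≤ f x ^ 2 * Kr s (x - a) + f x ^ 2 / s :=
    fun s hs x => inv_le_Kr _ s hs _ (sq_nonneg _)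
  have hint : Integrable (fun x => f x ^ 2 / ‖x - a‖) volume := by
    refine Integrable.mono' ((hl f g h a 1 one_pos).1.add (h.sq_int.div_const 1)) hm ?_
    filter_upwards with x
    rw [Real.norm_of_nonneg (by positivity)]
    exact hdom 1 one_pos x
  refine ⟨hint, fun s hs => ?_⟩
  calc Ph f a ≤ ∫ x, (f x ^ 2 * Kr s (x - a) + f x ^ 2 / s) := by
        apply integral_mono hint ((hl f g h a s hs).1.add (h.sq_int.div_const s))
        exact hdom s hs
    _ = (∫ x, f x ^ 2 * Kr s (x - a)) + (∫ x, f x ^ 2) / s := by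
        rw [integral_add (hl f g h a s hs).1 (h.sq_int.div_const s), integral_div]
    _ ≤ _ := add_le_add (hl f g h a s hs).2 le_rfl

lemma H1.pot_int (h : H1 f g) (a : E3) : Integrable (fun x => f x ^ 2 / ‖x - a‖) volume := by
  obtain ⟨K, _, hK⟩ := pot_bd
  exact (hK f g h a).1

lemma H1.kk_int (h : H1 f g) : Integrable (kk f) ((volume : Measure E3).prod volume) := by
  obtain ⟨K, _, hK⟩ := pot_bd
  have hm := kk_meas h.fm
  rw [integrable_prod_iff hm.aestronglyMeasurable]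
  have he : ∀ x, (fun y => kk f (x, y)) = fun y => f x ^ 2 * (f y ^ 2 / ‖y - x‖) := by
    intro x
    funext y
    unfold kk
    rw [norm_sub_rev]
    ring
  constructor
  · filter_upwards with x
    rw [he x]
    exact (h.pot_int x).const_mul _
  · have h2 : (fun x => ∫ y, ‖kk f (x, y)‖) = fun x => f x ^ 2 * Ph f x := by
      funext x
      have : (fun y => ‖kk f (x, y)‖) = fun y => kk f (x, y) := by
        funext y
        exact Real.norm_of_nonneg (kk_nonneg f _)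
      rw [this, he x, integral_const_mul]
      rfl
    rw [h2]
    refine Integrable.mono' (h.sq_int.mul_const (K * 1 * Tk g + Ms f / 1)) ?_ ?_
    · rw [← h2]
      exact hm.norm.aestronglyMeasurable.integral_prod_right'
    · filter_upwards with x
      rw [Real.norm_of_nonneg (mul_nonneg (sq_nonneg _) (Ph_nonneg f x))]
      exact mul_le_mul_of_nonneg_left ((hK f g h x).2 1 one_pos) (sq_nonneg _)

lemma H1.Dd_eq (h : H1 f g) : Dd f = 1 / 2 * ∫ x, f x ^ 2 * Ph f x := by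
  unfold Dd
  rw [integral_prod _ h.kk_int]
  congr 1
  apply integral_congr_ae
  filter_upwards with x
  unfold Ph
  rw [← integral_const_mul]
  apply integral_congr_ae
  filter_upwards with y
  unfold kk
  show f x ^ 2 * f y ^ 2 / ‖x - y‖ = f x ^ 2 * (f y ^ 2 / ‖y - x‖)
  rw [norm_sub_rev]
  ring

lemma NN_nonneg {A : ℝ} (hA : 0 ≤ A) (f : E3 → ℝ) (g : E3 → E3) : 0 ≤ NN A f g := by
  unfold NN
  have := Tk_nonneg g
  have := Ws_nonneg f
  have := Dd_nonneg f
  positivity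

end Pool.Agent.Helper26.Tf
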