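import Pool.Agent.Helper26.Tf.Avg2

set_option autoImplicit false
set_option linter.unusedVariables false

namespace Pool.Agent.Helper26.Tf

open MeasureTheory Filter Topology Set Pool.Agent.TFDW
open scoped ENNReal NNReal ContDiff

variable {f : E3 → ℝ} {g : E3 → E3}

/-- The localization inequality. -/
lemma loc_main {A δ θ c L : ℝ} (hA : 0 ≤ A) (hδ : 0 ≤ δ) (hθ : 0 ≤ θ) (hc : 0 < c)
    (hL : ∀ R w : ℝ, 0 < w → ∀ x, ‖fderiv ℝ (ct R w) x‖ ≤ L / w)
    (hloc : ∀ u w, H1 u w → δ * Ms u + min (θ * Ms u) c ≤ NN A u w) (h : H1 f g) {R : ℝ}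
    (hR : 1 ≤ R) {t : ℝ} (ht0 : 0 ≤ t) (ht1 : t ≤ 1) :
    (δ + t * θ) * Ms f ≤ NN A f g + 7 * (A * L ^ 2 + 1) / R * Ms f +
      t ^ 2 * θ ^ 2 / (4 * c) * QQ f (2 * (R + 1)) := by
  have hR0 : 0 < R := by linarith
  set κ := t ^ 2 * θ ^ 2 / (4 * c) with hκ
  have hκ0 : 0 ≤ κ := by positivity
  have hvc : 0 < vc R := lt_of_lt_of_le (vol_pos hR0) (vc_ge hR0)
  have hv : 0 ≤ vol (R + 1) - vol R := sub_nonneg.2 (vol_mono hR0.le (by linarith))
  have hNN := NN_nonneg hA f g
  have hMs := Ms_nonneg f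
  have hQ : 0 ≤ QQ f (2 * (R + 1)) := integral_nonneg fun p => qq_nonneg _ _ _
  have hpt : ∀ a, ENNReal.ofReal (δ + t * θ) * ENNReal.ofReal (Ms (pf R a f)) ≤
      ENNReal.ofReal (NN A (pf R a f) (pg R a f g)) +
        ENNReal.ofReal κ * ENNReal.ofReal (Ms (pf R a f) ^ 2) := by
    intro a
    have h1 := hloc _ _ (h.piece hR0 a)
    set m := Ms (pf R a f) with hm
    have hm0 : 0 ≤ m := Ms_nonneg _
    rw [← ENNReal.ofReal_mul (by positivity), ← ENNReal.ofReal_mul hκ0,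
      ← ENNReal.ofReal_add (NN_nonneg hA _ _) (by positivity)]
    apply ENNReal.ofReal_le_ofReal
    have h2 : t * θ * m - κ * m ^ 2 ≤ min (θ * m) c := by
      apply le_min
      · have h3 : t * (θ * m) ≤ 1 * (θ * m) := mul_le_mul_of_nonneg_right ht1 (by positivity)
        have h4 : 0 ≤ κ * m ^ 2 := by positivity
        linarith
      · have e : c - (t * θ * m - κ * m ^ 2) = (2 * c - t * θ * m) ^ 2 / (4 * c) := by
          rw [hκ]
          field_simp
          ring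
        have : 0 ≤ (2 * c - t * θ * m) ^ 2 / (4 * c) := by positivity
        linarith
    linarith
  have hint : ENNReal.ofReal (δ + t * θ) * ENNReal.ofReal (vc R * Ms f) ≤
      ENNReal.ofReal (vc R * NN A f g + (A * L ^ 2 + 1) * (vol (R + 1) - vol R) * Ms f) +
        ENNReal.ofReal κ * ENNReal.ofReal (vc R * QQ f (2 * (R + 1))) := by
    calc ENNReal.ofReal (δ + t * θ) * ENNReal.ofReal (vc R * Ms f)
        = ∫⁻ a, ENNReal.ofReal (δ + t * θ) * ENNReal.ofReal (Ms (pf R a f)) := by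
          rw [lintegral_const_mul' _ _ ENNReal.ofReal_ne_top, avg_M h hR0]
      _ ≤ ∫⁻ a, (ENNReal.ofReal (NN A (pf R a f) (pg R a f g)) +
            ENNReal.ofReal κ * ENNReal.ofReal (Ms (pf R a f) ^ 2)) := lintegral_mono hpt
      _ = (∫⁻ a, ENNReal.ofReal (NN A (pf R a f) (pg R a f g))) +
            ENNReal.ofReal κ * ∫⁻ a, ENNReal.ofReal (Ms (pf R a f) ^ 2) := by
          have hm : Measurable fun a => ENNReal.ofReal κ * ENNReal.ofReal (Ms (pf R a f) ^ 2) := by
            have h1 : (fun a => ENNReal.ofReal κ * ENNReal.ofReal (Ms (pf R a f) ^ 2)) =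
                fun a => ENNReal.ofReal κ * (ENNReal.ofReal (Ms (pf R a f)) ^ 2) := by
              funext a
              rw [ENNReal.ofReal_pow (Ms_nonneg _)]
            rw [h1]
            exact ((Mspf_meas h hR0).pow_const 2).const_mul _
          rw [lintegral_add_right _ hm, lintegral_const_mul' _ _ ENNReal.ofReal_ne_top]
      _ ≤ _ := by
          gcongr
          · exact avg_NN h hA hL hR0
          · exact avg_M2 h hR0
  rw [← ENNReal.ofReal_mul (by positivity), ← ENNReal.ofReal_mul hκ0,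
    ← ENNReal.ofReal_add (by positivity) (by positivity),
    ENNReal.ofReal_le_ofReal_iff (by positivity)] at hint
  have hann : vol (R + 1) - vol R ≤ 7 / R * vc R := by
    have h1 : vol (R + 1) - vol R ≤ 7 / R * vol R := by
      have hB := vB_pos
      have e1 : 7 / R * vol R = vB * (7 * R ^ 2) := by
        unfold vol
        field_simp
      rw [e1]
      unfold vol
      rw [← mul_sub]
      apply mul_le_mul_of_nonneg_left _ hB.le
      nlinarith
    exact h1.trans (mul_le_mul_of_nonneg_left (vc_ge hR0) (by positivity))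
  have h5 : (A * L ^ 2 + 1) * (vol (R + 1) - vol R) * Ms f ≤
      (A * L ^ 2 + 1) * (7 / R * vc R) * Ms f := by
    apply mul_le_mul_of_nonneg_right _ hMs
    exact mul_le_mul_of_nonneg_left hann (by positivity)
  have h6 : vc R * ((δ + t * θ) * Ms f) ≤ vc R * (NN A f g + 7 * (A * L ^ 2 + 1) / R * Ms f +
      κ * QQ f (2 * (R + 1))) := by
    calc vc R * ((δ + t * θ) * Ms f) = (δ + t * θ) * (vc R * Ms f) := by ring
      _ ≤ vc R * NN A f g + (A * L ^ 2 + 1) * (7 / R * vc R) * Ms f +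
          κ * (vc R * QQ f (2 * (R + 1))) := by linarith
      _ = _ := by ring
  exact le_of_mul_le_mul_left h6 hvc

lemma diag_null : ∀ᵐ p : E3 × E3 ∂((volume : Measure E3).prod volume), p.1 ≠ p.2 := by
  have hm : MeasurableSet {p : E3 × E3 | p.1 = p.2} :=
    (isClosed_eq continuous_fst continuous_snd).measurableSet
  rw [ae_iff]
  simp only [not_not]
  rw [Measure.measure_prod_null hm]
  filter_upwards with x
  have : Prod.mk x ⁻¹' {p : E3 × E3 | p.1 = p.2} = {x} := by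
    ext y
    simp [eq_comm]
  rw [this]
  exact measure_singleton x

/-- dyadic sum -/
lemma dyadic (k₀ n : ℕ) {u : ℝ} (hu : 0 < u) :
    ∑ k ∈ Finset.range n, (if u < (2 : ℝ) ^ (k₀ + k) then ((2 : ℝ) ^ (k₀ + k))⁻¹ else 0) ≤ 2 / u := by
  set b : ℕ → ℝ := fun k => min (2 / u) (2 * ((2 : ℝ) ^ (k₀ + k))⁻¹) with hb
  have hb0 : ∀ k, 0 ≤ b k := fun k => le_min (by positivity) (by positivity)
  have h1 : ∀ k, (if u < (2 : ℝ) ^ (k₀ + k) then ((2 : ℝ) ^ (k₀ + k))⁻¹ else 0) ≤
      b k - b (k + 1) := by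
    intro k
    have hp : (0 : ℝ) < 2 ^ (k₀ + k) := by positivity
    have e : (2 : ℝ) ^ (k₀ + (k + 1)) = 2 * 2 ^ (k₀ + k) := by
      rw [← add_assoc, pow_succ]
      ring
    have e2 : 2 * ((2 : ℝ) ^ (k₀ + (k + 1)))⁻¹ = ((2 : ℝ) ^ (k₀ + k))⁻¹ := by
      rw [e]
      field_simp
    split_ifs with hc
    · have h2 : ((2 : ℝ) ^ (k₀ + k))⁻¹ < 1 / u := by
        rw [inv_eq_one_div]
        exact one_div_lt_one_div_of_lt hu hc
      have h3 : b k = 2 * ((2 : ℝ) ^ (k₀ + k))⁻¹ := by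
        apply min_eq_right
        rw [show (2 : ℝ) / u = 2 * (1 / u) by ring]
        linarith
      have h4 : b (k + 1) ≤ ((2 : ℝ) ^ (k₀ + k))⁻¹ := by
        rw [← e2]
        exact min_le_right _ _
      linarith
    · have h5 : b (k + 1) ≤ b k := by
        apply min_le_min le_rfl
        rw [e2]
        have : 0 < ((2 : ℝ) ^ (k₀ + k))⁻¹ := by positivity
        linarith
      linarith
  calc _ ≤ ∑ k ∈ Finset.range n, (b k - b (k + 1)) := Finset.sum_le_sum fun k _ => h1 k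
    _ = b 0 - b n := Finset.sum_range_sub' b n
    _ ≤ 2 / u := by
        have : b 0 ≤ 2 / u := min_le_left _ _
        linarith [hb0 n]

lemma dyadic_Q (h : H1 f g) (k₀ n : ℕ) :
    ∑ k ∈ Finset.range n, ((2 : ℝ) ^ (k₀ + k))⁻¹ * QQ f (2 ^ (k₀ + k)) ≤ 4 * Dd f := by
  have e1 : ∑ k ∈ Finset.range n, ((2 : ℝ) ^ (k₀ + k))⁻¹ * QQ f (2 ^ (k₀ + k)) =
      ∫ p, (∑ k ∈ Finset.range n, ((2 : ℝ) ^ (k₀ + k))⁻¹ * qq f (2 ^ (k₀ + k)) p)
        ∂((volume : Measure E3).prod volume) := by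
    rw [integral_finsetSum _ fun k _ => (h.qq_int _).const_mul _]
    apply Finset.sum_congr rfl
    intro k _
    rw [integral_const_mul]
    rfl
  have e2 : 4 * Dd f = ∫ p, 2 * kk f p ∂((volume : Measure E3).prod volume) := by
    rw [integral_const_mul]
    unfold Dd
    ring
  rw [e1, e2]
  apply integral_mono_ae (integrable_finsetSum _ fun k _ => (h.qq_int _).const_mul _)
    (h.kk_int.const_mul _)
  filter_upwards [diag_null] with p hp
  have hu : 0 < ‖p.1 - p.2‖ := norm_pos_iff.2 (sub_ne_zero.2 hp)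
  have h1 := dyadic k₀ n hu
  have h2 : 0 ≤ f p.1 ^ 2 * f p.2 ^ 2 := by positivity
  calc ∑ k ∈ Finset.range n, ((2 : ℝ) ^ (k₀ + k))⁻¹ * qq f (2 ^ (k₀ + k)) p
      = (f p.1 ^ 2 * f p.2 ^ 2) * ∑ k ∈ Finset.range n,
          (if ‖p.1 - p.2‖ < (2 : ℝ) ^ (k₀ + k) then ((2 : ℝ) ^ (k₀ + k))⁻¹ else 0) := by
        rw [Finset.mul_sum]
        apply Finset.sum_congr rfl
        intro k _
        unfold qq
        split_ifs <;> ring
    _ ≤ (f p.1 ^ 2 * f p.2 ^ 2) * (2 / ‖p.1 - p.2‖) := mul_le_mul_of_nonneg_left h1 h2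
    _ = 2 * kk f p := by
        unfold kk
        ring

lemma pigeon (h : H1 f g) (k₀ : ℕ) {n : ℕ} (hn : 0 < n) :
    ∃ k < n, ((2 : ℝ) ^ (k₀ + k))⁻¹ * QQ f (2 ^ (k₀ + k)) ≤ 4 * Dd f / n := by
  by_contra hc
  push Not at hc
  have h1 := dyadic_Q h k₀ n
  have h2 : ∑ k ∈ Finset.range n, 4 * Dd f / n <
      ∑ k ∈ Finset.range n, ((2 : ℝ) ^ (k₀ + k))⁻¹ * QQ f (2 ^ (k₀ + k)) := by
    apply Finset.sum_lt_sum_of_nonempty
    · exact Finset.nonempty_range_iff.2 hn.ne'
    · intro k hk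
      exact hc k (Finset.mem_range.1 hk)
  rw [Finset.sum_const, Finset.card_range, nsmul_eq_mul] at h2
  have h3 : (n : ℝ) * (4 * Dd f / n) = 4 * Dd f := by
    have : (0 : ℝ) < n := by exact_mod_cast hn
    field_simp
  rw [h3] at h2
  linarith

/-- If all functions satisfy the local lower bound then there is a uniform improvement. -/
lemma improve {A δ θ c : ℝ} (hA : 0 ≤ A) (hδ : 0 ≤ δ) (hθ : 0 < θ) (hc : 0 < c)
    (hloc : ∀ u w, H1 u w → δ * Ms u + min (θ * Ms u) c ≤ NN A u w) :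
    ∃ ε : ℝ, 0 < ε ∧ ∀ f g, H1 f g → (δ + ε) * Ms f ≤ NN A f g := by
  obtain ⟨L, hL0, hL⟩ := ct_lip
  set C := 7 * (A * L ^ 2 + 1) with hC
  have hC0 : 0 < C := by positivity
  set D := δ + 1 with hD
  have hD0 : 0 < D := by positivity
  obtain ⟨n, hn⟩ := exists_nat_gt (8 * D * (4 * C + 1) / c)
  have hn0 : 0 < n := by
    have : (0 : ℝ) < n := lt_trans (by positivity) hn
    exact_mod_cast this
  have hnr : (0 : ℝ) < n := by exact_mod_cast hn0
  have hnc : 8 * D * (4 * C + 1) < n * c := by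
    rwa [div_lt_iff₀ hc] at hn
  obtain ⟨k₁, hk₁⟩ := exists_nat_gt (c * n / (4 * θ * D))
  set k₀ := k₁ + 2 with hk₀
  have h2k : ∀ k : ℕ, c * n / (4 * θ * D) ≤ (2 : ℝ) ^ (k₀ + k) := by
    intro k
    have h1 : (k₁ : ℝ) ≤ 2 ^ (k₀ + k) := by
      have h2 : k₁ < 2 ^ (k₀ + k) := by
        calc k₁ < 2 ^ k₁ := Nat.lt_two_pow_self
          _ ≤ 2 ^ (k₀ + k) := Nat.pow_le_pow_right (by norm_num) (by omega)
      exact_mod_cast h2.le
    linarith
  refine ⟨min 1 (((2 : ℝ) ^ (k₀ + n))⁻¹), lt_min one_pos (by positivity), ?_⟩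
  intro f g h
  have hMs := Ms_nonneg f
  rcases le_or_gt (D * Ms f) (NN A f g) with hbig | hsmall
  · have h1 : δ + min 1 (((2 : ℝ) ^ (k₀ + n))⁻¹) ≤ D := by
      rw [hD]
      have := min_le_left 1 (((2 : ℝ) ^ (k₀ + n))⁻¹)
      linarith
    exact (mul_le_mul_of_nonneg_right h1 hMs).trans hbig
  · have hDd : Dd f ≤ D * Ms f := by
      have h1 : Dd f ≤ NN A f g := by
        unfold NN
        have := mul_nonneg hA (Tk_nonneg g)
        have := Ws_nonneg f
        linarith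
      linarith
    obtain ⟨k, hk, hQ⟩ := pigeon h k₀ hn0
    set P := (2 : ℝ) ^ (k₀ + k) with hP
    have hP0 : 0 < P := by positivity
    have hP4 : 4 ≤ P := by
      rw [hP]
      calc (4 : ℝ) = 2 ^ 2 := by norm_num
        _ ≤ 2 ^ (k₀ + k) := pow_le_pow_right₀ (by norm_num) (by omega)
    set R := P / 2 - 1 with hR
    have hR1 : 1 ≤ R := by rw [hR]; linarith
    have hRP : P / 4 ≤ R := by rw [hR]; linarith
    have e1 : 2 * (R + 1) = P := by rw [hR]; ring
    set t := c * n / (4 * θ * D * P) with ht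
    have ht0 : 0 ≤ t := by positivity
    have ht1 : t ≤ 1 := by
      have := h2k k
      rw [← hP, div_le_iff₀ (by positivity)] at this
      rw [ht, div_le_one (by positivity)]
      linarith
    have hm := loc_main hA hδ hθ.le hc hL hloc h hR1 ht0 ht1
    rw [e1, ← hC] at hm
    have hQ2 : QQ f P ≤ P * (4 * (D * Ms f) / n) := by
      have h1 : QQ f P = P * (P⁻¹ * QQ f P) := by field_simp
      rw [h1]
      apply mul_le_mul_of_nonneg_left _ hP0.le
      refine hQ.trans ?_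
      gcongr
    have h3 : t ^ 2 * θ ^ 2 / (4 * c) * QQ f P ≤ t * θ * Ms f / 4 := by
      calc t ^ 2 * θ ^ 2 / (4 * c) * QQ f P ≤
            t ^ 2 * θ ^ 2 / (4 * c) * (P * (4 * (D * Ms f) / n)) :=
            mul_le_mul_of_nonneg_left hQ2 (by positivity)
        _ = t * θ * Ms f / 4 := by
            rw [ht]
            field_simp
            try ring
    have h4 : C / R * Ms f ≤ 4 * C / P * Ms f := by
      apply mul_le_mul_of_nonneg_right _ hMs
      rw [div_le_div_iff₀ (by linarith) hP0]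
      nlinarith
    have h5 : t * θ = c * n / (4 * D) / P := by
      rw [ht]
      field_simp
    have h6 : (4 * C + 1) / P * Ms f ≤ 3 / 4 * (t * θ) * Ms f := by
      apply mul_le_mul_of_nonneg_right _ hMs
      rw [h5, ← mul_div_assoc]
      apply div_le_div_of_nonneg_right _ hP0.le
      rw [← mul_div_assoc, le_div_iff₀ (by positivity)]
      nlinarith
    have h7 : min 1 (((2 : ℝ) ^ (k₀ + n))⁻¹) ≤ 1 / P := by
      refine (min_le_right _ _).trans ?_
      rw [one_div]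
      apply inv_anti₀ hP0
      rw [hP]
      exact pow_le_pow_right₀ (by norm_num) (by omega)
    have h8 : min 1 (((2 : ℝ) ^ (k₀ + n))⁻¹) * Ms f ≤ 1 / P * Ms f :=
      mul_le_mul_of_nonneg_right h7 hMs
    have h9 : (4 * C + 1) / P * Ms f = 4 * C / P * Ms f + 1 / P * Ms f := by ring
    nlinarith

end Pool.Agent.Helper26.Tf
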