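import Pool.Agent.Helper26.Tf.Var2

set_option autoImplicit false
set_option linter.unusedVariables false

namespace Pool.Agent.Helper26.Tf

open MeasureTheory Filter Topology Set Pool.Agent.TFDW
open scoped ENNReal NNReal ContDiff

variable {f : E3 → ℝ} {g : E3 → E3}

/-- inner bump -/
noncomputable def b1 (ρ : ℝ) : E3 → ℝ := bp (11 * ρ / 32) (8 * ρ / 32) (ρ / 32)
/-- outer bump -/
noncomputable def b2 (ρ : ℝ) : E3 → ℝ := bp (27 * ρ / 32) (20 * ρ / 32) (ρ / 32)

/-- The key inequality obtained from the first variation. -/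
lemma var_key (h : H1 f g) {F : ℝ → ℝ} (hF : Antitone F) (hF0 : ∀ r, 0 ≤ F r)
    (hf : f = fun x => F ‖x‖) {A z : ℝ} (hA : 0 < A) (hz : 0 ≤ z)
    (hmin : ∀ u v, H1 u v → Ms u ≤ Ms f → GG A z f g ≤ GG A z u v)
    {ρ : ℝ} (hρ0 : 0 < ρ) (hρ : ∀ s, 0 ≤ s → s < ρ → 3 / 4 ≤ F s) (hM : Ms f ≤ 18 * vol ρ)
    (hzρ : 128 * z ≤ 5 * ρ ^ 3) {L : ℝ}
    (hL : ∀ R w : ℝ, 0 < w → ∀ x, ‖fderiv ℝ (ct R w) x‖ ≤ L / w) {τ : ℝ} (hτ : 0 < τ) :
    vB * ρ ^ 5 / 320 ≤ A * (τ * Tk g + τ⁻¹ * (532480 * L ^ 2 * vB * ρ)) := by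
  have hpi := Real.pi_gt_three
  have hB := vB_pos
  have hw : 0 < ρ / 32 := by positivity
  have hH1 : H1 (b1 ρ) _ := bp_H1 (b := 11 * ρ / 32) (a := 8 * ρ / 32) (w := ρ / 32)
    (by positivity) (by positivity) hw
  have hH2 : H1 (b2 ρ) _ := bp_H1 (b := 27 * ρ / 32) (a := 20 * ρ / 32) (w := ρ / 32)
    (by positivity) (by positivity) hw
  set w1 : E3 → E3 := fun x => gradient (ct (11 * ρ / 32) (ρ / 32)) x +
    (-1 : ℝ) • gradient (ct (8 * ρ / 32) (ρ / 32)) x with hw1
  set w2 : E3 → E3 := fun x => gradient (ct (27 * ρ / 32) (ρ / 32)) x +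
    (-1 : ℝ) • gradient (ct (20 * ρ / 32) (ρ / 32)) x with hw2
  have hfx : ∀ x, f x = F ‖x‖ := fun x => by rw [hf]
  have hCm := height h hF hF0 hf hρ0 hM
  have hf34 : ∀ x, ρ / 4 ≤ ‖x‖ → f x ≤ 34 := fun x hx => by
    rw [hfx]
    exact (hF hx).trans hCm
  have hf0 : ∀ x, 0 ≤ f x := fun x => by rw [hfx]; exact hF0 _
  -- kinetic energies of bumps
  have hvol : vol ρ = vB * ρ ^ 3 := rfl
  have hT1 : Tk w1 ≤ 4096 * L ^ 2 * vB * ρ := by
    have := bp_T hL (b := 11 * ρ / 32) (a := 8 * ρ / 32) (w := ρ / 32) (s := ρ)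
      (by positivity) (by positivity) hw (by linarith) (by linarith)
    refine this.trans (le_of_eq ?_)
    rw [hvol]
    field_simp
    ring
  have hT2 : Tk w2 ≤ 4096 * L ^ 2 * vB * ρ := by
    have := bp_T hL (b := 27 * ρ / 32) (a := 20 * ρ / 32) (w := ρ / 32) (s := ρ)
      (by positivity) (by positivity) hw (by linarith) (by linarith)
    refine this.trans (le_of_eq ?_)
    rw [hvol]
    field_simp
    ring
  -- the masses
  set N₁ := ∫ x, f x * b1 ρ x with hN1
  set N₂ := ∫ x, f x * b2 ρ x with hN2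
  have hN1l : vB * ρ ^ 3 / 80 ≤ N₁ := by
    have := bp_lower h hF0 hf hρ (b := 11 * ρ / 32) (a := 8 * ρ / 32) (w := ρ / 32)
      (by positivity) hw (by linarith) (by linarith)
    refine le_trans ?_ this
    unfold vol
    have : 0 < vB * ρ ^ 3 := by positivity
    nlinarith
  have hN1u : N₁ ≤ 9 / 5 * (vB * ρ ^ 3) := by
    have := bp_upper h (b := 11 * ρ / 32) (a := 8 * ρ / 32) (w := ρ / 32) (Cm := 34)
      (by positivity) hw (by linarith) (by norm_num) (fun x hx => hf34 x (by linarith))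
    refine this.trans ?_
    unfold vol
    have : 0 < vB * ρ ^ 3 := by positivity
    nlinarith
  have hN2l : 9 / 40 * (vB * ρ ^ 3) ≤ N₂ := by
    have := bp_lower h hF0 hf hρ (b := 27 * ρ / 32) (a := 20 * ρ / 32) (w := ρ / 32)
      (by positivity) hw (by linarith) (by linarith)
    refine le_trans ?_ this
    unfold vol
    have : 0 < vB * ρ ^ 3 := by positivity
    nlinarith
  have hv3 : 0 < vB * ρ ^ 3 := by positivity
  have hN1p : 0 < N₁ := lt_of_lt_of_le (by positivity) hN1l
  have hN2p : 0 < N₂ := lt_of_lt_of_le (by positivity) hN2l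
  have hβ₀ : N₁ / N₂ ≤ 8 := by
    rw [div_le_iff₀ hN2p]
    linarith
  -- reference points
  obtain ⟨e, he⟩ : ∃ e : E3, ‖e‖ = 1 := ⟨EuclideanSpace.single 0 1, by simp⟩
  set x₁ : E3 := (3 * ρ / 8) • e with hx1
  set x₂ : E3 := (5 * ρ / 8) • e with hx2
  have hx1n : ‖x₁‖ = 3 * ρ / 8 := by
    rw [hx1, norm_smul, he, mul_one, Real.norm_of_nonneg (by positivity)]
  have hx2n : ‖x₂‖ = 5 * ρ / 8 := by
    rw [hx2, norm_smul, he, mul_one, Real.norm_of_nonneg (by positivity)]
  have hP1 : ∀ x : E3, ‖x‖ ≤ 3 * ρ / 8 → Ph f x₁ ≤ Ph f x := by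
    intro x hx
    have := pot_diff h hF hF0 hf (c := 0) (s := 3 * ρ / 8) le_rfl (sq_nonneg _)
      (x := x) (x' := x₁) (by rw [hx1n]; exact hx) (by rw [hx1n])
    linarith
  have hP2 : ∀ x : E3, 5 * ρ / 8 ≤ ‖x‖ → Ph f x ≤ Ph f x₂ := by
    intro x hx
    have := pot_diff h hF hF0 hf (c := 0) (s := ‖x‖) le_rfl (sq_nonneg _)
      (x := x₂) (x' := x) (by rw [hx2n]; exact hx) le_rfl
    linarith
  have hP12 : Ph f x₂ + 3 * ρ ^ 2 / 32 * Real.pi ≤ Ph f x₁ := by
    have h34 := hρ (5 * ρ / 8) (by positivity) (by linarith)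
    have := pot_diff h hF hF0 hf (c := 9 / 16) (s := 5 * ρ / 8) (by norm_num) (by nlinarith)
      (x := x₁) (x' := x₂) (by rw [hx1n, hx2n]; linarith) (by rw [hx2n])
    rw [hx1n, hx2n] at this
    refine le_trans (le_of_eq ?_) this
    ring
  set j₀ := jj (F (ρ / 2)) with hj0
  have hF2 : 3 / 4 ≤ F (ρ / 2) := hρ _ (by positivity) (by linarith)
  set m₁ := j₀ + 2 * Ph f x₁ - 2 * dl A - 8 * z / ρ with hm1
  set m₂ := j₀ + 2 * Ph f x₂ - 2 * dl A with hm2
  have hm12 : ρ ^ 2 / 4 ≤ m₁ - m₂ := by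
    have h1 : 8 * z / ρ ≤ 5 / 16 * ρ ^ 2 := by
      rw [div_le_iff₀ hρ0]
      nlinarith
    have h2 : 3 * ρ ^ 2 / 32 * 3 ≤ 3 * ρ ^ 2 / 32 * Real.pi :=
      mul_le_mul_of_nonneg_left hpi.le (by positivity)
    rw [hm1, hm2]
    nlinarith
  -- the main inequality for a given β
  have main : ∀ β : ℝ, 0 ≤ β → β * N₂ < N₁ → m₁ * N₁ - m₂ * (β * N₂) ≤
      A * (τ * Tk g + τ⁻¹ * (2 * (Tk w1 + β ^ 2 * Tk w2))) := by
    intro β hβ hβN
    have hneg1 : H1 (fun x => -b1 ρ x) (fun x => -w1 x) := by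
      have := hH1.lin hH1 (-2)
      have e1 : (fun x => b1 ρ x + (-2) * b1 ρ x) = fun x => -b1 ρ x := by
        funext x
        ring
      have e2 : (fun x => w1 x + (-2 : ℝ) • w1 x) = fun x => -w1 x := by
        funext x
        rw [neg_smul, two_smul]
        abel
      rw [e1, e2] at this
      exact this
    have hη := hneg1.lin hH2 β
    set η : E3 → ℝ := fun x => -b1 ρ x + β * b2 ρ x with hηdef
    set wη : E3 → E3 := fun x => -w1 x + β • w2 x with hwη
    have hab1 : 8 * ρ / 32 + ρ / 32 ≤ 11 * ρ / 32 := by linarith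
    have hab2 : 20 * ρ / 32 + ρ / 32 ≤ 27 * ρ / 32 := by linarith
    have z1in : ∀ x : E3, ‖x‖ ≤ 8 * ρ / 32 → b1 ρ x = 0 := fun x hx => bp_zero_in hw hab1 hx
    have z1out : ∀ x : E3, 12 * ρ / 32 ≤ ‖x‖ → b1 ρ x = 0 := fun x hx =>
      bp_zero_out hw hab1 (by linarith)
    have z2in : ∀ x : E3, ‖x‖ ≤ 20 * ρ / 32 → b2 ρ x = 0 := fun x hx => bp_zero_in hw hab2 hx
    have z2out : ∀ x : E3, 28 * ρ / 32 ≤ ‖x‖ → b2 ρ x = 0 := fun x hx =>
      bp_zero_out hw hab2 (by linarith)
    have p1 : ∀ x, 0 ≤ b1 ρ x := fun x => bp_nonneg hw hab1 x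
    have p2 : ∀ x, 0 ≤ b2 ρ x := fun x => bp_nonneg hw hab2 x
    have q1 : ∀ x, b1 ρ x ≤ 1 := fun x => bp_le_one _ _ _ x
    have q2 : ∀ x, b2 ρ x ≤ 1 := fun x => bp_le_one _ _ _ x
    have hbound : ∀ x, |η x| ≤ 1 + β := by
      intro x
      show |-b1 ρ x + β * b2 ρ x| ≤ 1 + β
      refine (abs_add_le _ _).trans ?_
      rw [abs_neg, abs_of_nonneg (p1 x), abs_mul, abs_of_nonneg hβ, abs_of_nonneg (p2 x)]
      have := mul_le_mul_of_nonneg_left (q2 x) hβ
      linarith [q1 x]
    have hrange : ∀ x, η x ≠ 0 → 3 / 4 ≤ f x ∧ f x ≤ 34 := by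
      intro x hx
      have h1 : ρ / 4 ≤ ‖x‖ := by
        by_contra hc
        push Not at hc
        apply hx
        show -b1 ρ x + β * b2 ρ x = 0
        rw [z1in x (by linarith), z2in x (by linarith)]
        ring
      have h2 : ‖x‖ < ρ := by
        by_contra hc
        push Not at hc
        apply hx
        show -b1 ρ x + β * b2 ρ x = 0
        rw [z1out x (by linarith), z2out x (by linarith)]
        ring
      refine ⟨?_, hf34 x h1⟩
      rw [hfx]
      exact hρ _ (norm_nonneg x) h2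
    have hηint : Integrable η volume := by
      have i1 : Integrable (b1 ρ) volume :=
        (ct_int (by positivity) hw).sub (ct_int (by positivity) hw)
      have i2 : Integrable (b2 ρ) volume :=
        (ct_int (by positivity) hw).sub (ct_int (by positivity) hw)
      exact i1.neg.add (i2.const_mul β)
    have hfη : ∫ x, f x * η x = -N₁ + β * N₂ := by
      have i1 := fk_int h hH1
      have i2 := fk_int h hH2
      have e1 : ∀ x, f x * η x = -(f x * b1 ρ x) + β * (f x * b2 ρ x) := by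
        intro x
        show f x * (-b1 ρ x + β * b2 ρ x) = _
        ring
      have i3 : Integrable (fun x => -(f x * b1 ρ x)) volume := i1.neg
      simp only [e1]
      rw [integral_add i3 (i2.const_mul β), integral_neg, integral_const_mul]
    have hfv := first_var h hη hmin (B := 1 + β) (Cm := 34) (by positivity) hbound hrange hηint
      (by rw [hfη]; linarith)
    -- kinetic part
    have hkin : 2 * ∫ x, inner ℝ (g x) (wη x) ≤ τ * Tk g + τ⁻¹ * (2 * (Tk w1 + β ^ 2 * Tk w2)) := by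
      have h1 : 2 * ∫ x, inner ℝ (g x) (wη x) ≤ τ * Tk g + τ⁻¹ * Tk wη := by
        have e1 : τ * Tk g + τ⁻¹ * Tk wη = ∫ x, (τ * ‖g x‖ ^ 2 + τ⁻¹ * ‖wη x‖ ^ 2) := by
          rw [integral_add (h.gsq_int.const_mul _) (hη.gsq_int.const_mul _), integral_const_mul,
            integral_const_mul]
          rfl
        rw [e1, ← integral_const_mul]
        apply integral_mono ((inner_int h.g2 hη.g2).const_mul 2)
          ((h.gsq_int.const_mul _).add (hη.gsq_int.const_mul _))
        intro x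
        show 2 * inner ℝ (g x) (wη x) ≤ τ * ‖g x‖ ^ 2 + τ⁻¹ * ‖wη x‖ ^ 2
        have h2 : inner ℝ (g x) (wη x) ≤ ‖g x‖ * ‖wη x‖ := real_inner_le_norm _ _
        have h3 : 0 ≤ (τ * ‖g x‖ - ‖wη x‖) ^ 2 / τ := by positivity
        have h4 : (τ * ‖g x‖ - ‖wη x‖) ^ 2 / τ = τ * ‖g x‖ ^ 2 + τ⁻¹ * ‖wη x‖ ^ 2 -
            2 * (‖g x‖ * ‖wη x‖) := by
          field_simp
          ring
        linarith
      have h2 : Tk wη ≤ 2 * (Tk w1 + β ^ 2 * Tk w2) := by
        have h3 := Tk_lin_le hneg1 hH2 β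
        have h4 : Tk (fun x => -w1 x) = Tk w1 := by
          unfold Tk
          simp only [norm_neg]
        rw [h4] at h3
        exact h3
      have h5 := mul_le_mul_of_nonneg_left h2 (inv_pos.2 hτ).le
      linarith
    have hkinA := mul_le_mul_of_nonneg_left hkin hA.le
    -- potential part
    have j1 := (Ws_deriv h hη (B := 1 + β) (Cm := 34) (by positivity) hbound hrange hηint).1
    have j2 := fk_int h hη
    have j4 := fkp_int h hη
    have j3 : Integrable (fun x => f x * η x * Ph f x) volume := by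
      obtain ⟨K, _, hK⟩ := pot_bd
      have hPm : AEStronglyMeasurable (fun x => Ph f x) (volume : Measure E3) := by
        have hm : Measurable (Function.uncurry fun x y : E3 => f y ^ 2 / ‖y - x‖) := by
          have h1 : Measurable fun p : E3 × E3 => f p.2 := h.fm.comp measurable_snd
          have h3 : Measurable fun p : E3 × E3 => ‖p.2 - p.1‖ :=
            (continuous_snd.sub continuous_fst).norm.measurable
          exact (h1.pow_const 2).div h3
        exact (hm.stronglyMeasurable.integral_prod_right (ν := (volume : Measure E3))).aestronglyMeasurable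
      refine Integrable.mono' (j2.abs.mul_const (K * 1 * Tk g + Ms f / 1))
        (j2.1.mul hPm) ?_
      filter_upwards with x
      rw [norm_mul, Real.norm_of_nonneg (Ph_nonneg f x), Real.norm_eq_abs]
      exact mul_le_mul_of_nonneg_left ((hK f g h x).2 1 one_pos) (abs_nonneg _)
    have hsum : (∫ x, η x * (f x * jj (f x))) + 2 * (∫ x, f x * η x * Ph f x) -
        dl A * (2 * ∫ x, f x * η x) - z * (2 * ∫ x, f x * η x / ‖x - 0‖) =
        ∫ x, (η x * (f x * jj (f x)) + 2 * (f x * η x * Ph f x) - 2 * dl A * (f x * η x) -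
          2 * z * (f x * η x / ‖x - 0‖)) := by
      have a1 : Integrable (fun x => η x * (f x * jj (f x)) + 2 * (f x * η x * Ph f x)) volume :=
        j1.add (j3.const_mul 2)
      have a2 : Integrable (fun x => η x * (f x * jj (f x)) + 2 * (f x * η x * Ph f x) -
        2 * dl A * (f x * η x)) volume := a1.sub (j2.const_mul _)
      rw [integral_sub a2 (j4.const_mul _), integral_sub a1 (j2.const_mul _),
        integral_add j1 (j3.const_mul 2), integral_const_mul, integral_const_mul,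
        integral_const_mul]
      ring
    have hup : ∫ x, (η x * (f x * jj (f x)) + 2 * (f x * η x * Ph f x) - 2 * dl A * (f x * η x) -
          2 * z * (f x * η x / ‖x - 0‖)) ≤ -(m₁ * N₁) + m₂ * (β * N₂) := by
      have i1 := fk_int h hH1
      have i2 := fk_int h hH2
      have i3 : Integrable (fun x => -(m₁ * (f x * b1 ρ x))) volume := (i1.const_mul m₁).neg
      have e1 : -(m₁ * N₁) + m₂ * (β * N₂) =
          ∫ x, (-(m₁ * (f x * b1 ρ x)) + m₂ * β * (f x * b2 ρ x)) := by
        rw [integral_add i3 (i2.const_mul _), integral_neg,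
          integral_const_mul, integral_const_mul]
        ring
      rw [e1]
      apply integral_mono (((j1.add (j3.const_mul 2)).sub (j2.const_mul _)).sub (j4.const_mul _))
        ((i1.const_mul m₁).neg.add (i2.const_mul _))
      intro x
      show η x * (f x * jj (f x)) + 2 * (f x * η x * Ph f x) - 2 * dl A * (f x * η x) -
          2 * z * (f x * η x / ‖x - 0‖) ≤ -(m₁ * (f x * b1 ρ x)) + m₂ * β * (f x * b2 ρ x)
      have efac : η x * (f x * jj (f x)) + 2 * (f x * η x * Ph f x) - 2 * dl A * (f x * η x) -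
          2 * z * (f x * η x / ‖x - 0‖) =
          (f x * η x) * (jj (f x) + 2 * Ph f x - 2 * dl A - 2 * z / ‖x - 0‖) := by ring
      rw [efac, sub_zero]
      rcases le_or_gt ‖x‖ (8 * ρ / 32) with hc1 | hc1
      · have : η x = 0 := by
          show -b1 ρ x + β * b2 ρ x = 0
          rw [z1in x hc1, z2in x (by linarith)]
          ring
        rw [this, z1in x hc1, z2in x (by linarith)]
        ring_nf
        exact le_rfl
      · rcases le_or_gt ‖x‖ (ρ / 2) with hc2 | hc2
        · have hb2 : b2 ρ x = 0 := z2in x (by linarith)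
          have hηx : η x = -b1 ρ x := by
            show -b1 ρ x + β * b2 ρ x = _
            rw [hb2]
            ring
          rw [hb2, hηx]
          rcases le_or_gt (12 * ρ / 32) ‖x‖ with hc3 | hc3
          · rw [z1out x hc3]
            ring_nf
            exact le_rfl
          · have hj : j₀ ≤ jj (f x) := by
              rw [hfx]
              exact jj_mono hF2 (hF hc2)
            have hPx := hP1 x (by linarith)
            have hzx : 2 * z / ‖x‖ ≤ 8 * z / ρ := by
              rw [div_le_div_iff₀ (by linarith) hρ0]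
              nlinarith
            have hm : m₁ ≤ jj (f x) + 2 * Ph f x - 2 * dl A - 2 * z / ‖x‖ := by
              rw [hm1]
              linarith
            have hfb : 0 ≤ f x * b1 ρ x := mul_nonneg (hf0 x) (p1 x)
            have := mul_le_mul_of_nonneg_left hm hfb
            linarith
        · have hb1 : b1 ρ x = 0 := z1out x (by linarith)
          have hηx : η x = β * b2 ρ x := by
            show -b1 ρ x + β * b2 ρ x = _
            rw [hb1]
            ring
          rw [hb1, hηx]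
          rcases le_or_gt ‖x‖ (20 * ρ / 32) with hc3 | hc3
          · rw [z2in x hc3]
            ring_nf
            exact le_rfl
          · rcases le_or_gt ρ ‖x‖ with hc4 | hc4
            · rw [z2out x (by linarith)]
              ring_nf
              exact le_rfl
            · have hj : jj (f x) ≤ j₀ := by
                rw [hfx]
                exact jj_mono (hρ _ (norm_nonneg x) hc4) (hF hc2.le)
              have hPx := hP2 x (by linarith)
              have hzx : 0 ≤ 2 * z / ‖x‖ := by positivity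
              have hm : jj (f x) + 2 * Ph f x - 2 * dl A - 2 * z / ‖x‖ ≤ m₂ := by
                rw [hm2]
                linarith
              have hfb : 0 ≤ f x * (β * b2 ρ x) :=
                mul_nonneg (hf0 x) (mul_nonneg hβ (p2 x))
              have := mul_le_mul_of_nonneg_left hm hfb
              linarith
    linarith
  -- choose β close to the critical value
  set Y := A * (τ * Tk g + τ⁻¹ * (532480 * L ^ 2 * vB * ρ)) with hY
  have step : ∀ ε : ℝ, 0 < ε → ε ≤ N₁ → (m₁ - m₂) * N₁ + m₂ * ε ≤ Y := by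
    intro ε hε hεN
    have hβ0 : 0 ≤ (N₁ - ε) / N₂ := div_nonneg (by linarith) hN2p.le
    have hβN : (N₁ - ε) / N₂ * N₂ = N₁ - ε := by field_simp
    have h1 := main ((N₁ - ε) / N₂) hβ0 (by rw [hβN]; linarith)
    rw [hβN] at h1
    have hβ8 : (N₁ - ε) / N₂ ≤ 8 := by
      refine le_trans (div_le_div_of_nonneg_right (by linarith) hN2p.le) hβ₀
    have hβ64 : ((N₁ - ε) / N₂) ^ 2 ≤ 64 := by nlinarith
    have hTw : 2 * (Tk w1 + ((N₁ - ε) / N₂) ^ 2 * Tk w2) ≤ 532480 * L ^ 2 * vB * ρ := by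
      have h2 : ((N₁ - ε) / N₂) ^ 2 * Tk w2 ≤ 64 * (4096 * L ^ 2 * vB * ρ) :=
        mul_le_mul hβ64 hT2 (Tk_nonneg _) (by norm_num)
      linarith
    have h3 : A * (τ * Tk g + τ⁻¹ * (2 * (Tk w1 + ((N₁ - ε) / N₂) ^ 2 * Tk w2))) ≤ Y := by
      apply mul_le_mul_of_nonneg_left _ hA.le
      have := mul_le_mul_of_nonneg_left hTw (inv_pos.2 hτ).le
      linarith
    linarith
  have hfinal : (m₁ - m₂) * N₁ ≤ Y := by
    by_contra hc
    push Not at hc
    set d := (m₁ - m₂) * N₁ - Y with hd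
    have hd0 : 0 < d := by linarith
    have h1 := step (min N₁ (d / (2 * (|m₂| + 1)))) (lt_min hN1p (by positivity)) (min_le_left _ _)
    have h2 : |m₂| * min N₁ (d / (2 * (|m₂| + 1))) ≤ d / 2 := by
      calc |m₂| * min N₁ (d / (2 * (|m₂| + 1))) ≤ |m₂| * (d / (2 * (|m₂| + 1))) :=
            mul_le_mul_of_nonneg_left (min_le_right _ _) (abs_nonneg _)
        _ = d / 2 * (|m₂| / (|m₂| + 1)) := by field_simp
        _ ≤ d / 2 * 1 := by
            apply mul_le_mul_of_nonneg_left _ (by positivity)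
            rw [div_le_one (by positivity)]
            linarith
        _ = d / 2 := mul_one _
    have h3 : -(|m₂| * min N₁ (d / (2 * (|m₂| + 1)))) ≤ m₂ * min N₁ (d / (2 * (|m₂| + 1))) := by
      have hpos : 0 ≤ min N₁ (d / (2 * (|m₂| + 1))) := le_min hN1p.le (by positivity)
      have := mul_le_mul_of_nonneg_right (neg_abs_le m₂) hpos
      linarith
    linarith
  have h1 : ρ ^ 2 / 4 * (vB * ρ ^ 3 / 80) ≤ (m₁ - m₂) * N₁ :=
    mul_le_mul hm12 hN1l (by positivity) (le_trans (by positivity) hm12)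
  have e5 : ρ ^ 2 / 4 * (vB * ρ ^ 3 / 80) = vB * ρ ^ 5 / 320 := by ring
  linarith

end Pool.Agent.Helper26.Tf
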