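import Pool.Agent.Helper26.Tf.Basic

set_option autoImplicit false
set_option linter.unusedVariables false

namespace Pool.Agent.Helper26.Tf

open MeasureTheory Filter Topology Set Pool.Agent.TFDW
open scoped ENNReal NNReal ContDiff

variable {f : E3 → ℝ} {g : E3 → E3}

/-- the smooth cutoff, equal to one on the ball of radius `R`, vanishing off the ball of radius
`R + w` -/
noncomputable def ct (R w : ℝ) (x : E3) : ℝ := Real.smoothTransition ((R + w - ‖x‖) / w)

lemma ct_nonneg (R w : ℝ) (x : E3) : 0 ≤ ct R w x := Real.smoothTransition.nonneg _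
lemma ct_le_one (R w : ℝ) (x : E3) : ct R w x ≤ 1 := Real.smoothTransition.le_one _

lemma ct_one {R w : ℝ} (hw : 0 < w) {x : E3} (hx : ‖x‖ ≤ R) : ct R w x = 1 := by
  apply Real.smoothTransition.one_of_one_le
  rw [le_div_iff₀ hw]
  linarith

lemma ct_zero {R w : ℝ} (hw : 0 < w) {x : E3} (hx : R + w ≤ ‖x‖) : ct R w x = 0 := by
  apply Real.smoothTransition.zero_of_nonpos
  apply div_nonpos_of_nonpos_of_nonneg _ hw.le
  linarith

lemma ct_neg (R w : ℝ) (x : E3) : ct R w (-x) = ct R w x := by
  unfold ct
  rw [norm_neg]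

lemma ct_smooth {R w : ℝ} (hR : 0 < R) (hw : 0 < w) : ContDiff ℝ ∞ (ct R w) := by
  rw [contDiff_iff_contDiffAt]
  intro x
  by_cases hx : x = 0
  · have h1 : ct R w =ᶠ[𝓝 x] fun _ => 1 := by
      have : Metric.ball x R ∈ 𝓝 x := Metric.ball_mem_nhds x hR
      filter_upwards [this] with y hy
      apply ct_one hw
      rw [hx] at hy
      have : ‖y‖ < R := by simpa using hy
      exact this.le
    exact contDiffAt_const.congr_of_eventuallyEq h1
  · have h1 : ContDiffAt ℝ ∞ (fun y : E3 => (R + w - ‖y‖) / w) x :=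
      (contDiffAt_const.sub (contDiffAt_norm ℝ hx)).div_const w
    exact Real.smoothTransition.contDiff.contDiffAt.comp x h1

lemma st_bound : ∃ L : ℝ≥0, 0 < L ∧ LipschitzWith L Real.smoothTransition := by
  have h1 : ContDiff ℝ 1 Real.smoothTransition := Real.smoothTransition.contDiff
  have h2 : Continuous (deriv Real.smoothTransition) := h1.continuous_deriv le_rfl
  have h3 : HasCompactSupport (deriv Real.smoothTransition) := by
    apply HasCompactSupport.intro (K := Icc 0 1) isCompact_Icc
    intro x hx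
    rw [mem_Icc, not_and_or] at hx
    push Not at hx
    rcases hx with hx | hx
    · have : Real.smoothTransition =ᶠ[𝓝 x] fun _ => 0 := by
        filter_upwards [Iio_mem_nhds hx] with y hy
        exact Real.smoothTransition.zero_of_nonpos (le_of_lt hy)
      rw [this.deriv_eq, deriv_const]
    · have : Real.smoothTransition =ᶠ[𝓝 x] fun _ => 1 := by
        filter_upwards [Ioi_mem_nhds hx] with y hy
        exact Real.smoothTransition.one_of_one_le (le_of_lt hy)
      rw [this.deriv_eq, deriv_const]
  obtain ⟨C, hC⟩ := h3.exists_bound_of_continuous h2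
  have hC0 : 0 ≤ C := le_trans (norm_nonneg _) (hC 0)
  refine ⟨⟨C + 1, by linarith⟩, ?_, ?_⟩
  · show (0 : ℝ) < C + 1
    linarith
  · apply lipschitzWith_of_nnnorm_deriv_le (h1.differentiable one_ne_zero)
    intro x
    show ‖deriv Real.smoothTransition x‖ ≤ C + 1
    have := hC x
    linarith

lemma ct_lip : ∃ L : ℝ, 0 < L ∧ ∀ R w : ℝ, 0 < w → ∀ x, ‖fderiv ℝ (ct R w) x‖ ≤ L / w := by
  obtain ⟨L, hL, hl⟩ := st_bound
  refine ⟨L, hL, ?_⟩
  intro R w hw x
  have h1 : LipschitzWith (L * ⟨w⁻¹, by positivity⟩) (ct R w) := by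
    apply hl.comp
    apply LipschitzWith.of_dist_le_mul
    intro y z
    rw [Real.dist_eq, dist_eq_norm]
    show |(R + w - ‖y‖) / w - (R + w - ‖z‖) / w| ≤ w⁻¹ * ‖y - z‖
    have h2 : (R + w - ‖y‖) / w - (R + w - ‖z‖) / w = w⁻¹ * (‖z‖ - ‖y‖) := by
      field_simp
      ring
    rw [h2, abs_mul, abs_of_pos (inv_pos.2 hw)]
    apply mul_le_mul_of_nonneg_left _ (by positivity)
    rw [abs_sub_comm]
    exact abs_norm_sub_norm_le y z
  have h3 := norm_fderiv_le_of_lipschitz ℝ h1 (x₀ := x)
  refine h3.trans (le_of_eq ?_)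
  show (L : ℝ) * w⁻¹ = L / w
  rw [div_eq_mul_inv]

lemma ct_fderiv_in {R w : ℝ} (hw : 0 < w) {x : E3} (hx : ‖x‖ < R) : fderiv ℝ (ct R w) x = 0 := by
  have h1 : ct R w =ᶠ[𝓝 x] fun _ => 1 := by
    have h2 : {y : E3 | ‖y‖ < R} ∈ 𝓝 x :=
      (isOpen_lt continuous_norm continuous_const).mem_nhds hx
    filter_upwards [h2] with y hy
    exact ct_one hw (le_of_lt hy)
  rw [h1.fderiv_eq]
  exact fderiv_const_apply _

lemma ct_fderiv_out {R w : ℝ} (hw : 0 < w) {x : E3} (hx : R + w < ‖x‖) :
    fderiv ℝ (ct R w) x = 0 := by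
  have h1 : ct R w =ᶠ[𝓝 x] fun _ => 0 := by
    have h2 : {y : E3 | R + w < ‖y‖} ∈ 𝓝 x :=
      (isOpen_lt continuous_const continuous_norm).mem_nhds hx
    filter_upwards [h2] with y hy
    exact ct_zero hw (le_of_lt hy)
  rw [h1.fderiv_eq]
  exact fderiv_const_apply _

lemma ct_supp {R w : ℝ} (hw : 0 < w) : HasCompactSupport (ct R w) := by
  apply HasCompactSupport.intro (K := Metric.closedBall 0 (R + w)) (isCompact_closedBall _ _)
  intro x hx
  apply ct_zero hw
  have : R + w < ‖x‖ := by simpa using hx
  exact this.le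

/-- the annulus -/
def ann (R w : ℝ) : Set E3 := {x | R ≤ ‖x‖ ∧ ‖x‖ ≤ R + w}

lemma ann_meas (R w : ℝ) : MeasurableSet (ann R w) :=
  (measurableSet_le measurable_const measurable_norm).inter
    (measurableSet_le measurable_norm measurable_const)

lemma ct_fderiv_ann {L : ℝ} (hL : ∀ R w : ℝ, 0 < w → ∀ x, ‖fderiv ℝ (ct R w) x‖ ≤ L / w)
    {R w : ℝ} (hw : 0 < w) (x : E3) :
    ‖fderiv ℝ (ct R w) x‖ ≤ (ann R w).indicator (fun _ => L / w) x := by
  by_cases hx : x ∈ ann R w
  · rw [indicator_of_mem hx]
    exact hL R w hw x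
  · rw [indicator_of_notMem hx]
    have : ‖x‖ < R ∨ R + w < ‖x‖ := by
      by_contra hc
      push Not at hc
      exact hx hc
    rcases this with h | h
    · rw [ct_fderiv_in hw h, norm_zero]
    · rw [ct_fderiv_out hw h, norm_zero]

lemma norm_gradient' (φ : E3 → ℝ) (x : E3) : ‖gradient φ x‖ = ‖fderiv ℝ φ x‖ := by
  unfold gradient
  exact LinearIsometryEquiv.norm_map _ _

lemma inner_gradient' (φ : E3 → ℝ) (x v : E3) : inner ℝ (gradient φ x) v = fderiv ℝ φ x v := by
  unfold gradient
  exact InnerProductSpace.toDual_symm_apply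

lemma gradient_cont {φ : E3 → ℝ} (hφ : ContDiff ℝ ∞ φ) : Continuous (gradient φ) :=
  (InnerProductSpace.toDual ℝ E3).symm.continuous.comp (hφ.continuous_fderiv (by simp))

/-- The product of a Sobolev function and a smooth function. -/
lemma H1.mul (h : H1 f g) {χ : E3 → ℝ} (hχ : ContDiff ℝ ∞ χ) {B C : ℝ} (hB : ∀ x, |χ x| ≤ B)
    (hC : ∀ x, ‖fderiv ℝ χ x‖ ≤ C) :
    H1 (fun x => χ x * f x) (fun x => χ x • g x + f x • gradient χ x) := by
  have hχm : Measurable χ := hχ.continuous.measurable
  have hgm : Measurable (gradient χ) := (gradient_cont hχ).measurable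
  refine ⟨hχm.mul h.fm, (hχm.smul h.gm).add (h.fm.smul hgm), ?_, ?_, ?_⟩
  · refine MemLp.of_le_mul (c := B) h.f2 (hχm.mul h.fm).aestronglyMeasurable ?_
    filter_upwards with x
    rw [norm_mul]
    exact mul_le_mul_of_nonneg_right (hB x) (norm_nonneg _)
  · apply MemLp.add
    · refine MemLp.of_le_mul (c := B) h.g2 (hχm.smul h.gm).aestronglyMeasurable ?_
      filter_upwards with x
      rw [norm_smul]
      exact mul_le_mul_of_nonneg_right (hB x) (norm_nonneg _)
    · refine MemLp.of_le_mul (c := C) h.f2 (h.fm.smul hgm).aestronglyMeasurable ?_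
      filter_upwards with x
      rw [norm_smul, norm_gradient', mul_comm]
      exact mul_le_mul_of_nonneg_right (hC x) (norm_nonneg _)
  · intro φ hφ hφc v
    have hfl : LocallyIntegrable f volume := h.f2.locallyIntegrable (by norm_num)
    have hgl : LocallyIntegrable g volume := h.g2.locallyIntegrable (by norm_num)
    have hφd : Continuous fun x => fderiv ℝ φ x v :=
      (hφ.continuous_fderiv (by simp)).clm_apply continuous_const
    have hχd : Continuous fun x => fderiv ℝ χ x v :=
      (hχ.continuous_fderiv (by simp)).clm_apply continuous_const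
    have h1 := h.weak (fun x => χ x * φ x) (hχ.mul hφ) hφc.mul_left v
    have h2 : ∀ x, fderiv ℝ (fun x => χ x * φ x) x v =
        χ x * fderiv ℝ φ x v + φ x * fderiv ℝ χ x v := by
      intro x
      rw [fderiv_fun_mul (hχ.differentiable (by simp) x) (hφ.differentiable (by simp) x)]
      simp
    simp only [h2] at h1
    have hφdc : HasCompactSupport fun x => fderiv ℝ φ x v := hφc.fderiv_apply (𝕜 := ℝ) v
    have i1 : Integrable (fun x => f x * (χ x * fderiv ℝ φ x v)) volume := by
      have := hfl.integrable_smul_right_of_hasCompactSupport (g := fun x => χ x * fderiv ℝ φ x v)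
        (hχ.continuous.mul hφd) hφdc.mul_left
      simpa using this
    have i2 : Integrable (fun x => f x * (φ x * fderiv ℝ χ x v)) volume := by
      have := hfl.integrable_smul_right_of_hasCompactSupport (g := fun x => φ x * fderiv ℝ χ x v)
        (hφ.continuous.mul hχd) hφc.mul_right
      simpa using this
    have i3 : Integrable (fun x => inner ℝ (g x) v * (χ x * φ x)) volume := by
      have hgv : LocallyIntegrable (fun x => inner ℝ (g x) v) volume := by
        intro y
        obtain ⟨s, hs, hi⟩ := hgl y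
        exact ⟨s, hs, hi.inner_const v⟩
      have := hgv.integrable_smul_right_of_hasCompactSupport (g := fun x => χ x * φ x)
        (hχ.continuous.mul hφ.continuous) hφc.mul_left
      simpa using this
    have e1 : ∫ x, f x * (χ x * fderiv ℝ φ x v + φ x * fderiv ℝ χ x v) =
        (∫ x, f x * (χ x * fderiv ℝ φ x v)) + ∫ x, f x * (φ x * fderiv ℝ χ x v) := by
      rw [← integral_add i1 i2]
      apply integral_congr_ae
      filter_upwards with x
      ring
    rw [e1] at h1
    have e2 : ∫ x, χ x * f x * fderiv ℝ φ x v = ∫ x, f x * (χ x * fderiv ℝ φ x v) := by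
      apply integral_congr_ae
      filter_upwards with x
      ring
    have e3 : ∫ x, inner ℝ (χ x • g x + f x • gradient χ x) v * φ x =
        (∫ x, inner ℝ (g x) v * (χ x * φ x)) + ∫ x, f x * (φ x * fderiv ℝ χ x v) := by
      rw [← integral_add i3 i2]
      apply integral_congr_ae
      filter_upwards with x
      rw [inner_add_left, real_inner_smul_left, real_inner_smul_left, inner_gradient']
      ring
    rw [e2, e3]
    linarith

/-- Smooth functions of compact support are Sobolev functions. -/
lemma H1.of_smooth {φ : E3 → ℝ} (hφ : ContDiff ℝ ∞ φ) (hc : HasCompactSupport φ) :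
    H1 φ (gradient φ) := by
  have hgc : HasCompactSupport (gradient φ) := by
    have : HasCompactSupport (fderiv ℝ φ) := hc.fderiv (𝕜 := ℝ)
    exact this.comp_left (g := fun L => (InnerProductSpace.toDual ℝ E3).symm L) (by simp)
  refine ⟨hφ.continuous.measurable, (gradient_cont hφ).measurable,
    hφ.continuous.memLp_of_hasCompactSupport hc,
    (gradient_cont hφ).memLp_of_hasCompactSupport hgc, ?_⟩
  intro ψ hψ hψc v
  have hφd : Continuous fun x => fderiv ℝ φ x v :=
    (hφ.continuous_fderiv (by simp)).clm_apply continuous_const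
  have hψd : Continuous fun x => fderiv ℝ ψ x v :=
    (hψ.continuous_fderiv (by simp)).clm_apply continuous_const
  have h1 := integral_mul_fderiv_eq_neg_fderiv_mul_of_integrable (μ := (volume : Measure E3))
    (f := φ) (g := ψ) (v := v)
    ((hφd.mul hψ.continuous).integrable_of_hasCompactSupport hψc.mul_left)
    ((hφ.continuous.mul hψd).integrable_of_hasCompactSupport hc.mul_right)
    ((hφ.continuous.mul hψ.continuous).integrable_of_hasCompactSupport hc.mul_right)
    (fun x _ => hφ.differentiable (by simp) x)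
    (fun x _ => hψ.differentiable (by simp) x)
  rw [h1]
  simp only [inner_gradient']

attribute [irreducible] ct

end Pool.Agent.Helper26.Tf
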