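import Pool.Agent.Helper26.Tf.Bind

set_option autoImplicit false
set_option linter.unusedVariables false

namespace Pool.Agent.Helper26.Tf

open MeasureTheory Filter Topology Set Pool.Agent.TFDW
open scoped ENNReal NNReal ContDiff

variable {f : E3 → ℝ} {g : E3 → E3}

lemma H1.trans (h : H1 f g) (a : E3) : H1 (fun x => f (x + a)) (fun x => g (x + a)) := by
  have hmp : MeasurePreserving (fun x : E3 => x + a) volume volume :=
    measurePreserving_add_right volume a
  refine ⟨h.fm.comp (measurable_add_const a), h.gm.comp (measurable_add_const a),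
    h.f2.comp_measurePreserving hmp, h.g2.comp_measurePreserving hmp, ?_⟩
  intro φ hφ hφc v
  have hsm : ContDiff ℝ ∞ fun x => φ (x - a) := hφ.comp (contDiff_id.sub contDiff_const)
  have hcs : HasCompactSupport fun x => φ (x - a) :=
    hφc.comp_homeomorph (Homeomorph.subRight a)
  have h1 := h.weak (fun x => φ (x - a)) hsm hcs v
  simp only [gradient_sub hφ] at h1
  have e1 := integral_add_right_eq_self (μ := (volume : Measure E3))
    (fun x => f x * fderiv ℝ φ (x - a) v) a
  have e2 := integral_add_right_eq_self (μ := (volume : Measure E3))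
    (fun x => inner ℝ (g x) v * φ (x - a)) a
  simp only [add_sub_cancel_right] at e1 e2
  rw [e1, e2]
  exact h1

lemma Ms_trans (f : E3 → ℝ) (a : E3) : Ms (fun x => f (x + a)) = Ms f :=
  integral_add_right_eq_self (μ := (volume : Measure E3)) (fun x => f x ^ 2) a

lemma Tk_trans (g : E3 → E3) (a : E3) : Tk (fun x => g (x + a)) = Tk g :=
  integral_add_right_eq_self (μ := (volume : Measure E3)) (fun x => ‖g x‖ ^ 2) a

lemma Ws_trans (f : E3 → ℝ) (a : E3) : Ws (fun x => f (x + a)) = Ws f :=
  integral_add_right_eq_self (μ := (volume : Measure E3)) (fun x => W (f x)) a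

lemma Ph_trans (f : E3 → ℝ) (a b : E3) : Ph (fun x => f (x + a)) b = Ph f (b + a) := by
  have h := integral_add_right_eq_self (μ := (volume : Measure E3))
    (fun x => f x ^ 2 / ‖x - (b + a)‖) a
  unfold Ph
  rw [← h]
  simp only [add_sub_add_right_eq_sub]

lemma Dd_trans (h : H1 f g) (a : E3) : Dd (fun x => f (x + a)) = Dd f := by
  rw [(h.trans a).Dd_eq, h.Dd_eq]
  simp only [Ph_trans]
  rw [integral_add_right_eq_self (μ := (volume : Measure E3)) (fun x => f x ^ 2 * Ph f x) a]

lemma NN_trans (h : H1 f g) (A : ℝ) (a : E3) :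
    NN A (fun x => f (x + a)) (fun x => g (x + a)) = NN A f g := by
  unfold NN
  rw [Tk_trans, Ws_trans, Dd_trans h]

/-- the infimum of the energy per unit mass -/
noncomputable def dl (A : ℝ) : ℝ :=
  sInf {t | ∃ f g, H1 f g ∧ 0 < Ms f ∧ t = NN A f g / Ms f}

lemma dl_bdd {A : ℝ} (hA : 0 ≤ A) : BddBelow {t | ∃ f g, H1 f g ∧ 0 < Ms f ∧ t = NN A f g / Ms f} :=
  ⟨0, by
    rintro t ⟨f, g, h, hm, rfl⟩
    exact div_nonneg (NN_nonneg hA f g) hm.le⟩

lemma exists_H1_pos : ∃ f g, H1 f g ∧ 0 < Ms f := by
  have h1 := H1.of_smooth (ct_smooth one_pos one_pos) (ct_supp (R := 1) one_pos)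
  refine ⟨_, _, h1, ?_⟩
  have := vc_ge one_pos
  have h2 := vol_pos one_pos
  exact lt_of_lt_of_le h2 this

lemma dl_nonempty (A : ℝ) : {t | ∃ f g, H1 f g ∧ 0 < Ms f ∧ t = NN A f g / Ms f}.Nonempty := by
  obtain ⟨f, g, h, hm⟩ := exists_H1_pos
  exact ⟨_, f, g, h, hm, rfl⟩

lemma dl_nonneg {A : ℝ} (hA : 0 ≤ A) : 0 ≤ dl A := by
  apply le_csInf (dl_nonempty A)
  rintro t ⟨f, g, h, hm, rfl⟩
  exact div_nonneg (NN_nonneg hA f g) hm.le

lemma dl_le {A : ℝ} (hA : 0 ≤ A) (h : H1 f g) : dl A * Ms f ≤ NN A f g := by
  rcases (Ms_nonneg f).eq_or_lt with h0 | h0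
  · rw [← h0, mul_zero]
    exact NN_nonneg hA f g
  · rw [← le_div_iff₀ h0]
    exact csInf_le (dl_bdd hA) ⟨f, g, h, h0, rfl⟩

/-- The nucleus binds. -/
theorem binding {A z : ℝ} (hA : 0 < A) (hz : 0 < z) (hd : dl A < 1 / 3) :
    ∃ f g, H1 f g ∧ NN A f g - dl A * Ms f - z * Ph f 0 < 0 := by
  by_contra hc
  push Not at hc
  set r : ℝ := √(3 * A / 16) with hr
  have hr0 : 0 < r := Real.sqrt_pos.2 (by positivity)
  have hr2 : 16 * r ^ 2 ≤ 3 * A := by
    rw [hr, Real.sq_sqrt (by positivity)]
    linarith
  have hv := vol_pos hr0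
  obtain ⟨ε, hε, him⟩ := improve (A := A) (δ := dl A) (θ := 1 / 3 - dl A)
    (c := z * (vol r / 128 / r)) hA.le (dl_nonneg hA.le) (by linarith) (by positivity) (by
      intro u w h
      by_cases hm : ∀ x, mb u x r ≤ vol r / 128
      · have h1 := alternative h hr0 hr2 hm
        have h2 : min ((1 / 3 - dl A) * Ms u) (z * (vol r / 128 / r)) ≤ (1 / 3 - dl A) * Ms u :=
          min_le_left _ _
        have h3 := Tk_nonneg w
        have h4 : 0 ≤ A / 2 * Tk w := by positivity
        have h5 := Dd_nonneg u
        unfold NN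
        linarith
      · push Not at hm
        obtain ⟨x, hx⟩ := hm
        have h2 : min ((1 / 3 - dl A) * Ms u) (z * (vol r / 128 / r)) ≤ z * (vol r / 128 / r) :=
          min_le_right _ _
        have h1 := hc _ _ (h.trans x)
        rw [NN_trans h, Ms_trans, Ph_trans, zero_add] at h1
        have h3 : vol r / 128 / r ≤ Ph u x := by
          have h4 : mb u x r / r ≤ Ph u x := by
            unfold mb Ph
            rw [← integral_div]
            calc ∫ y in Metric.ball x r, u y ^ 2 / r ≤ ∫ y in Metric.ball x r, u y ^ 2 / ‖y - x‖ := by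
                  apply setIntegral_mono_ae_restrict (h.sq_int.div_const r).integrableOn
                    (h.pot_int x).integrableOn
                  have hne : ∀ᵐ y ∂((volume : Measure E3).restrict (Metric.ball x r)), y ≠ x := by
                    apply ae_restrict_of_ae
                    exact Measure.ae_ne volume x
                  filter_upwards [hne, ae_restrict_mem measurableSet_ball] with y hy hb
                  have h6 : 0 < ‖y - x‖ := norm_pos_iff.2 (sub_ne_zero.2 hy)
                  have h7 : ‖y - x‖ < r := by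
                    rw [← dist_eq_norm]
                    exact hb
                  exact div_le_div_of_nonneg_left (sq_nonneg _) h6 h7.le
              _ ≤ _ := setIntegral_le_integral (h.pot_int x)
                  (Eventually.of_forall fun y => by positivity)
          refine le_trans ?_ h4
          exact div_le_div_of_nonneg_right hx.le hr0.le
        have h5 := mul_le_mul_of_nonneg_left h3 hz.le
        linarith)
  have h1 : dl A + ε ≤ dl A := by
    apply le_csInf (dl_nonempty A)
    rintro t ⟨f, g, h, hm, rfl⟩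
    rw [le_div_iff₀ hm]
    exact him f g h
  linarith

end Pool.Agent.Helper26.Tf
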