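import Pool.Agent.Helper26.Tf.Split

set_option autoImplicit false
set_option linter.unusedVariables false

namespace Pool.Agent.Helper26.Tf

open MeasureTheory Filter Topology Set Pool.Agent.TFDW
open scoped ENNReal NNReal ContDiff

variable {f : E3 → ℝ} {g : E3 → E3}

lemma fatou_real {α : Type*} [MeasurableSpace α] {μ : Measure α} {F : ℕ → α → ℝ} {G : α → ℝ}
    (hF : ∀ n, Integrable (F n) μ) (hF0 : ∀ n x, 0 ≤ F n x) (hG : Integrable G μ)
    (hG0 : ∀ x, 0 ≤ G x) (hm : ∀ n, Measurable (F n))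
    (ht : ∀ᵐ x ∂μ, Tendsto (fun n => F n x) atTop (𝓝 (G x))) {ε : ℝ} (hε : 0 < ε) :
    ∀ᶠ n in atTop, (∫ x, G x ∂μ) - ε < ∫ x, F n x ∂μ := by
  rcases lt_or_ge ((∫ x, G x ∂μ) - ε) 0 with h | h
  · refine Eventually.of_forall fun n => ?_
    have : 0 ≤ ∫ x, F n x ∂μ := integral_nonneg (hF0 n)
    linarith
  · have h1 := lintegral_liminf_le (μ := μ) (u := (atTop : Filter ℕ)) (f := fun n x => ENNReal.ofReal (F n x))
      (fun n => (hm n).ennreal_ofReal)
    have h2 : ∫⁻ x, liminf (fun n => ENNReal.ofReal (F n x)) atTop ∂μ =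
        ENNReal.ofReal (∫ x, G x ∂μ) := by
      rw [ofReal_integral_eq_lintegral_ofReal hG (Eventually.of_forall hG0)]
      apply lintegral_congr_ae
      filter_upwards [ht] with x hx
      exact (ENNReal.tendsto_ofReal hx).liminf_eq
    rw [h2] at h1
    have h3 : ENNReal.ofReal ((∫ x, G x ∂μ) - ε) < ENNReal.ofReal (∫ x, G x ∂μ) := by
      rw [ENNReal.ofReal_lt_ofReal_iff (by linarith)]
      linarith
    have h4 := eventually_lt_of_lt_liminf (lt_of_lt_of_le h3 h1)
    filter_upwards [h4] with n hn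
    rw [← ofReal_integral_eq_lintegral_ofReal (hF n) (Eventually.of_forall (hF0 n))] at hn
    exact (ENNReal.ofReal_lt_ofReal_iff_of_nonneg h).1 hn

lemma inner_int {u w : E3 → E3} (hu : MemLp u 2 (volume : Measure E3))
    (hw : MemLp w 2 (volume : Measure E3)) : Integrable (fun x => inner ℝ (u x) (w x)) volume := by
  have i1 := (memLp_two_iff_integrable_sq_norm hu.1).1 hu
  have i2 := (memLp_two_iff_integrable_sq_norm hw.1).1 hw
  refine Integrable.mono' (i1.add i2) (hu.1.inner hw.1) ?_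
  filter_upwards with x
  show ‖inner ℝ (u x) (w x)‖ ≤ ‖u x‖ ^ 2 + ‖w x‖ ^ 2
  have h1 : ‖inner ℝ (u x) (w x)‖ ≤ ‖u x‖ * ‖w x‖ := norm_inner_le_norm _ _
  nlinarith [sq_nonneg (‖u x‖ - ‖w x‖), sq_nonneg (‖u x‖), sq_nonneg (‖w x‖)]

lemma GG_coer {A z : ℝ} (hA : 0 < A) (hz : 0 ≤ z) {m : ℝ} (hm : 0 ≤ m) :
    ∃ C : ℝ, 0 ≤ C ∧ ∀ f g, H1 f g → Ms f ≤ m → A / 2 * Tk g ≤ GG A z f g + C := by
  obtain ⟨K, hK0, hK⟩ := pot_bd
  have hdl := dl_nonneg hA.le
  set s := A / (2 * (z * K + 1)) with hs
  have hs0 : 0 < s := by positivity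
  have hsK : z * K * s ≤ A / 2 := by
    rw [hs, ← mul_div_assoc, div_le_div_iff₀ (by positivity) (by norm_num)]
    have : 0 ≤ z * K := by positivity
    nlinarith
  refine ⟨dl A * m + z * (m / s), by positivity, ?_⟩
  intro f g h hMm
  have h1 := (hK f g h 0).2 s hs0
  have h2 := mul_le_mul_of_nonneg_left h1 hz
  have hT := Tk_nonneg g
  have h3 := mul_le_mul_of_nonneg_right hsK hT
  have h4 := mul_le_mul_of_nonneg_left hMm hdl
  have h5 : z * (Ms f / s) ≤ z * (m / s) :=
    mul_le_mul_of_nonneg_left (div_le_div_of_nonneg_right hMm hs0.le) hz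
  have h6 := Ws_nonneg f
  have h7 := Dd_nonneg f
  unfold GG NN
  have e : z * (K * s * Tk g + Ms f / s) = z * K * s * Tk g + z * (Ms f / s) := by ring
  rw [e] at h2
  linarith

lemma seq_ae {B : Set E3} (f : ℕ → E3 → ℝ) (F : E3 → ℝ) (hf : ∀ n, Measurable (f n))
    (hF : Measurable F)
    (hi : ∀ n, IntegrableOn (fun x => (f n x + (-1) * F x) ^ 2) B volume)
    (ht : Tendsto (fun n => ∫ x in B, (f n x + (-1) * F x) ^ 2) atTop (𝓝 0)) :
    ∃ ns : ℕ → ℕ, StrictMono ns ∧
      ∀ᵐ x ∂(volume.restrict B), Tendsto (fun k => f (ns k) x) atTop (𝓝 (F x)) := by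
  have h1 : TendstoInMeasure (volume.restrict B) (fun n x => (f n x + (-1) * F x) ^ 2) atTop
      (fun _ => (0 : ℝ)) := by
    apply tendstoInMeasure_of_tendsto_eLpNorm (p := 1) one_ne_zero
    · intro n
      exact (((hf n).add (hF.const_mul _)).pow_const 2).aestronglyMeasurable
    · exact aestronglyMeasurable_const
    · have h2 : ∀ n, eLpNorm ((fun x => (f n x + (-1) * F x) ^ 2) - fun _ => (0 : ℝ)) 1
          (volume.restrict B) = ENNReal.ofReal (∫ x in B, (f n x + (-1) * F x) ^ 2) := by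
        intro n
        rw [eLpNorm_one_eq_lintegral_enorm, ofReal_integral_eq_lintegral_ofReal (hi n)
          (Eventually.of_forall fun x => sq_nonneg _)]
        apply lintegral_congr
        intro x
        simp only [Pi.sub_apply, sub_zero]
        rw [Real.enorm_of_nonneg (sq_nonneg _)]
      simp only [h2]
      have := ENNReal.tendsto_ofReal ht
      rwa [ENNReal.ofReal_zero] at this
  obtain ⟨ns, hns, hae⟩ := h1.exists_seq_tendsto_ae
  refine ⟨ns, hns, ?_⟩
  filter_upwards [hae] with x hx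
  have h3 : Tendsto (fun k => |f (ns k) x + (-1) * F x|) atTop (𝓝 0) := by
    have := (Real.continuous_sqrt.tendsto 0).comp hx
    rw [Real.sqrt_zero] at this
    refine this.congr fun k => ?_
    simp only [Function.comp_apply]
    exact Real.sqrt_sq_eq_abs _
  have h4 := (tendsto_zero_iff_abs_tendsto_zero _).2 h3
  have h5 := h4.add_const (F x)
  rw [zero_add] at h5
  refine h5.congr fun k => ?_
  ring

/-- upper bound for weighted masses -/
lemma upper {B : Set E3} {κ : E3 → ℝ} (hκ : ∀ x, 0 ≤ κ x) (f : ℕ → E3 → ℝ) (F : E3 → ℝ)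
    (hf : ∀ n, IntegrableOn (fun x => κ x * f n x ^ 2) B volume)
    (hF : IntegrableOn (fun x => κ x * F x ^ 2) B volume)
    (hi : ∀ n, IntegrableOn (fun x => κ x * (f n x + (-1) * F x) ^ 2) B volume)
    (ht : Tendsto (fun n => ∫ x in B, κ x * (f n x + (-1) * F x) ^ 2) atTop (𝓝 0))
    {ε : ℝ} (hε : 0 < ε) :
    ∀ᶠ n in atTop, ∫ x in B, κ x * f n x ^ 2 < (∫ x in B, κ x * F x ^ 2) + ε := by
  set I := ∫ x in B, κ x * F x ^ 2 with hI
  have hI0 : 0 ≤ I := integral_nonneg fun x => mul_nonneg (hκ x) (sq_nonneg _)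
  set δ := ε / (2 * (I + 1)) with hδ
  have hδ0 : 0 < δ := by positivity
  have hδI : δ * I ≤ ε / 2 := by
    rw [hδ, div_mul_eq_mul_div, div_le_div_iff₀ (by positivity) (by norm_num)]
    nlinarith
  have h1 := ht.const_mul (1 + 1 / δ)
  rw [mul_zero] at h1
  have h2 := h1.eventually (gt_mem_nhds (half_pos hε))
  filter_upwards [h2] with n hn
  have h3 : ∫ x in B, κ x * f n x ^ 2 ≤
      (1 + δ) * I + (1 + 1 / δ) * ∫ x in B, κ x * (f n x + (-1) * F x) ^ 2 := by
    rw [hI, ← integral_const_mul, ← integral_const_mul,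
      ← integral_add (hF.const_mul _) ((hi n).const_mul _)]
    apply integral_mono (hf n) ((hF.const_mul _).add ((hi n).const_mul _))
    intro x
    show κ x * f n x ^ 2 ≤ (1 + δ) * (κ x * F x ^ 2) +
      (1 + 1 / δ) * (κ x * (f n x + (-1) * F x) ^ 2)
    have h4 : f n x ^ 2 ≤ (1 + δ) * F x ^ 2 + (1 + 1 / δ) * (f n x + (-1) * F x) ^ 2 := by
      have e : (1 + δ) * F x ^ 2 + (1 + 1 / δ) * (f n x + (-1) * F x) ^ 2 - f n x ^ 2 =
          (δ * F x - (f n x + (-1) * F x)) ^ 2 / δ := by
        field_simp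
        ring
      have : 0 ≤ (δ * F x - (f n x + (-1) * F x)) ^ 2 / δ := by positivity
      linarith
    calc κ x * f n x ^ 2 ≤ κ x * ((1 + δ) * F x ^ 2 + (1 + 1 / δ) * (f n x + (-1) * F x) ^ 2) :=
          mul_le_mul_of_nonneg_left h4 (hκ x)
      _ = _ := by ring
  have h5 : (1 + δ) * I = I + δ * I := by ring
  linarith

lemma pot_loc (u : ℕ → E3 → ℝ) (w : ℕ → E3 → E3) (h : ∀ n, H1 (u n) (w n)) {C : ℝ}
    (hT : ∀ n, Tk (w n) ≤ C) {B : Set E3} (hB : MeasurableSet B)
    (ht : Tendsto (fun n => ∫ x in B, u n x ^ 2) atTop (𝓝 0)) :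
    Tendsto (fun n => ∫ x in B, u n x ^ 2 / ‖x - 0‖) atTop (𝓝 0) := by
  obtain ⟨K, hK0, hK⟩ := loc_pot
  have hC : 0 ≤ C := (Tk_nonneg _).trans (hT 0)
  rw [Metric.tendsto_atTop]
  intro ε hε
  set s := ε / (2 * (K * C + 1)) with hs
  have hs0 : 0 < s := by positivity
  have hsK : K * s * C < ε / 2 := by
    have e : K * s * C = ε / 2 * (K * C / (K * C + 1)) := by
      rw [hs]
      field_simp
    rw [e]
    have h1 : K * C / (K * C + 1) < 1 := by
      rw [div_lt_one (by positivity)]
      linarith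
    have h2 : 0 < ε / 2 := by positivity
    nlinarith
  have h1 := ht.const_mul (1 / s)
  rw [mul_zero] at h1
  obtain ⟨N, hN⟩ := (Metric.tendsto_atTop.1 h1) (ε / 2) (half_pos hε)
  refine ⟨N, fun n hn => ?_⟩
  have h2 := hN n hn
  have hnn : 0 ≤ ∫ x in B, u n x ^ 2 := integral_nonneg fun x => sq_nonneg _
  rw [Real.dist_eq, sub_zero, abs_of_nonneg (by positivity)] at h2
  rw [Real.dist_eq, sub_zero, abs_of_nonneg (integral_nonneg fun x => by positivity)]
  obtain ⟨i1, b1⟩ := hK _ _ (h n) 0 s hs0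
  have h3 : ∫ x in B, u n x ^ 2 / ‖x - 0‖ ≤
      (∫ x in B, u n x ^ 2 * Kr s (x - 0)) + 1 / s * ∫ x in B, u n x ^ 2 := by
    rw [← integral_const_mul, ← integral_add i1.integrableOn ((h n).sq_int.const_mul _).integrableOn]
    apply integral_mono ((h n).pot_int 0).integrableOn
      (i1.integrableOn.add ((h n).sq_int.const_mul _).integrableOn)
    intro x
    show u n x ^ 2 / ‖x - 0‖ ≤ u n x ^ 2 * Kr s (x - 0) + 1 / s * u n x ^ 2
    have := inv_le_Kr (x - 0) s hs0 (u n x ^ 2) (sq_nonneg _)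
    rw [one_div_mul_eq_div]
    exact this
  have h4 : ∫ x in B, u n x ^ 2 * Kr s (x - 0) ≤ K * s * C := by
    refine (setIntegral_le_integral i1 (Eventually.of_forall fun x =>
      mul_nonneg (sq_nonneg _) (Kr_nonneg _ _))).trans (b1.trans ?_)
    exact mul_le_mul_of_nonneg_left (hT n) (by positivity)
  linarith

/-- lower semicontinuity of the local energy -/
lemma lsc_R (f : ℕ → E3 → ℝ) (g : ℕ → E3 → E3) (h : ∀ n, H1 (f n) (g n)) {F : E3 → ℝ}
    {G : E3 → E3} (hF : H1 F G) {C : ℝ} (hT : ∀ n, Tk (g n) ≤ C)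
    {A z R : ℝ} (hA : 0 < A) (hz : 0 ≤ z)
    (hloc : Tendsto (fun n => ∫ x in Metric.ball (0 : E3) R, (f n x + (-1) * F x) ^ 2) atTop (𝓝 0))
    (hw : ∀ Ψ : E3 → E3, MemLp Ψ 2 (volume : Measure E3) →
        Tendsto (fun n => ∫ x, inner ℝ (g n x) (Ψ x)) atTop (𝓝 (∫ x, inner ℝ (G x) (Ψ x))))
    {ε : ℝ} (hε : 0 < ε) :
    ∃ᶠ n in atTop, PR A z R F G - ε < PR A z R (f n) (g n) := by
  set B := Metric.ball (0 : E3) R with hB
  have hBm : MeasurableSet B := measurableSet_ball
  have hdl := dl_nonneg hA.le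
  obtain ⟨ns, hns, hae⟩ := seq_ae f F (fun n => (h n).fm) hF.fm
    (fun n => ((h n).lin hF (-1)).sq_int.integrableOn) hloc
  have hnt := hns.tendsto_atTop
  -- kinetic part
  have k1 : ∀ᶠ k in atTop, (∫ x in B, ‖G x‖ ^ 2) - ε / 5 / A < ∫ x in B, ‖g (ns k) x‖ ^ 2 := by
    have m1 : MemLp (B.indicator G) 2 (volume : Measure E3) := hF.g2.indicator hBm
    have h1 := ((hw _ m1).comp hnt).const_mul 2
    have h2 : ∫ x, inner ℝ (G x) (B.indicator G x) = ∫ x in B, ‖G x‖ ^ 2 := by
      rw [← integral_indicator hBm]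
      apply integral_congr_ae
      filter_upwards with x
      by_cases hx : x ∈ B
      · rw [indicator_of_mem hx, indicator_of_mem hx, real_inner_self_eq_norm_sq]
      · rw [indicator_of_notMem hx, indicator_of_notMem hx, inner_zero_right]
    rw [h2] at h1
    have h3 := h1.eventually (lt_mem_nhds (show 2 * (∫ x in B, ‖G x‖ ^ 2) - ε / 5 / A <
      2 * ∫ x in B, ‖G x‖ ^ 2 by
        have : 0 < ε / 5 / A := by positivity
        linarith))
    filter_upwards [h3] with k hk
    have i1 : Integrable (fun x => inner ℝ (g (ns k) x) (B.indicator G x)) volume :=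
      inner_int (h (ns k)).g2 m1
    have h4 : 2 * (∫ x, inner ℝ (g (ns k) x) (B.indicator G x)) - ∫ x in B, ‖G x‖ ^ 2 ≤
        ∫ x in B, ‖g (ns k) x‖ ^ 2 := by
      rw [← integral_indicator hBm, ← integral_indicator hBm, ← integral_const_mul,
        ← integral_sub (i1.const_mul 2) (hF.gsq_int.indicator hBm)]
      apply integral_mono ((i1.const_mul 2).sub (hF.gsq_int.indicator hBm))
        ((h (ns k)).gsq_int.indicator hBm)
      intro x
      show 2 * inner ℝ (g (ns k) x) (B.indicator G x) - B.indicator (fun x => ‖G x‖ ^ 2) x ≤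
        B.indicator (fun x => ‖g (ns k) x‖ ^ 2) x
      by_cases hx : x ∈ B
      · rw [indicator_of_mem hx, indicator_of_mem hx, indicator_of_mem hx]
        have h5 := norm_sub_sq_real (g (ns k) x) (G x)
        have h6 : 0 ≤ ‖g (ns k) x - G x‖ ^ 2 := sq_nonneg _
        linarith
      · rw [indicator_of_notMem hx, indicator_of_notMem hx, indicator_of_notMem hx,
          inner_zero_right]
        norm_num
    simp only [Function.comp_apply] at hk
    linarith
  -- local energy
  have k2 : ∀ᶠ k in atTop, (∫ x in B, W (F x)) - ε / 5 < ∫ x in B, W (f (ns k) x) := by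
    apply fatou_real (fun k => (h (ns k)).W_int.integrableOn) (fun k x => W_nonneg _)
      hF.W_int.integrableOn (fun x => W_nonneg _)
      (fun k => W_cont.measurable.comp (h (ns k)).fm) _ (by positivity)
    filter_upwards [hae] with x hx
    exact (W_cont.tendsto _).comp hx
  -- Coulomb energy
  have k3 : ∀ᶠ k in atTop, 2 * Dd (B.indicator F) - 2 * ε / 5 < 2 * Dd (B.indicator (f (ns k))) := by
    have hpt : ∀ᵐ x ∂(volume : Measure E3),
        Tendsto (fun k => B.indicator (f (ns k)) x) atTop (𝓝 (B.indicator F x)) := by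
      have h1 := (ae_restrict_iff' hBm).1 hae
      filter_upwards [h1] with x hx
      by_cases hxB : x ∈ B
      · simp only [indicator_of_mem hxB]
        exact hx hxB
      · simp only [indicator_of_notMem hxB]
        exact tendsto_const_nhds
    have h1 := fatou_real (μ := (volume : Measure E3).prod volume)
      (F := fun k => kk (B.indicator (f (ns k)))) (G := kk (B.indicator F))
      (fun k => kk_ind_int (h (ns k)) hBm) (fun k p => kk_nonneg _ _) (kk_ind_int hF hBm)
      (fun p => kk_nonneg _ _) (fun k => kk_meas ((h (ns k)).fm.indicator hBm)) (by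
        have q1 := Measure.quasiMeasurePreserving_fst (μ := (volume : Measure E3))
          (ν := (volume : Measure E3)) |>.ae hpt
        have q2 := Measure.quasiMeasurePreserving_snd (μ := (volume : Measure E3))
          (ν := (volume : Measure E3)) |>.ae hpt
        filter_upwards [q1, q2] with p h1 h2
        unfold kk
        exact ((h1.pow 2).mul (h2.pow 2)).div_const _) (ε := 2 * ε / 5) (by positivity)
    filter_upwards [h1] with k hk
    unfold Dd
    linarith
  have hinn : ∀ u : E3 → ℝ, ∀ x : E3, u x ^ 2 / ‖x - 0‖ = ‖x - 0‖⁻¹ * u x ^ 2 := fun u x => by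
    rw [div_eq_inv_mul]
  -- mass
  have k4 : ∀ᶠ k in atTop, ∫ x in B, f (ns k) x ^ 2 < (∫ x in B, F x ^ 2) + ε / 5 / (dl A + 1) := by
    have h1 := upper (B := B) (κ := fun _ => 1) (fun _ => zero_le_one) (fun k => f (ns k)) F
      (fun k => by simpa using (h (ns k)).sq_int.integrableOn) (by simpa using hF.sq_int.integrableOn)
      (fun k => by simpa using ((h (ns k)).lin hF (-1)).sq_int.integrableOn)
      (by
        have := hloc.comp hnt
        simpa [Function.comp_def] using this) (ε := ε / 5 / (dl A + 1)) (by positivity)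
    simpa using h1
  -- nucleus
  have k5 : ∀ᶠ k in atTop, ∫ x in B, f (ns k) x ^ 2 / ‖x - 0‖ <
      (∫ x in B, F x ^ 2 / ‖x - 0‖) + ε / 5 / (z + 1) := by
    have hp := pot_loc (fun k x => f (ns k) x + (-1) * F x)
      (fun k x => g (ns k) x + (-1 : ℝ) • G x) (fun k => (h (ns k)).lin hF (-1))
      (C := 2 * (C + Tk G)) (fun k => (Tk_sub_le (h (ns k)) hF).trans (by
        have := hT (ns k)
        linarith)) hBm (hloc.comp hnt)
    have h1 := upper (B := B) (κ := fun x => ‖x - 0‖⁻¹) (fun _ => by positivity)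
      (fun k => f (ns k)) F
      (fun k => by
        have := ((h (ns k)).pot_int 0).integrableOn (s := B)
        simp only [hinn] at this
        exact this)
      (by
        have := (hF.pot_int 0).integrableOn (s := B)
        simp only [hinn] at this
        exact this)
      (fun k => by
        have := (((h (ns k)).lin hF (-1)).pot_int 0).integrableOn (s := B)
        simp only [div_eq_inv_mul] at this
        exact this)
      (by
        simp only [div_eq_inv_mul] at hp
        exact hp) (ε := ε / 5 / (z + 1)) (by positivity)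
    simp only [div_eq_inv_mul] at h1 ⊢
    exact h1
  refine hnt.frequently (Eventually.frequently ?_)
  filter_upwards [k1, k2, k3, k4, k5] with k h1 h2 h3 h4 h5
  unfold PR
  have e1 : A * (ε / 5 / A) = ε / 5 := by field_simp
  have a1 := mul_lt_mul_of_pos_left h1 hA
  rw [mul_sub, e1] at a1
  have a4 : dl A * (∫ x in B, f (ns k) x ^ 2) ≤ dl A * (∫ x in B, F x ^ 2) + ε / 5 := by
    have b1 := mul_le_mul_of_nonneg_left h4.le hdl
    have b2 : dl A * (ε / 5 / (dl A + 1)) ≤ ε / 5 := by
      rw [← mul_div_assoc, div_le_iff₀ (by positivity)]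
      nlinarith
    linarith
  have a5 : z * (∫ x in B, f (ns k) x ^ 2 / ‖x - 0‖) ≤
      z * (∫ x in B, F x ^ 2 / ‖x - 0‖) + ε / 5 := by
    have b1 := mul_le_mul_of_nonneg_left h5.le hz
    have b2 : z * (ε / 5 / (z + 1)) ≤ ε / 5 := by
      rw [← mul_div_assoc, div_le_iff₀ (by positivity)]
      nlinarith
    linarith
  linarith

end Pool.Agent.Helper26.Tf
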