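import Pool.Agent.Helper26.Tf.Exist

set_option autoImplicit false
set_option linter.unusedVariables false

namespace Pool.Agent.Helper26.Tf

open MeasureTheory Filter Topology Set Pool.Agent.TFDW
open scoped ENNReal NNReal ContDiff

variable {f : E3 → ℝ} {g : E3 → E3}

lemma ball_mono : Monotone fun n : ℕ => Metric.ball (0 : E3) (n : ℝ) := by
  intro a b hab
  exact Metric.ball_subset_ball (by exact_mod_cast hab)

lemma ball_lim {φ : E3 → ℝ} (hφ : Integrable φ volume) :
    Tendsto (fun n : ℕ => ∫ x in Metric.ball (0 : E3) (n : ℝ), φ x) atTop (𝓝 (∫ x, φ x)) := by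
  have h1 := tendsto_setIntegral_of_monotone (μ := (volume : Measure E3)) (f := φ)
    (s := fun n : ℕ => Metric.ball (0 : E3) (n : ℝ)) (fun n => measurableSet_ball) ball_mono
    (by rw [Metric.iUnion_ball_nat, integrableOn_univ]; exact hφ)
  rw [Metric.iUnion_ball_nat, setIntegral_univ] at h1
  exact h1

lemma ball_lim2 (h : H1 f g) :
    Tendsto (fun n : ℕ => Dd ((Metric.ball (0 : E3) (n : ℝ)).indicator f)) atTop (𝓝 (Dd f)) := by
  have hu : (⋃ n : ℕ, Metric.ball (0 : E3) (n : ℝ) ×ˢ Metric.ball (0 : E3) (n : ℝ)) = univ := by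
    rw [eq_univ_iff_forall]
    intro p
    obtain ⟨n, hn⟩ := exists_nat_gt (max ‖p.1‖ ‖p.2‖)
    rw [max_lt_iff] at hn
    exact mem_iUnion.2 ⟨n, by simpa using hn.1, by simpa using hn.2⟩
  have h1 := tendsto_setIntegral_of_monotone (μ := (volume : Measure E3).prod volume) (f := kk f)
    (s := fun n : ℕ => Metric.ball (0 : E3) (n : ℝ) ×ˢ Metric.ball (0 : E3) (n : ℝ))
    (fun n => measurableSet_ball.prod measurableSet_ball)
    (fun a b hab => prod_mono (ball_mono hab) (ball_mono hab))
    (by rw [hu, integrableOn_univ]; exact h.kk_int)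
  rw [hu, setIntegral_univ] at h1
  have h2 := h1.const_mul (1 / 2)
  refine h2.congr fun n => ?_
  unfold Dd
  congr 1
  have e : kk ((Metric.ball (0 : E3) (n : ℝ)).indicator f) =
      (Metric.ball (0 : E3) (n : ℝ) ×ˢ Metric.ball (0 : E3) (n : ℝ)).indicator (kk f) :=
    funext fun p => kk_ind _ f p
  rw [e, integral_indicator (measurableSet_ball.prod measurableSet_ball)]

lemma PR_lim (h : H1 f g) (A z : ℝ) :
    Tendsto (fun n : ℕ => PR A z n f g) atTop (𝓝 (GG A z f g)) := by
  unfold PR GG NN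
  have t1 := (ball_lim h.gsq_int).const_mul A
  have t2 := ball_lim h.W_int
  have t3 := ball_lim2 h
  have t4 := (ball_lim h.sq_int).const_mul (dl A)
  have t5 := (ball_lim (h.pot_int 0)).const_mul z
  exact (((t1.add t2).add t3).sub t4).sub t5

lemma ann_lim (h : H1 f g) :
    Tendsto (fun n : ℕ => ∫ x in ann n 1, f x ^ 2) atTop (𝓝 0) := by
  have t1 := (ball_lim h.sq_int).const_sub (∫ x, f x ^ 2)
  rw [sub_self] at t1
  refine squeeze_zero (fun n => integral_nonneg fun x => sq_nonneg _) (fun n => ?_) t1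
  have h1 := integral_add_compl (μ := (volume : Measure E3)) (s := Metric.ball (0 : E3) (n : ℝ))
    measurableSet_ball h.sq_int
  have h2 : ∫ x in ann n 1, f x ^ 2 ≤ ∫ x in (Metric.ball (0 : E3) (n : ℝ))ᶜ, f x ^ 2 := by
    apply setIntegral_mono_set h.sq_int.integrableOn (Eventually.of_forall fun x => sq_nonneg _)
    refine (HasSubset.Subset.eventuallyLE ?_)
    intro x hx
    have : (n : ℝ) ≤ ‖x‖ := hx.1
    simpa using this
  linarith

/-- Existence of minimizers under a mass constraint. -/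
theorem exists_min {A z : ℝ} (hA : 0 < A) (hz : 0 ≤ z) {m : ℝ} (hm : 0 ≤ m) :
    ∃ F G, H1 F G ∧ Ms F ≤ m ∧ ∀ f g, H1 f g → Ms f ≤ m → GG A z F G ≤ GG A z f g := by
  obtain ⟨L, hL0, hL⟩ := ct_lip
  have hdl := dl_nonneg hA.le
  obtain ⟨C, hC0, hC⟩ := GG_coer hA hz hm
  set S : Set ℝ := {t | ∃ f g, H1 f g ∧ Ms f ≤ m ∧ t = GG A z f g} with hS
  have hSne : S.Nonempty := by
    obtain ⟨f0, g0, h0, _⟩ := exists_H1_pos
    refine ⟨_, _, _, h0.lin h0 (-1), ?_, rfl⟩
    have : Ms (fun x => f0 x + (-1) * f0 x) = 0 := by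
      unfold Ms
      simp
    rw [this]
    exact hm
  have hSb : BddBelow S := by
    refine ⟨-C, ?_⟩
    rintro t ⟨f, g, h, hM, rfl⟩
    have h1 := hC f g h hM
    have h2 := Tk_nonneg g
    have h3 : 0 ≤ A / 2 * Tk g := by positivity
    linarith
  obtain ⟨u, hua, hut, huS⟩ := exists_seq_tendsto_sInf hSne hSb
  choose f g h hM hu using huS
  set CT := (u 0 + C) / (A / 2) with hCT
  have hTk : ∀ n, Tk (g n) ≤ CT := by
    intro n
    have h1 := hC _ _ (h n) (hM n)
    have h2 := hua (Nat.zero_le n)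
    rw [hCT, le_div_iff₀ (by positivity)]
    rw [← hu n] at h1
    linarith
  have hCT0 : 0 ≤ CT := (Tk_nonneg _).trans (hTk 0)
  obtain ⟨F, G, hF, φ, hφ, hwf, hwg⟩ := weak_H1 f g h (max m CT)
    (fun n => (hM n).trans (le_max_left _ _)) (fun n => (hTk n).trans (le_max_right _ _))
  have hMF : Ms F ≤ m := by
    have t1 := ((hwf F hF.f2).const_mul 2).sub_const (∫ x, F x ^ 2)
    have e : 2 * (∫ x, F x * F x) - ∫ x, F x ^ 2 = Ms F := by
      have : (fun x => F x * F x) = fun x => F x ^ 2 := by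
        funext x
        ring
      rw [this]
      unfold Ms
      ring
    rw [e] at t1
    apply le_of_tendsto t1
    refine Eventually.of_forall fun n => ?_
    refine le_trans ?_ (hM (φ n))
    have j1 : Integrable (fun x => f (φ n) x * F x) volume := (h (φ n)).f2.integrable_mul hF.f2
    rw [← integral_const_mul, ← integral_sub (j1.const_mul 2) hF.sq_int]
    apply integral_mono ((j1.const_mul 2).sub hF.sq_int) (h (φ n)).sq_int
    intro x
    show 2 * (f (φ n) x * F x) - F x ^ 2 ≤ f (φ n) x ^ 2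
    nlinarith [sq_nonneg (f (φ n) x - F x)]
  have hlin : ∀ n, H1 (fun x => f (φ n) x + (-1) * F x) (fun x => g (φ n) x + (-1 : ℝ) • G x) :=
    fun n => (h (φ n)).lin hF (-1)
  have hloc : ∀ R : ℝ, Tendsto (fun n => ∫ x in Metric.ball (0 : E3) R,
      (f (φ n) x + (-1) * F x) ^ 2) atTop (𝓝 0) := by
    apply loc_conv _ _ hlin (2 * (m + m) + 2 * (CT + Tk G))
    · intro n
      have h1 := Ms_sub_le (h (φ n)) hF
      have h2 := hM (φ n)
      have h3 := Tk_nonneg G
      linarith
    · intro n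
      have h1 := Tk_sub_le (h (φ n)) hF
      have h2 := hTk (φ n)
      linarith
    · intro ψ hψ
      have t1 := (hwf ψ hψ).sub_const (∫ x, F x * ψ x)
      rw [sub_self] at t1
      refine t1.congr fun n => ?_
      have j1 : Integrable (fun x => f (φ n) x * ψ x) volume := (h (φ n)).f2.integrable_mul hψ
      have j2 : Integrable (fun x => F x * ψ x) volume := hF.f2.integrable_mul hψ
      rw [← integral_sub j1 j2]
      apply integral_congr_ae
      filter_upwards with x
      ring
  refine ⟨F, G, hF, hMF, ?_⟩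
  have hut' : Tendsto (fun n => u (φ n)) atTop (𝓝 (sInf S)) := hut.comp hφ.tendsto_atTop
  have key : GG A z F G ≤ sInf S := by
    apply le_of_forall_pos_le_add
    intro ε hε
    set ε₀ := ε / 7 with hε₀
    have hε0 : 0 < ε₀ := by positivity
    set ε₁ := ε₀ / (A * CT + 1) with hε₁
    have hε1 : 0 < ε₁ := by positivity
    have hε1b : ε₁ * A * CT ≤ ε₀ := by
      have e : ε₁ * A * CT = ε₀ * (A * CT / (A * CT + 1)) := by
        rw [hε₁]
        field_simp
      rw [e]
      apply mul_le_of_le_one_right hε0.le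
      rw [div_le_one (by positivity)]
      linarith
    set Cε := (1 + 1 / ε₁) * A * L ^ 2 + 1 + dl A with hCε
    have hCε0 : 0 < Cε := by positivity
    -- choose the radius
    have s1 := (PR_lim hF A z).eventually (lt_mem_nhds (show GG A z F G - ε₀ < GG A z F G by
      linarith))
    have s2 := ((ann_lim hF).const_mul (Cε * 2)).eventually (gt_mem_nhds (show Cε * 2 * 0 < ε₀ by
      rw [mul_zero]; exact hε0))
    have s3 : ∀ᶠ n : ℕ in atTop, z / n * m ≤ ε₀ := by
      obtain ⟨N, hN⟩ := exists_nat_gt (z * m / ε₀)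
      filter_upwards [eventually_ge_atTop (N + 1)] with n hn
      have h1 : (0 : ℝ) < n := by
        have : 0 < n := by omega
        exact_mod_cast this
      have h2 : (N : ℝ) ≤ n := by
        have : N ≤ n := by omega
        exact_mod_cast this
      rw [div_mul_eq_mul_div, div_le_iff₀ h1]
      rw [div_lt_iff₀ hε0] at hN
      nlinarith
    obtain ⟨n, hn1, hn2, hn3, hn4⟩ := (s1.and (s2.and (s3.and (eventually_ge_atTop 1)))).exists
    have hR : (0 : ℝ) < (n : ℝ) := by exact_mod_cast hn4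
    have r1 := lsc_R (fun k => f (φ k)) (fun k => g (φ k)) (fun k => h (φ k)) hF
      (fun k => hTk (φ k)) hA hz (hloc n) hwg hε0
    have r2 : ∀ᶠ k in atTop, Cε * 2 * (∫ x in Metric.ball (0 : E3) ((n : ℝ) + 2),
        (f (φ k) x + (-1) * F x) ^ 2) < ε₀ := by
      have := ((hloc ((n : ℝ) + 2)).const_mul (Cε * 2))
      rw [mul_zero] at this
      exact this.eventually (gt_mem_nhds hε0)
    have r3 := hut'.eventually (gt_mem_nhds (show sInf S < sInf S + ε₀ by linarith))
    obtain ⟨k, hk1, hk2, hk3⟩ := (r1.and_eventually (r2.and r3)).exists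
    have hsp := split hA.le hz hL (h (φ k)) hR hε1
    have q1 : ε₁ * A * Tk (g (φ k)) ≤ ε₀ :=
      (mul_le_mul_of_nonneg_left (hTk (φ k)) (by positivity)).trans hε1b
    have q2 : ∫ x in ann n 1, f (φ k) x ^ 2 ≤
        2 * (∫ x in ann n 1, F x ^ 2) + 2 * ∫ x in Metric.ball (0 : E3) ((n : ℝ) + 2),
          (f (φ k) x + (-1) * F x) ^ 2 := by
      have hsub : ann (n : ℝ) 1 ⊆ Metric.ball (0 : E3) ((n : ℝ) + 2) := by
        intro x hx
        have : ‖x‖ ≤ n + 1 := hx.2
        simp only [Metric.mem_ball, dist_zero_right]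
        linarith
      have h1 : ∫ x in ann n 1, (f (φ k) x + (-1) * F x) ^ 2 ≤
          ∫ x in Metric.ball (0 : E3) ((n : ℝ) + 2), (f (φ k) x + (-1) * F x) ^ 2 :=
        setIntegral_mono_set (hlin k).sq_int.integrableOn
          (Eventually.of_forall fun x => sq_nonneg _) (HasSubset.Subset.eventuallyLE hsub)
      have h2 : ∫ x in ann n 1, f (φ k) x ^ 2 ≤
          2 * (∫ x in ann n 1, F x ^ 2) + 2 * ∫ x in ann n 1, (f (φ k) x + (-1) * F x) ^ 2 := by
        rw [← integral_const_mul, ← integral_const_mul, ← integral_add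
          (hF.sq_int.integrableOn.const_mul 2) ((hlin k).sq_int.integrableOn.const_mul 2)]
        apply integral_mono (h (φ k)).sq_int.integrableOn
          ((hF.sq_int.integrableOn.const_mul 2).add ((hlin k).sq_int.integrableOn.const_mul 2))
        intro x
        show f (φ k) x ^ 2 ≤ 2 * F x ^ 2 + 2 * (f (φ k) x + (-1) * F x) ^ 2
        nlinarith [sq_nonneg (f (φ k) x - 2 * F x)]
      linarith
    have q3 := mul_le_mul_of_nonneg_left q2 hCε0.le
    have q4 : z / n * Ms (f (φ k)) ≤ ε₀ :=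
      (mul_le_mul_of_nonneg_left (hM (φ k)) (by positivity)).trans hn3
    rw [← hu (φ k)] at hsp
    have e7 : 7 * ε₀ = ε := by rw [hε₀]; ring
    linarith
  intro f' g' h' hM'
  exact key.trans (csInf_le hSb ⟨f', g', h', hM', rfl⟩)

end Pool.Agent.Helper26.Tf
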