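import Pool.Agent.Helper26.Tf.Contra

set_option autoImplicit false
set_option linter.unusedVariables false

namespace Pool.Agent.Helper26.Tf

open MeasureTheory Filter Topology Set Pool.Agent.TFDW
open scoped ENNReal NNReal ContDiff

/-- The main theorem for Sobolev functions with measurable representatives. -/
theorem main_abs : ∃ a₀ : ℝ, 0 < a₀ ∧ ∀ a : ℝ, 0 < a → a < a₀ → ∃ z₀ : ℝ, 0 < z₀ ∧
    ∀ z : ℝ, 0 < z → z < z₀ → ∃ lam : ℝ, z < lam ∧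
      (∃ f g, H1 f g ∧ Ms f = lam ∧
        ∀ u v, H1 u v → Ms u = lam → GG (a ^ 6) z f g ≤ GG (a ^ 6) z u v) ∧
      ∀ f g, H1 f g → Ms f = lam →
        (∀ u v, H1 u v → Ms u = lam → GG (a ^ 6) z f g ≤ GG (a ^ 6) z u v) →
        ¬ ∃ F : ℝ → ℝ, Antitone F ∧ (∀ r, 0 ≤ F r) ∧ f = fun x => F ‖x‖ := by
  obtain ⟨C₁, hC₁, hdl⟩ := dl_small
  obtain ⟨K, hK, hsm⟩ := small_mass
  obtain ⟨L, hL0, hL⟩ := ct_lip
  have hB := vB_pos
  set C₃ := 320 * (72 * C₁ + 532480 * L ^ 2) with hC₃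
  set C₄ := 160000 * C₁ with hC₄
  have hC₃0 : 0 < C₃ := by positivity
  have hC₄0 : 0 < C₄ := by positivity
  refine ⟨min 1 (min (1 / (C₄ ^ 3 * C₃ + 1)) (1 / (C₄ + 1))),
    lt_min one_pos (lt_min (by positivity) (by positivity)), ?_⟩
  intro a ha haa
  rw [lt_min_iff, lt_min_iff] at haa
  obtain ⟨ha1, ha2, ha3⟩ := haa
  set m₀ := vol (3 * a ^ 3 / 10) / 128 with hm₀
  have hm₀0 : 0 < m₀ := by
    have := vol_pos (show 0 < 3 * a ^ 3 / 10 by positivity)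
    positivity
  refine ⟨min (C₁ * a ^ 2) (min (a ^ 6 / (2 * K)) (min m₀ (m₀ / (576 * vB)))),
    lt_min (by positivity) (lt_min (by positivity) (lt_min hm₀0 (by positivity))), ?_⟩
  intro z hz hzz
  rw [lt_min_iff, lt_min_iff, lt_min_iff] at hzz
  obtain ⟨hz1, hz2, hz3, hz4⟩ := hzz
  have hA : 0 < a ^ 6 := by positivity
  have hd := hdl a ha ha1.le
  set δ := 2 * C₁ * a ^ 2 with hδ
  have hδ0 : 0 < δ := by positivity
  have hδ1 : δ < 1 / 80000 := by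
    rw [lt_div_iff₀ (by positivity)] at ha3 ⊢
    have h1 : a ^ 2 ≤ a := by nlinarith
    have h2 : C₁ * a ^ 2 ≤ C₁ * a := mul_le_mul_of_nonneg_left h1 hC₁.le
    rw [hδ]
    rw [hC₄] at ha3
    nlinarith
  have hdz : dl (a ^ 6) + z ≤ δ := by
    rw [hδ]
    linarith
  have hd13 : dl (a ^ 6) < 1 / 3 := by linarith
  have hzK : z * K ≤ a ^ 6 / 2 := by
    rw [lt_div_iff₀ (by positivity)] at hz2
    linarith
  obtain ⟨f₀, g₀, h₀, hneg⟩ := binding hA hz hd13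
  obtain ⟨F, G, hF, hMF, hmin⟩ := exists_min hA hz.le (Ms_nonneg f₀)
  have hnegF : GG (a ^ 6) z F G < 0 := lt_of_le_of_lt (hmin f₀ g₀ h₀ le_rfl) hneg
  have hsF := hsm a z ha hz hzK (by linarith) F G hF hnegF
  refine ⟨Ms F, lt_trans hz3 hsF.1, ⟨F, G, hF, rfl, fun u v hu hM =>
    hmin u v hu (hM.le.trans hMF)⟩, ?_⟩
  intro f g h hMf hminf
  rintro ⟨F', hF', hF0, hfF⟩
  have hfle : GG (a ^ 6) z f g ≤ GG (a ^ 6) z F G := hminf F G hF rfl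
  have hminf' : ∀ u v, H1 u v → Ms u ≤ Ms f → GG (a ^ 6) z f g ≤ GG (a ^ 6) z u v := by
    intro u v hu hM
    exact hfle.trans (hmin u v hu ((hM.trans hMf.le).trans hMF))
  obtain ⟨hm, hE⟩ := hsm a z ha hz hzK (by linarith) f g h (lt_of_le_of_lt hfle hnegF)
  have hMpos : 0 < Ms f := lt_trans hm₀0 hm
  have hDd := Dd_nonneg f
  have hWs := Ws_nonneg f
  have hTk := Tk_nonneg g
  have hE2 : a ^ 6 / 2 * Tk g + Ws f ≤ δ * Ms f := by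
    have := mul_le_mul_of_nonneg_right hdz hMpos.le
    linarith
  obtain ⟨ρ, hρ0, hρ, hM18, haρ⟩ := radius_lower h hF' hF0 hfF ha hδ0 hδ1 hMpos hE2
  have hvol : vol ρ = vB * ρ ^ 3 := rfl
  have hzρ : 128 * z ≤ 5 * ρ ^ 3 := by
    rw [lt_div_iff₀ (by positivity)] at hz4
    have h1 : m₀ < 18 * (vB * ρ ^ 3) := by
      rw [← hvol]
      exact lt_of_lt_of_le hm hM18
    have h2 : vB * (576 * z) < vB * (18 * ρ ^ 3) := by linarith
    have h3 := lt_of_mul_lt_mul_left h2 hB.le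
    have h4 : 0 < ρ ^ 3 := by positivity
    linarith
  have hτ : 0 < a ^ 2 / ρ := by positivity
  have hkey := var_key h hF' hF0 hfF hA hz.le hminf' hρ0 hρ hM18 hzρ hL hτ
  have hT : a ^ 6 * Tk g ≤ 72 * C₁ * vB * a ^ 2 * ρ ^ 3 := by
    have h1 : a ^ 6 / 2 * Tk g ≤ δ * (18 * vol ρ) := by
      have := mul_le_mul_of_nonneg_left hM18 hδ0.le
      linarith
    rw [hvol, hδ] at h1
    linarith
  have hub : a ^ 6 * (a ^ 2 / ρ * Tk g + (a ^ 2 / ρ)⁻¹ * (532480 * L ^ 2 * vB * ρ)) ≤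
      vB * (C₃ / 320) * a ^ 4 * ρ ^ 2 := by
    have e1 : a ^ 6 * (a ^ 2 / ρ * Tk g + (a ^ 2 / ρ)⁻¹ * (532480 * L ^ 2 * vB * ρ)) =
        a ^ 2 / ρ * (a ^ 6 * Tk g) + 532480 * L ^ 2 * vB * a ^ 4 * ρ ^ 2 := by
      field_simp
    rw [e1]
    have h2 := mul_le_mul_of_nonneg_left hT hτ.le
    have e2 : a ^ 2 / ρ * (72 * C₁ * vB * a ^ 2 * ρ ^ 3) = 72 * C₁ * vB * a ^ 4 * ρ ^ 2 := by
      field_simp
    rw [e2] at h2
    have e3 : vB * (C₃ / 320) * a ^ 4 * ρ ^ 2 = 72 * C₁ * vB * a ^ 4 * ρ ^ 2 +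
        532480 * L ^ 2 * vB * a ^ 4 * ρ ^ 2 := by
      rw [hC₃]
      ring
    rw [e3]
    linarith
  have hρ3 : ρ ^ 3 ≤ C₃ * a ^ 4 := by
    have h1 : (vB * ρ ^ 2 / 320) * ρ ^ 3 ≤ (vB * ρ ^ 2 / 320) * (C₃ * a ^ 4) := by
      calc (vB * ρ ^ 2 / 320) * ρ ^ 3 = vB * ρ ^ 5 / 320 := by ring
        _ ≤ vB * (C₃ / 320) * a ^ 4 * ρ ^ 2 := hkey.trans hub
        _ = _ := by ring
    exact le_of_mul_le_mul_left h1 (by positivity)
  have haC : a ≤ C₄ * ρ := by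
    have h1 : a ^ 2 * a ≤ a ^ 2 * (C₄ * ρ) := by
      calc a ^ 2 * a = a ^ 3 := by ring
        _ ≤ 80000 * δ * ρ := haρ
        _ = _ := by
          rw [hδ, hC₄]
          ring
    exact le_of_mul_le_mul_left h1 (by positivity)
  have h3 : a ^ 3 ≤ a ^ 3 * (C₄ ^ 3 * C₃ * a) := by
    calc a ^ 3 ≤ (C₄ * ρ) ^ 3 := pow_le_pow_left₀ ha.le haC 3
      _ = C₄ ^ 3 * ρ ^ 3 := by ring
      _ ≤ C₄ ^ 3 * (C₃ * a ^ 4) := mul_le_mul_of_nonneg_left hρ3 (by positivity)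
      _ = _ := by ring
  have h4 : a ^ 3 * 1 ≤ a ^ 3 * (C₄ ^ 3 * C₃ * a) := by rw [mul_one]; exact h3
  have h5 := le_of_mul_le_mul_left h4 (by positivity)
  rw [lt_div_iff₀ (by positivity)] at ha2
  nlinarith

end Pool.Agent.Helper26.Tf
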