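import Pool.Agent.Helper26.Tf.Weak

set_option autoImplicit false
set_option linter.unusedVariables false

namespace Pool.Agent.Helper26.Tf

open MeasureTheory Filter Topology Set Pool.Agent.TFDW
open scoped ENNReal NNReal ContDiff

variable {f : E3 → ℝ} {g : E3 → E3}

lemma H1.lin {f' : E3 → ℝ} {g' : E3 → E3} (h : H1 f g) (h' : H1 f' g') (c : ℝ) :
    H1 (fun x => f x + c * f' x) (fun x => g x + c • g' x) := by
  refine ⟨h.fm.add (h'.fm.const_mul c), h.gm.add (h'.gm.const_smul c),
    h.f2.add (h'.f2.const_mul c), h.g2.add (h'.g2.const_smul c), ?_⟩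
  intro φ hφ hφc v
  have hφd : Continuous fun x => fderiv ℝ φ x v :=
    (hφ.continuous_fderiv (by simp)).clm_apply continuous_const
  have m1 : MemLp (fun x => fderiv ℝ φ x v) 2 (volume : Measure E3) :=
    hφd.memLp_of_hasCompactSupport (hφc.fderiv_apply (𝕜 := ℝ) v)
  have m2 : MemLp φ 2 (volume : Measure E3) := hφ.continuous.memLp_of_hasCompactSupport hφc
  have e1 : ∫ x, (f x + c * f' x) * fderiv ℝ φ x v =
      (∫ x, f x * fderiv ℝ φ x v) + c * ∫ x, f' x * fderiv ℝ φ x v := by
    have j1 : Integrable (fun x => f x * fderiv ℝ φ x v) volume := h.f2.integrable_mul m1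
    have j2 : Integrable (fun x => f' x * fderiv ℝ φ x v) volume := h'.f2.integrable_mul m1
    rw [← integral_const_mul, ← integral_add j1 (j2.const_mul c)]
    apply integral_congr_ae
    filter_upwards with x
    ring
  have i1 : ∀ {G : E3 → E3}, MemLp G 2 (volume : Measure E3) →
      Integrable (fun x => inner ℝ (G x) v * φ x) volume := by
    intro G hG
    exact (hG.inner_const v).integrable_mul m2
  have e2 : ∫ x, inner ℝ (g x + c • g' x) v * φ x =
      (∫ x, inner ℝ (g x) v * φ x) + c * ∫ x, inner ℝ (g' x) v * φ x := by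
    rw [← integral_const_mul, ← integral_add (i1 h.g2) ((i1 h'.g2).const_mul c)]
    apply integral_congr_ae
    filter_upwards with x
    rw [inner_add_left, real_inner_smul_left]
    ring
  rw [e1, e2, h.weak φ hφ hφc v, h'.weak φ hφ hφc v]
  ring

lemma Ms_sub_le {f' : E3 → ℝ} {g' : E3 → E3} (h : H1 f g) (h' : H1 f' g') :
    Ms (fun x => f x + (-1) * f' x) ≤ 2 * (Ms f + Ms f') := by
  have e : 2 * (Ms f + Ms f') = ∫ x, 2 * (f x ^ 2 + f' x ^ 2) := by
    rw [integral_const_mul, integral_add h.sq_int h'.sq_int]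
    rfl
  rw [e]
  apply integral_mono (h.lin h' (-1)).sq_int ((h.sq_int.add h'.sq_int).const_mul 2)
  intro x
  show (f x + (-1) * f' x) ^ 2 ≤ 2 * (f x ^ 2 + f' x ^ 2)
  nlinarith [sq_nonneg (f x + f' x)]

lemma Tk_sub_le {f' : E3 → ℝ} {g' : E3 → E3} (h : H1 f g) (h' : H1 f' g') :
    Tk (fun x => g x + (-1 : ℝ) • g' x) ≤ 2 * (Tk g + Tk g') := by
  have e : 2 * (Tk g + Tk g') = ∫ x, 2 * (‖g x‖ ^ 2 + ‖g' x‖ ^ 2) := by
    rw [integral_const_mul, integral_add h.gsq_int h'.gsq_int]
    rfl
  rw [e]
  apply integral_mono (h.lin h' (-1)).gsq_int ((h.gsq_int.add h'.gsq_int).const_mul 2)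
  intro x
  show ‖g x + (-1 : ℝ) • g' x‖ ^ 2 ≤ 2 * (‖g x‖ ^ 2 + ‖g' x‖ ^ 2)
  have h1 : ‖g x + (-1 : ℝ) • g' x‖ ≤ ‖g x‖ + ‖g' x‖ := by
    refine (norm_add_le _ _).trans ?_
    rw [norm_smul]
    simp
  have h2 := pow_le_pow_left₀ (norm_nonneg _) h1 2
  nlinarith [sq_nonneg (‖g x‖ - ‖g' x‖)]

/-- Cauchy Schwarz on a set of finite measure -/
lemma cs_set {S : Set E3} {v : ℝ} (hv : 0 < v) (hS : (volume : Measure E3).real S = v)
    {φ : E3 → ℝ} (h2 : IntegrableOn (fun x => φ x ^ 2) S volume) (h1 : IntegrableOn φ S volume) :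
    (∫ x in S, φ x) ^ 2 ≤ v * ∫ x in S, φ x ^ 2 := by
  set I := ∫ x in S, φ x with hI
  set c := I / v with hc
  have hfin : (volume : Measure E3) S ≠ ⊤ := by
    intro ht
    rw [Measure.real, ht] at hS
    simp at hS
    linarith
  have i0 : IntegrableOn (fun _ : E3 => c ^ 2) S volume := integrableOn_const (hs := hfin)
  have h3 : 0 ≤ ∫ x in S, (φ x - c) ^ 2 := integral_nonneg fun x => sq_nonneg _
  have h4 : ∫ x in S, (φ x - c) ^ 2 = (∫ x in S, φ x ^ 2) - 2 * c * I + c ^ 2 * v := by
    have e : ∀ x, (φ x - c) ^ 2 = φ x ^ 2 - 2 * c * φ x + c ^ 2 := fun x => by ring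
    have j1 : IntegrableOn (fun x => φ x ^ 2 - 2 * c * φ x) S volume :=
      h2.sub (h1.const_mul (2 * c))
    simp only [e]
    rw [integral_add j1 i0, integral_sub h2 (h1.const_mul (2 * c)),
      integral_const_mul, setIntegral_const, hS, smul_eq_mul]
    ring
  rw [h4] at h3
  have h5 : c * v = I := by
    rw [hc]
    field_simp
  have h6 : 0 ≤ v * ((∫ x in S, φ x ^ 2) - 2 * c * I + c ^ 2 * v) := mul_nonneg hv.le h3
  nlinarith

lemma ball_real (x : E3) {r : ℝ} (hr : 0 < r) :
    (volume : Measure E3).real (Metric.ball x r) = vol r := by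
  rw [Measure.real, volume_ball' x hr.le, ENNReal.toReal_ofReal (vol_pos hr).le]

/-- ball average -/
noncomputable def av (u : E3 → ℝ) (r : ℝ) (x : E3) : ℝ :=
  (vol r)⁻¹ * ∫ a in Metric.ball (0 : E3) r, u (x + a)

lemma H1.ball_int (h : H1 f g) (x : E3) (r : ℝ) :
    IntegrableOn (fun a => f (x + a)) (Metric.ball (0 : E3) r) volume := by
  have hmp : MeasurePreserving (fun a : E3 => x + a) volume volume :=
    measurePreserving_add_left volume x
  have h1 : MemLp (fun a => f (x + a)) 2 volume := h.f2.comp_measurePreserving hmp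
  exact (h1.locallyIntegrable (by norm_num)).integrableOn_isCompact
    (isCompact_closedBall 0 r) |>.mono_set Metric.ball_subset_closedBall

lemma H1.ball_int2 (h : H1 f g) (x : E3) (r : ℝ) :
    IntegrableOn (fun a => f (x + a) ^ 2) (Metric.ball (0 : E3) r) volume := by
  have hmp : MeasurePreserving (fun a : E3 => x + a) volume volume :=
    measurePreserving_add_left volume x
  have h1 : MemLp (fun a => f (x + a)) 2 volume := h.f2.comp_measurePreserving hmp
  exact h1.integrable_sq.integrableOn

lemma av_meas (h : H1 f g) (r : ℝ) : StronglyMeasurable (av f r) := by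
  unfold av
  have h1 : Measurable (Function.uncurry fun x a : E3 => f (x + a)) := shift_meas h.fm
  exact (h1.stronglyMeasurable.integral_prod_right).const_mul _

lemma av_sq_le (h : H1 f g) {r : ℝ} (hr : 0 < r) (x : E3) : av f r x ^ 2 ≤ Ms f / vol r := by
  have hv := vol_pos hr
  have h1 := cs_set hv (ball_real 0 hr) (h.ball_int2 x r) (h.ball_int x r)
  have h2 : ∫ a in Metric.ball (0 : E3) r, f (x + a) ^ 2 ≤ Ms f := by
    have hmp : MeasurePreserving (fun a : E3 => x + a) volume volume :=
      measurePreserving_add_left volume x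
    have h3 : MemLp (fun a => f (x + a)) 2 volume := h.f2.comp_measurePreserving hmp
    calc ∫ a in Metric.ball (0 : E3) r, f (x + a) ^ 2 ≤ ∫ a, f (x + a) ^ 2 :=
          setIntegral_le_integral h3.integrable_sq (Eventually.of_forall fun y => sq_nonneg _)
      _ = Ms f := integral_add_left_eq_self (μ := (volume : Measure E3)) (fun a => f a ^ 2) x
  unfold av
  rw [mul_pow, le_div_iff₀ hv]
  calc (vol r)⁻¹ ^ 2 * (∫ a in Metric.ball (0 : E3) r, f (x + a)) ^ 2 * vol r ≤
        (vol r)⁻¹ ^ 2 * (vol r * Ms f) * vol r := by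
        apply mul_le_mul_of_nonneg_right _ hv.le
        apply mul_le_mul_of_nonneg_left _ (by positivity)
        exact h1.trans (mul_le_mul_of_nonneg_left h2 hv.le)
    _ = Ms f := by
        field_simp

lemma av_close (h : H1 f g) {r : ℝ} (hr : 0 < r) :
    ∫⁻ x, ENNReal.ofReal ((f x - av f r x) ^ 2) ≤ ENNReal.ofReal (r ^ 2 * Tk g) := by
  have hv := vol_pos hr
  have hT := Tk_nonneg g
  have hpt : ∀ x, ENNReal.ofReal ((f x - av f r x) ^ 2) ≤ ENNReal.ofReal ((vol r)⁻¹) *
      ∫⁻ a in Metric.ball (0 : E3) r, ENNReal.ofReal ((f (x + a) - f x) ^ 2) := by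
    intro x
    have i1 : IntegrableOn (fun a => f (x + a) - f x) (Metric.ball (0 : E3) r) volume :=
      (h.ball_int x r).sub (integrableOn_const (hs := measure_ball_lt_top.ne))
    have i2 : IntegrableOn (fun a => (f (x + a) - f x) ^ 2) (Metric.ball (0 : E3) r) volume := by
      have e : ∀ a, (f (x + a) - f x) ^ 2 = f (x + a) ^ 2 - 2 * f x * f (x + a) + f x ^ 2 :=
        fun a => by ring
      simp only [e]
      exact ((h.ball_int2 x r).sub ((h.ball_int x r).const_mul _)).add
        (integrableOn_const (hs := measure_ball_lt_top.ne))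
    have h1 := cs_set hv (ball_real 0 hr) i2 i1
    have h2 : ∫ a in Metric.ball (0 : E3) r, (f (x + a) - f x) = vol r * (av f r x - f x) := by
      rw [integral_sub (h.ball_int x r) (integrableOn_const (hs := measure_ball_lt_top.ne)),
        setIntegral_const, ball_real 0 hr, smul_eq_mul]
      unfold av
      field_simp
    rw [h2] at h1
    have h3 : (f x - av f r x) ^ 2 ≤
        (vol r)⁻¹ * ∫ a in Metric.ball (0 : E3) r, (f (x + a) - f x) ^ 2 := by
      rw [← div_eq_inv_mul, le_div_iff₀ hv]
      have h4 : vol r * ((f x - av f r x) ^ 2 * vol r) ≤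
          vol r * ∫ a in Metric.ball (0 : E3) r, (f (x + a) - f x) ^ 2 := by
        calc vol r * ((f x - av f r x) ^ 2 * vol r) = (vol r * (av f r x - f x)) ^ 2 := by ring
          _ ≤ _ := h1
      exact le_of_mul_le_mul_left h4 hv
    rw [← ofReal_integral_eq_lintegral_ofReal i2 (Eventually.of_forall fun y => sq_nonneg _),
      ← ENNReal.ofReal_mul (by positivity)]
    exact ENNReal.ofReal_le_ofReal h3
  have hsm := shift_meas h.fm
  have hm1 : Measurable fun q : E3 × E3 => ENNReal.ofReal ((f (q.1 + q.2) - f q.1) ^ 2) :=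
    ((hsm.sub (h.fm.comp measurable_fst)).pow_const 2).ennreal_ofReal
  calc ∫⁻ x, ENNReal.ofReal ((f x - av f r x) ^ 2) ≤ ∫⁻ x, ENNReal.ofReal ((vol r)⁻¹) *
        ∫⁻ a in Metric.ball (0 : E3) r, ENNReal.ofReal ((f (x + a) - f x) ^ 2) :=
        lintegral_mono hpt
    _ = ENNReal.ofReal ((vol r)⁻¹) * ∫⁻ a in Metric.ball (0 : E3) r, ∫⁻ x,
        ENNReal.ofReal ((f (x + a) - f x) ^ 2) := by
        rw [lintegral_const_mul' _ _ ENNReal.ofReal_ne_top,
          lintegral_lintegral_swap (f := fun x a => ENNReal.ofReal ((f (x + a) - f x) ^ 2))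
            hm1.aemeasurable]
    _ ≤ ENNReal.ofReal ((vol r)⁻¹) * ∫⁻ a in Metric.ball (0 : E3) r,
        ENNReal.ofReal (r ^ 2 * Tk g) := by
        gcongr ENNReal.ofReal ((vol r)⁻¹) * ?_
        apply setLIntegral_mono' measurableSet_ball
        intro a ha
        refine (h.shift a).trans (ENNReal.ofReal_le_ofReal ?_)
        have h2 : ‖a‖ < r := by simpa using ha
        exact mul_le_mul_of_nonneg_right (pow_le_pow_left₀ (norm_nonneg _) h2.le 2) hT
    _ = ENNReal.ofReal (r ^ 2 * Tk g) := by
        rw [setLIntegral_const, volume_ball' 0 hr.le, mul_comm (ENNReal.ofReal (r ^ 2 * Tk g)),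
          ← mul_assoc, ← ENNReal.ofReal_mul (by positivity), inv_mul_cancel₀ hv.ne']
        simp

/-- Weak convergence to zero implies local strong convergence for bounded Sobolev sequences. -/
lemma loc_conv (u : ℕ → E3 → ℝ) (w : ℕ → E3 → E3) (h : ∀ n, H1 (u n) (w n)) (C : ℝ)
    (hM : ∀ n, Ms (u n) ≤ C) (hT : ∀ n, Tk (w n) ≤ C)
    (h0 : ∀ ψ : E3 → ℝ, MemLp ψ 2 (volume : Measure E3) →
      Tendsto (fun n => ∫ x, u n x * ψ x) atTop (𝓝 0)) (R : ℝ) :
    Tendsto (fun n => ∫ x in Metric.ball (0 : E3) R, u n x ^ 2) atTop (𝓝 0) := by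
  have hC : 0 ≤ C := (Ms_nonneg _).trans (hM 0)
  -- averages converge
  have hav : ∀ r : ℝ, 0 < r →
      Tendsto (fun n => ∫ x in Metric.ball (0 : E3) R, av (u n) r x ^ 2) atTop (𝓝 0) := by
    intro r hr
    have hv := vol_pos hr
    have hpt : ∀ x, Tendsto (fun n => av (u n) r x) atTop (𝓝 0) := by
      intro x
      have m1 : MemLp ((Metric.ball x r).indicator (fun _ => (1 : ℝ))) 2
          (volume : Measure E3) :=
        memLp_indicator_const 2 measurableSet_ball 1 (Or.inr measure_ball_lt_top.ne)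
      have h1 := (h0 _ m1).const_mul ((vol r)⁻¹)
      rw [mul_zero] at h1
      refine h1.congr fun n => ?_
      unfold av
      congr 1
      have e1 : ∀ y, u n y * (Metric.ball x r).indicator (fun _ => (1 : ℝ)) y =
          (Metric.ball x r).indicator (u n) y := by
        intro y
        by_cases hy : y ∈ Metric.ball x r
        · rw [indicator_of_mem hy, indicator_of_mem hy, mul_one]
        · rw [indicator_of_notMem hy, indicator_of_notMem hy, mul_zero]
      simp only [e1]
      rw [← integral_indicator measurableSet_ball,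
        ← integral_add_left_eq_self (fun y => (Metric.ball x r).indicator (u n) y) x]
      apply integral_congr_ae
      filter_upwards with a
      by_cases ha : a ∈ Metric.ball (0 : E3) r
      · have : x + a ∈ Metric.ball x r := by simpa using ha
        rw [indicator_of_mem ha, indicator_of_mem this]
      · have : x + a ∉ Metric.ball x r := by simpa using ha
        rw [indicator_of_notMem ha, indicator_of_notMem this]
    have hlim := tendsto_integral_of_dominated_convergence
      (μ := (volume : Measure E3).restrict (Metric.ball (0 : E3) R))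
      (F := fun n x => av (u n) r x ^ 2) (f := fun _ => (0 : ℝ)) (fun _ => C / vol r)
      (fun n => ((av_meas (h n) r).pow 2).aestronglyMeasurable)
      (integrableOn_const (hs := measure_ball_lt_top.ne))
      (fun n => Eventually.of_forall fun x => by
        rw [Real.norm_of_nonneg (sq_nonneg _)]
        exact (av_sq_le (h n) hr x).trans (div_le_div_of_nonneg_right (hM n) hv.le))
      (Eventually.of_forall fun x => by
        have := (hpt x).pow 2
        simpa using this)
    simpa using hlim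
  rw [Metric.tendsto_atTop]
  intro ε hε
  obtain ⟨r, hr, hrε⟩ : ∃ r : ℝ, 0 < r ∧ 2 * (r ^ 2 * C) < ε / 2 := by
    refine ⟨min 1 (ε / (4 * (C + 1)) / 2), lt_min one_pos (by positivity), ?_⟩
    set s := min 1 (ε / (4 * (C + 1)) / 2) with hs
    have hs0 : 0 < s := lt_min one_pos (by positivity)
    have hs1 : s ≤ 1 := min_le_left _ _
    have hs2 : s ≤ ε / (4 * (C + 1)) / 2 := min_le_right _ _
    have hs3 : s ^ 2 ≤ s := by nlinarith
    have hs4 : s * (C + 1) ≤ ε / 8 := by
      have := mul_le_mul_of_nonneg_right hs2 (by positivity : 0 ≤ C + 1)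
      have e : ε / (4 * (C + 1)) / 2 * (C + 1) = ε / 8 := by
        field_simp
        ring
      linarith
    nlinarith
  obtain ⟨N, hN⟩ := (Metric.tendsto_atTop.1 (hav r hr)) (ε / 4) (by positivity)
  refine ⟨N, fun n hn => ?_⟩
  have h1 := hN n hn
  have hv := vol_pos hr
  rw [Real.dist_eq, sub_zero, abs_of_nonneg (integral_nonneg fun x => sq_nonneg _)] at h1 ⊢
  have hd := av_close (h n) hr
  have hdm : Measurable fun x => (u n x - av (u n) r x) ^ 2 :=
    ((h n).fm.sub (av_meas (h n) r).measurable).pow_const 2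
  have hdi : Integrable (fun x => (u n x - av (u n) r x) ^ 2) (volume : Measure E3) := by
    refine ⟨hdm.aestronglyMeasurable, ?_⟩
    rw [hasFiniteIntegral_iff_ofReal (Eventually.of_forall fun x => sq_nonneg _)]
    exact lt_of_le_of_lt hd ENNReal.ofReal_lt_top
  rw [← ofReal_integral_eq_lintegral_ofReal hdi (Eventually.of_forall fun x => sq_nonneg _),
    ENNReal.ofReal_le_ofReal_iff (mul_nonneg (sq_nonneg _) (Tk_nonneg _))] at hd
  have hai : IntegrableOn (fun x => av (u n) r x ^ 2) (Metric.ball (0 : E3) R) volume := by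
    have hdom : IntegrableOn (fun _ : E3 => Ms (u n) / vol r) (Metric.ball (0 : E3) R) volume :=
      integrableOn_const (hs := measure_ball_lt_top.ne)
    refine Integrable.mono' hdom ((av_meas (h n) r).pow 2).aestronglyMeasurable ?_
    filter_upwards with x
    rw [Real.norm_of_nonneg (sq_nonneg _)]
    exact av_sq_le (h n) hr x
  calc ∫ x in Metric.ball (0 : E3) R, u n x ^ 2
      ≤ ∫ x in Metric.ball (0 : E3) R, (2 * (u n x - av (u n) r x) ^ 2 + 2 * av (u n) r x ^ 2) := by
        apply integral_mono (h n).sq_int.integrableOn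
          ((hdi.integrableOn.const_mul 2).add (hai.const_mul 2))
        intro x
        show u n x ^ 2 ≤ 2 * (u n x - av (u n) r x) ^ 2 + 2 * av (u n) r x ^ 2
        nlinarith [sq_nonneg (u n x - 2 * av (u n) r x)]
    _ = 2 * (∫ x in Metric.ball (0 : E3) R, (u n x - av (u n) r x) ^ 2) +
          2 * ∫ x in Metric.ball (0 : E3) R, av (u n) r x ^ 2 := by
        rw [integral_add (hdi.integrableOn.const_mul 2) (hai.const_mul 2), integral_const_mul,
          integral_const_mul]
    _ ≤ 2 * (r ^ 2 * C) + 2 * ∫ x in Metric.ball (0 : E3) R, av (u n) r x ^ 2 := by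
        have h2 : ∫ x in Metric.ball (0 : E3) R, (u n x - av (u n) r x) ^ 2 ≤ r ^ 2 * C := by
          refine (setIntegral_le_integral hdi (Eventually.of_forall fun x => sq_nonneg _)).trans ?_
          exact hd.trans (mul_le_mul_of_nonneg_left (hT n) (sq_nonneg _))
        linarith
    _ < ε := by linarith

end Pool.Agent.Helper26.Tf
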