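import Pool.Agent.Helper26.Tf.Exist2
import Pool.Graph.R_pool_sql_team_668148b0.Helper551.Newton

set_option autoImplicit false
set_option linter.unusedVariables false

namespace Pool.Agent.Helper26.Tf

open MeasureTheory Filter Topology Set Pool.Agent.TFDW
open scoped ENNReal NNReal ContDiff

open Pool.Agent.Helper551 (Phi Phi_eq newt locInt)

lemma newt_anti {R a b : ℝ} (hR : 0 ≤ R) (ha : 0 ≤ a) (hab : a ≤ b) : newt R b ≤ newt R a := by
  have hpi := Real.pi_pos
  unfold newt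
  by_cases hb : b ≤ R
  · rw [if_pos hb, if_pos (hab.trans hb)]
    have : a ^ 2 ≤ b ^ 2 := pow_le_pow_left₀ ha hab 2
    have := mul_le_mul_of_nonneg_left this (by positivity : 0 ≤ 2 * Real.pi / 3)
    linarith
  · rw [if_neg hb]
    push Not at hb
    by_cases haR : a ≤ R
    · rw [if_pos haR]
      have hb0 : 0 < b := lt_of_le_of_lt hR hb
      have h1 : 4 * Real.pi / 3 * R ^ 3 / b ≤ 4 * Real.pi / 3 * R ^ 2 := by
        rw [div_le_iff₀ hb0]
        have : R ^ 3 ≤ R ^ 2 * b := by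
          have := mul_le_mul_of_nonneg_left hb.le (sq_nonneg R)
          nlinarith
        calc 4 * Real.pi / 3 * R ^ 3 ≤ 4 * Real.pi / 3 * (R ^ 2 * b) :=
              mul_le_mul_of_nonneg_left this (by positivity)
          _ = _ := by ring
      have h2 : a ^ 2 ≤ R ^ 2 := pow_le_pow_left₀ ha haR 2
      have h3 := mul_le_mul_of_nonneg_left h2 (by positivity : 0 ≤ 2 * Real.pi / 3)
      linarith
    · rw [if_neg haR]
      push Not at haR
      exact div_le_div_of_nonneg_left (by positivity) (lt_of_le_of_lt hR haR) hab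

lemma newt_diff {R a b : ℝ} (hab : a ≤ b) (hb : b ≤ R) :
    newt R a = newt R b + 2 * Real.pi / 3 * (b ^ 2 - a ^ 2) := by
  unfold newt
  rw [if_pos hb, if_pos (hab.trans hb)]
  ring

/-- superlevel sets of decreasing radial functions are balls -/
lemma level_ball {F : ℝ → ℝ} (hF : Antitone F) (hF0 : ∀ r, 0 ≤ F r) {t : ℝ}
    (hfin : (volume : Measure E3) {y | t < F ‖y‖ ^ 2} < ⊤) :
    ∃ R : ℝ, 0 ≤ R ∧ {y : E3 | t < F ‖y‖ ^ 2} =ᵐ[volume] Metric.ball (0 : E3) R ∧
      ∀ s, 0 ≤ s → t < F s ^ 2 → s ≤ R := by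
  have hmono : ∀ {a b : ℝ}, a ≤ b → t < F b ^ 2 → t < F a ^ 2 := by
    intro a b hab hb
    exact lt_of_lt_of_le hb (pow_le_pow_left₀ (hF0 b) (hF hab) 2)
  set S : Set ℝ := {s | 0 ≤ s ∧ t < F s ^ 2} with hS
  rcases S.eq_empty_or_nonempty with he | hne
  · refine ⟨0, le_rfl, ?_, ?_⟩
    · have : {y : E3 | t < F ‖y‖ ^ 2} = ∅ := by
        rw [eq_empty_iff_forall_notMem]
        intro y hy
        have : ‖y‖ ∈ S := ⟨norm_nonneg y, hy⟩
        rw [he] at this
        exact this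
      rw [this, Metric.ball_zero]
    · intro s hs hts
      have : s ∈ S := ⟨hs, hts⟩
      rw [he] at this
      exact this.elim
  · have hbdd : BddAbove S := by
      by_contra hnb
      have hall : ∀ y : E3, t < F ‖y‖ ^ 2 := by
        intro y
        rw [not_bddAbove_iff] at hnb
        obtain ⟨s, hs, hys⟩ := hnb ‖y‖
        exact hmono hys.le hs.2
      have : {y : E3 | t < F ‖y‖ ^ 2} = univ := eq_univ_of_forall hall
      rw [this] at hfin
      have h2 : (volume : Measure E3) univ = ⊤ := measure_univ_of_isAddLeftInvariant volume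
      rw [h2] at hfin
      exact lt_irrefl _ hfin
    obtain ⟨s0, hs0⟩ := hne
    have hR0 : 0 ≤ sSup S := hs0.1.trans (le_csSup hbdd hs0)
    refine ⟨sSup S, hR0, ?_, fun s hs hts => le_csSup hbdd ⟨hs, hts⟩⟩
    have h1 : Metric.ball (0 : E3) (sSup S) ⊆ {y : E3 | t < F ‖y‖ ^ 2} := by
      intro y hy
      have hy' : ‖y‖ < sSup S := by simpa using hy
      obtain ⟨s, hs, hys⟩ := exists_lt_of_lt_csSup ⟨s0, hs0⟩ hy'
      exact hmono hys.le hs.2
    have h2 : {y : E3 | t < F ‖y‖ ^ 2} ⊆ Metric.closedBall (0 : E3) (sSup S) := by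
      intro y hy
      have : ‖y‖ ≤ sSup S := le_csSup hbdd ⟨norm_nonneg y, hy⟩
      simpa using this
    have h3 : Metric.closedBall (0 : E3) (sSup S) =ᵐ[volume] Metric.ball (0 : E3) (sSup S) := by
      refine (ae_eq_of_subset_of_measure_ge Metric.ball_subset_closedBall ?_
        measurableSet_ball.nullMeasurableSet ?_).symm
      · rw [volume_closedBall' 0 hR0, volume_ball' 0 hR0]
      · exact measure_closedBall_lt_top.ne
    exact Filter.EventuallyLE.antisymm
      ((HasSubset.Subset.eventuallyLE h2).trans h3.le) (HasSubset.Subset.eventuallyLE h1)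

/-- the potential of a level set -/
noncomputable def lev (f : E3 → ℝ) (x : E3) (t : ℝ) : ℝ≥0∞ :=
  ∫⁻ y, (if t < f y ^ 2 then ENNReal.ofReal (‖y - x‖⁻¹) else 0)

lemma layer {f : E3 → ℝ} {g : E3 → E3} (h : H1 f g) (x : E3) :
    ENNReal.ofReal (Ph f x) = ∫⁻ t in Ioi (0 : ℝ), lev f x t := by
  unfold Ph lev
  rw [ofReal_integral_eq_lintegral_ofReal (h.pot_int x)
    (Eventually.of_forall fun y => by positivity)]
  have hm : Measurable fun q : ℝ × E3 =>
      (if q.1 < f q.2 ^ 2 then ENNReal.ofReal (‖q.2 - x‖⁻¹) else 0 : ℝ≥0∞) := by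
    apply Measurable.ite
    · exact measurableSet_lt measurable_fst ((h.fm.comp measurable_snd).pow_const 2)
    · exact ((measurable_snd.sub_const x).norm.inv).ennreal_ofReal
    · exact measurable_const
  rw [lintegral_lintegral_swap (f := fun (t : ℝ) (y : E3) =>
    (if t < f y ^ 2 then ENNReal.ofReal (‖y - x‖⁻¹) else 0 : ℝ≥0∞)) hm.aemeasurable]
  apply lintegral_congr
  intro y
  have e1 : ∀ t : ℝ, (if t < f y ^ 2 then ENNReal.ofReal (‖y - x‖⁻¹) else 0 : ℝ≥0∞) =
      (Iio (f y ^ 2)).indicator (fun _ => ENNReal.ofReal (‖y - x‖⁻¹)) t := by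
    intro t
    by_cases ht : t < f y ^ 2
    · rw [if_pos ht, indicator_of_mem (show t ∈ Iio (f y ^ 2) from ht)]
    · rw [if_neg ht, indicator_of_notMem (show t ∉ Iio (f y ^ 2) from ht)]
  simp only [e1]
  rw [lintegral_indicator_const measurableSet_Iio, Measure.restrict_apply measurableSet_Iio,
    Iio_inter_Ioi, Real.volume_Ioo, sub_zero, ← ENNReal.ofReal_mul (by positivity)]
  congr 1
  rw [div_eq_inv_mul]

lemma lev_eq {f : E3 → ℝ} {g : E3 → E3} (h : H1 f g) {F : ℝ → ℝ} (hF : Antitone F)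
    (hF0 : ∀ r, 0 ≤ F r) (hf : f = fun x => F ‖x‖) {t : ℝ} (ht : 0 < t) :
    ∃ R : ℝ, 0 ≤ R ∧ (∀ x, lev f x t = ENNReal.ofReal (newt R ‖x‖)) ∧
      ∀ s, 0 ≤ s → t < F s ^ 2 → s ≤ R := by
  have hfin : (volume : Measure E3) {y | t < F ‖y‖ ^ 2} < ⊤ := by
    have h1 := mul_meas_ge_le_lintegral₀ (μ := (volume : Measure E3))
      (f := fun x => ENNReal.ofReal (f x ^ 2)) (h.fm.pow_const 2).ennreal_ofReal.aemeasurable
      (ENNReal.ofReal t)
    have h2 : ∫⁻ x, ENNReal.ofReal (f x ^ 2) < ⊤ := by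
      rw [← ofReal_integral_eq_lintegral_ofReal h.sq_int (Eventually.of_forall fun x => sq_nonneg _)]
      exact ENNReal.ofReal_lt_top
    have h3 := lt_of_le_of_lt h1 h2
    have h4 : (volume : Measure E3) {y | t < F ‖y‖ ^ 2} ≤
        (volume : Measure E3) {x | ENNReal.ofReal t ≤ ENNReal.ofReal (f x ^ 2)} := by
      apply measure_mono
      intro y hy
      have : t < F ‖y‖ ^ 2 := hy
      show ENNReal.ofReal t ≤ ENNReal.ofReal (f y ^ 2)
      apply ENNReal.ofReal_le_ofReal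
      rw [hf]
      exact this.le
    refine lt_of_le_of_lt h4 ?_
    by_contra hc
    push Not at hc
    rw [top_le_iff] at hc
    rw [hc, ENNReal.mul_top (by simpa using ht)] at h3
    exact lt_irrefl _ h3
  obtain ⟨R, hR0, hR, hs⟩ := level_ball hF hF0 hfin
  refine ⟨R, hR0, fun x => ?_, hs⟩
  rw [← Phi_eq R hR0 x]
  unfold Phi lev
  rw [ofReal_integral_eq_lintegral_ofReal (locInt x R 0) (Eventually.of_forall fun y => by
    positivity)]
  rw [← lintegral_indicator measurableSet_ball]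
  apply lintegral_congr_ae
  filter_upwards [hR.mem_iff] with y hy
  have hyy : t < f y ^ 2 ↔ y ∈ Metric.ball (0 : E3) R := by
    rw [hf]
    exact hy
  by_cases hb : y ∈ Metric.ball (0 : E3) R
  · rw [if_pos (hyy.2 hb), indicator_of_mem hb, norm_sub_rev]
  · rw [if_neg (fun hc => hb (hyy.1 hc)), indicator_of_notMem hb]

/-- Newton type inequality for the potential of a decreasing radial function. -/
theorem pot_diff {f : E3 → ℝ} {g : E3 → E3} (h : H1 f g) {F : ℝ → ℝ} (hF : Antitone F)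
    (hF0 : ∀ r, 0 ≤ F r) (hf : f = fun x => F ‖x‖) {c s : ℝ} (hc : 0 ≤ c) (hcs : c ≤ F s ^ 2)
    {x x' : E3} (h1 : ‖x‖ ≤ ‖x'‖) (h2 : ‖x'‖ ≤ s) :
    Ph f x' + c * (2 * Real.pi / 3 * (‖x'‖ ^ 2 - ‖x‖ ^ 2)) ≤ Ph f x := by
  have hpi := Real.pi_pos
  set κ := 2 * Real.pi / 3 * (‖x'‖ ^ 2 - ‖x‖ ^ 2) with hκ
  have hκ0 : 0 ≤ κ := by
    have : ‖x‖ ^ 2 ≤ ‖x'‖ ^ 2 := pow_le_pow_left₀ (norm_nonneg _) h1 2
    have h3 : 0 ≤ ‖x'‖ ^ 2 - ‖x‖ ^ 2 := by linarith
    positivity
  have hpt : ∀ t ∈ Ioi (0 : ℝ), lev f x' t + (Iio c).indicator (fun _ => ENNReal.ofReal κ) t ≤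
      lev f x t := by
    intro t ht
    obtain ⟨R, hR0, hR, hs⟩ := lev_eq h hF hF0 hf ht
    rw [hR x, hR x']
    have hn : 0 ≤ newt R ‖x'‖ := by
      unfold newt
      have := norm_nonneg x'
      split_ifs with hc
      · have h4 : ‖x'‖ ^ 2 ≤ R ^ 2 := pow_le_pow_left₀ (norm_nonneg _) hc 2
        have h5 := mul_le_mul_of_nonneg_left h4 (by positivity : 0 ≤ 2 * Real.pi / 3)
        have h6 : 0 ≤ Real.pi * R ^ 2 := by positivity
        linarith
      · positivity
    by_cases htc : t < c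
    · rw [indicator_of_mem (show t ∈ Iio c from htc), ← ENNReal.ofReal_add hn hκ0]
      apply ENNReal.ofReal_le_ofReal
      have hs0 : 0 ≤ s := (norm_nonneg x').trans h2
      have hsR := hs s hs0 (lt_of_lt_of_le htc hcs)
      rw [newt_diff h1 (h2.trans hsR)]
    · rw [indicator_of_notMem (show t ∉ Iio c from htc), add_zero]
      exact ENNReal.ofReal_le_ofReal (newt_anti hR0 (norm_nonneg _) h1)
  have hint : ∫⁻ t in Ioi (0 : ℝ), (Iio c).indicator (fun _ => ENNReal.ofReal κ) t =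
      ENNReal.ofReal (c * κ) := by
    rw [lintegral_indicator_const measurableSet_Iio, Measure.restrict_apply measurableSet_Iio,
      Iio_inter_Ioi, Real.volume_Ioo, sub_zero, ← ENNReal.ofReal_mul hκ0, mul_comm]
  have h3 : ENNReal.ofReal (Ph f x') + ENNReal.ofReal (c * κ) ≤ ENNReal.ofReal (Ph f x) := by
    rw [layer h x, layer h x', ← hint, ← lintegral_add_right _
      (measurable_const.indicator measurableSet_Iio)]
    exact setLIntegral_mono' measurableSet_Ioi hpt
  rw [← ENNReal.ofReal_add (Ph_nonneg _ _) (by positivity),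
    ENNReal.ofReal_le_ofReal_iff (Ph_nonneg _ _)] at h3
  exact h3

end Pool.Agent.Helper26.Tf
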