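import Pool.Agent.Helper26.Tf.Newt

set_option autoImplicit false
set_option linter.unusedVariables false

namespace Pool.Agent.Helper26.Tf

open MeasureTheory Filter Topology Set Pool.Agent.TFDW
open scoped ENNReal NNReal ContDiff

variable {f : E3 → ℝ} {g : E3 → E3} {F : ℝ → ℝ}

/-- the radius of a superlevel set -/
lemma radius (h : H1 f g) (hF : Antitone F) (hf : f = fun x => F ‖x‖) {c : ℝ} (hc : 0 < c) :
    ∃ r : ℝ, 0 ≤ r ∧ (∀ s, 0 ≤ s → s < r → c ≤ F s) ∧ ∀ s, r < s → F s < c := by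
  set S : Set ℝ := {s | 0 ≤ s ∧ c ≤ F s} with hS
  rcases S.eq_empty_or_nonempty with he | hne
  · refine ⟨0, le_rfl, fun s h0 h1 => absurd h1 (not_lt.2 h0), fun s hs => ?_⟩
    by_contra hcc
    push Not at hcc
    have : s ∈ S := ⟨hs.le, hcc⟩
    rw [he] at this
    exact this
  · have hbdd : BddAbove S := by
      by_contra hnb
      have hall : ∀ y : E3, c ≤ f y := by
        intro y
        rw [not_bddAbove_iff] at hnb
        obtain ⟨s, hs, hys⟩ := hnb ‖y‖
        rw [hf]
        exact hs.2.trans (hF hys.le)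
      have h1 : Integrable (fun _ : E3 => c ^ 2) (volume : Measure E3) := by
        refine Integrable.mono' h.sq_int aestronglyMeasurable_const ?_
        filter_upwards with x
        rw [Real.norm_of_nonneg (sq_nonneg _)]
        exact pow_le_pow_left₀ hc.le (hall x) 2
      rw [integrable_const_iff] at h1
      rcases h1 with h1 | h1
      · have : c ^ 2 ≠ 0 := by positivity
        exact this h1
      · have h2 : (volume : Measure E3) univ = ⊤ := measure_univ_of_isAddLeftInvariant volume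
        have h3 := h1.measure_univ_lt_top
        rw [h2] at h3
        exact lt_irrefl _ h3
    obtain ⟨s0, hs0⟩ := hne
    refine ⟨sSup S, hs0.1.trans (le_csSup hbdd hs0), ?_, ?_⟩
    · intro s h0 hs
      obtain ⟨s', hs', hss⟩ := exists_lt_of_lt_csSup ⟨s0, hs0⟩ hs
      exact hs'.2.trans (hF hss.le)
    · intro s hs
      by_contra hcc
      push Not at hcc
      have h0 : 0 ≤ s := (hs0.1.trans (le_csSup hbdd hs0)).trans hs.le
      have := le_csSup hbdd (show s ∈ S from ⟨h0, hcc⟩)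
      linarith

lemma W_mid {u : ℝ} (h0 : 0 ≤ u) (hu : u ≤ 3 / 4) : u ^ 2 / 36 ≤ W u := by
  unfold W
  set y := (u ^ 2) ^ (1 / 3 : ℝ) with hy
  have hy0 : 0 ≤ y := cbrt_nonneg u
  have hy3 : y ^ 3 = u ^ 2 := cbrt_cube u
  have h1 : y ≤ 5 / 6 := by
    by_contra hc
    push Not at hc
    have h2 : (5 / 6 : ℝ) ^ 3 < y ^ 3 := pow_lt_pow_left₀ hc (by norm_num) (by norm_num)
    have h3 : u ^ 2 ≤ (3 / 4) ^ 2 := pow_le_pow_left₀ h0 hu 2
    rw [hy3] at h2
    norm_num at h2 h3
    linarith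
  have h2 : 1 / 36 ≤ (y - 1) ^ 2 := by nlinarith
  calc u ^ 2 / 36 = u ^ 2 * (1 / 36) := by ring
    _ ≤ _ := mul_le_mul_of_nonneg_left h2 (sq_nonneg _)

lemma W_big {u : ℝ} (hu : 3 ≤ u) : u ^ 2 ≤ W u := by
  unfold W
  set y := (u ^ 2) ^ (1 / 3 : ℝ) with hy
  have hy0 : 0 ≤ y := cbrt_nonneg u
  have hy3 : y ^ 3 = u ^ 2 := cbrt_cube u
  have h1 : 2 ≤ y := by
    by_contra hc
    push Not at hc
    have h2 : y ^ 3 < 2 ^ 3 := pow_lt_pow_left₀ hc hy0 (by norm_num)
    have h3 : (3 : ℝ) ^ 2 ≤ u ^ 2 := pow_le_pow_left₀ (by norm_num) hu 2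
    rw [hy3] at h2
    norm_num at h2 h3
    linarith
  have h2 : 1 ≤ (y - 1) ^ 2 := by nlinarith
  calc u ^ 2 = u ^ 2 * 1 := by ring
    _ ≤ _ := mul_le_mul_of_nonneg_left h2 (sq_nonneg _)

lemma int_ball_const {r : ℝ} (hr : 0 ≤ r) (c : ℝ) :
    ∫ x, (Metric.closedBall (0 : E3) r).indicator (fun _ => c) x = c * vol r := by
  have hv : 0 ≤ vol r := by
    have := vB_pos
    unfold vol
    positivity
  rw [integral_indicator measurableSet_closedBall, setIntegral_const, Measure.real,
    volume_closedBall' 0 hr, ENNReal.toReal_ofReal hv, smul_eq_mul, mul_comm]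

lemma int_ball_const' {r : ℝ} (c : ℝ) :
    Integrable ((Metric.closedBall (0 : E3) r).indicator (fun _ => c)) (volume : Measure E3) := by
  rw [integrable_indicator_iff measurableSet_closedBall]
  exact integrableOn_const (hs := measure_closedBall_lt_top.ne)

/-- the mass is controlled by the radius -/
lemma mass_radius (h : H1 f g) (hF0 : ∀ r, 0 ≤ F r) (hf : f = fun x => F ‖x‖) {r : ℝ}
    (hr : 0 ≤ r) (hr2 : ∀ s, r < s → F s < 3 / 4) {δ : ℝ} (hδ : 36 * δ ≤ 1 / 2)
    (hW : Ws f ≤ δ * Ms f) : Ms f ≤ 18 * vol r := by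
  have h1 : Ms f ≤ 9 * vol r + 36 * Ws f := by
    have e : 9 * vol r + 36 * Ws f =
        ∫ x, ((Metric.closedBall (0 : E3) r).indicator (fun _ => 9) x + 36 * W (f x)) := by
      rw [integral_add (int_ball_const' 9) (h.W_int.const_mul 36), int_ball_const hr,
        integral_const_mul]
      rfl
    rw [e]
    apply integral_mono h.sq_int ((int_ball_const' 9).add (h.W_int.const_mul 36))
    intro x
    show f x ^ 2 ≤ (Metric.closedBall (0 : E3) r).indicator (fun _ => 9) x + 36 * W (f x)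
    have hfx : f x = F ‖x‖ := by rw [hf]
    have h0 : 0 ≤ f x := by rw [hfx]; exact hF0 _
    have hW0 := W_nonneg (f x)
    by_cases hx : x ∈ Metric.closedBall (0 : E3) r
    · rw [indicator_of_mem hx]
      rcases le_or_gt 3 (f x) with h3 | h3
      · have := W_big h3
        linarith
      · nlinarith
    · rw [indicator_of_notMem hx, zero_add]
      have hx' : r < ‖x‖ := by simpa using hx
      have h3 := hr2 _ hx'
      rw [← hfx] at h3
      have := W_mid h0 h3.le
      linarith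
  have h2 := Ms_nonneg f
  nlinarith

lemma vol_diff {a b : ℝ} (ha : 0 ≤ a) (hab : a ≤ b) :
    vB * (3 * a ^ 2 * (b - a)) ≤ vol b - vol a := by
  unfold vol
  rw [← mul_sub]
  apply mul_le_mul_of_nonneg_left _ vB_pos.le
  have e : b ^ 3 - a ^ 3 - 3 * a ^ 2 * (b - a) = (b - a) ^ 2 * (b + 2 * a) := by ring
  have : 0 ≤ (b - a) ^ 2 * (b + 2 * a) := mul_nonneg (sq_nonneg _) (by linarith)
  linarith

lemma shell_meas {a b : ℝ} (hb : 0 ≤ b) (hab : a ≤ b) : (volume : Measure E3).real
    (Metric.ball (0 : E3) b \ Metric.closedBall 0 a) = vol b - vol (max a 0) := by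
  have hv : ∀ s, 0 ≤ s → 0 ≤ vol s := fun s hs => by
    have := vB_pos
    unfold vol
    positivity
  rcases le_or_gt 0 a with ha | ha
  · rw [max_eq_left ha]
    rcases hab.eq_or_lt with he | hlt
    · subst he
      have : Metric.ball (0 : E3) a \ Metric.closedBall 0 a = ∅ :=
        sdiff_eq_empty.2 Metric.ball_subset_closedBall
      rw [this]
      simp
    · rw [measureReal_sdiff (Metric.closedBall_subset_ball hlt) measurableSet_closedBall
        measure_ball_lt_top.ne]
      rw [Measure.real, Measure.real, volume_ball' 0 hb, volume_closedBall' 0 ha,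
        ENNReal.toReal_ofReal (hv b hb), ENNReal.toReal_ofReal (hv a ha)]
  · rw [max_eq_right ha.le, Metric.closedBall_eq_empty.2 ha, sdiff_empty, Measure.real,
      volume_ball' 0 hb, ENNReal.toReal_ofReal (hv b hb)]
    unfold vol
    ring

/-- the cost of the interface if the transition layer is wide -/
lemma interface_wide (h : H1 f g) (hf : f = fun x => F ‖x‖) {r₁ r₂ : ℝ} (h1 : 0 ≤ r₁)
    (h12 : r₁ ≤ r₂) (hr1 : ∀ s, r₁ < s → F s < 3 / 4)
    (hr2 : ∀ s, 0 ≤ s → s < r₂ → 1 / 2 ≤ F s) :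
    vB * r₁ ^ 2 * (r₂ - r₁) / 48 ≤ Ws f := by
  set S := Metric.ball (0 : E3) r₂ \ Metric.closedBall 0 r₁ with hS
  have hSm : MeasurableSet S := measurableSet_ball.diff measurableSet_closedBall
  have hvS := shell_meas (h1.trans h12) h12
  rw [← hS, max_eq_left h1] at hvS
  have hfin : (volume : Measure E3) S ≠ ⊤ :=
    (lt_of_le_of_lt (measure_mono sdiff_subset) measure_ball_lt_top).ne
  have h3 : ∫ x, S.indicator (fun _ => (1 / 144 : ℝ)) x ≤ Ws f := by
    apply integral_mono _ h.W_int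
    · intro x
      show S.indicator (fun _ => (1 / 144 : ℝ)) x ≤ W (f x)
      by_cases hx : x ∈ S
      · rw [indicator_of_mem hx]
        have hx1 : ‖x‖ < r₂ := by simpa using hx.1
        have hx2 : r₁ < ‖x‖ := by simpa using hx.2
        have e : f x = F ‖x‖ := by rw [hf]
        have a1 := hr1 _ hx2
        have a2 := hr2 _ (norm_nonneg x) hx1
        rw [← e] at a1 a2
        have := W_mid (by linarith) a1.le
        nlinarith
      · rw [indicator_of_notMem hx]
        exact W_nonneg _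
    · rw [integrable_indicator_iff hSm]
      exact integrableOn_const (hs := hfin)
  rw [integral_indicator hSm, setIntegral_const, hvS, smul_eq_mul] at h3
  have h4 := vol_diff h1 h12
  nlinarith

lemma big_coord (x : E3) : ∃ i : Fin 3, ‖x‖ ≤ 2 * |x i| := by
  by_contra hc
  push Not at hc
  have h0 := hc 0
  have h1 := hc 1
  have h2 := hc 2
  have hn : ‖x‖ ^ 2 = x 0 ^ 2 + x 1 ^ 2 + x 2 ^ 2 := by
    rw [EuclideanSpace.norm_sq_eq]
    simp [Fin.sum_univ_three]
  have q : ∀ i : Fin 3, 2 * |x i| < ‖x‖ → 4 * x i ^ 2 < ‖x‖ ^ 2 := by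
    intro i hi
    have := pow_lt_pow_left₀ hi (by positivity) (two_ne_zero)
    rw [mul_pow, sq_abs] at this
    linarith
  have := q 0 h0
  have := q 1 h1
  have := q 2 h2
  nlinarith [sq_nonneg (x 0), sq_nonneg (x 1), sq_nonneg (x 2)]

/-- the cost of the interface if the transition layer is narrow -/
lemma interface_narrow (h : H1 f g) (hf : f = fun x => F ‖x‖) {r₁ r₂ w : ℝ} (h1 : 0 ≤ r₁)
    (hw : 0 < w) (h12 : r₂ - r₁ ≤ 3 * w / 8)
    (hr1 : ∀ s, 0 ≤ s → s < r₁ → 3 / 4 ≤ F s) (hr2 : ∀ s, r₂ < s → F s < 1 / 2) :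
    vB * r₁ ^ 2 * min (w / 8) r₁ ≤ 96 * w ^ 2 * Tk g := by
  have hT := Tk_nonneg g
  set S := Metric.ball (0 : E3) r₁ \ Metric.closedBall 0 (r₁ - w / 8) with hS
  have hSm : MeasurableSet S := measurableSet_ball.diff measurableSet_closedBall
  have hvS := shell_meas h1 (by linarith : r₁ - w / 8 ≤ r₁)
  rw [← hS] at hvS
  have hfin : (volume : Measure E3) S ≠ ⊤ :=
    (lt_of_le_of_lt (measure_mono sdiff_subset) measure_ball_lt_top).ne
  set e : Fin 3 → E3 := fun i => EuclideanSpace.single i w with he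
  have hen : ∀ i, ‖e i‖ = w := by
    intro i
    rw [he]
    simp [abs_of_pos hw]
  -- pointwise
  have hpt : ∀ x ∈ S, (1 / 16 : ℝ) ≤
      ∑ i, ((f (x + e i) - f x) ^ 2 + (f (x + (-e i)) - f x) ^ 2) := by
    intro x hx
    have hx1 : ‖x‖ < r₁ := by simpa using hx.1
    have hx2 : r₁ - w / 8 < ‖x‖ := by simpa using hx.2
    have hfx : 3 / 4 ≤ f x := by
      rw [hf]
      exact hr1 _ (norm_nonneg x) hx1
    obtain ⟨i, hi⟩ := big_coord x
    have hfar : ∀ a : E3, ‖a‖ = w → ‖x‖ * w ≤ 2 * inner ℝ x a → f (x + a) < 1 / 2 := by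
      intro a ha hin
      have h3 : (‖x‖ + w / 2) ^ 2 ≤ ‖x + a‖ ^ 2 := by
        rw [norm_add_sq_real, ha]
        nlinarith [norm_nonneg x]
      have h4 : ‖x‖ + w / 2 ≤ ‖x + a‖ :=
        le_of_sq_le_sq h3 (norm_nonneg _)
      rw [hf]
      apply hr2
      linarith
    have hin : inner ℝ x (e i) = x i * w := by
      rw [he]
      simp [EuclideanSpace.inner_single_right]
      try ring
    have hle : ∀ a b : ℝ, 1 / 16 ≤ a ^ 2 → 1 / 16 ≤ a ^ 2 + b ^ 2 := fun a b h =>
      h.trans (le_add_of_nonneg_right (sq_nonneg _))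
    have hsum : (f (x + e i) - f x) ^ 2 + (f (x + (-e i)) - f x) ^ 2 ≤
        ∑ i, ((f (x + e i) - f x) ^ 2 + (f (x + (-e i)) - f x) ^ 2) :=
      Finset.single_le_sum (f := fun i => (f (x + e i) - f x) ^ 2 + (f (x + (-e i)) - f x) ^ 2)
        (fun j _ => by positivity) (Finset.mem_univ i)
    refine le_trans ?_ hsum
    rcases le_total 0 (x i) with hs | hs
    · have h5 := hfar (e i) (hen i) (by
        rw [hin]
        rw [abs_of_nonneg hs] at hi
        nlinarith)
      have h6 : 1 / 16 ≤ (f (x + e i) - f x) ^ 2 := by nlinarith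
      have := sq_nonneg (f (x + (-e i)) - f x)
      linarith
    · have h5 := hfar (-e i) (by rw [norm_neg, hen i]) (by
        rw [inner_neg_right, hin]
        rw [abs_of_nonpos hs] at hi
        nlinarith)
      have h6 : 1 / 16 ≤ (f (x + (-e i)) - f x) ^ 2 := by nlinarith
      have := sq_nonneg (f (x + e i) - f x)
      linarith
  have hsm : ∀ a : E3, Measurable fun x => ENNReal.ofReal ((f (x + a) - f x) ^ 2) := fun a =>
    (((h.fm.comp (measurable_add_const a)).sub h.fm).pow_const 2).ennreal_ofReal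
  have key : ENNReal.ofReal (1 / 16 * (volume : Measure E3).real S) ≤
      ENNReal.ofReal (6 * (w ^ 2 * Tk g)) := by
    calc ENNReal.ofReal (1 / 16 * (volume : Measure E3).real S) =
          ∫⁻ x in S, ENNReal.ofReal (1 / 16) := by
          rw [setLIntegral_const, ENNReal.ofReal_mul (by norm_num), Measure.real,
            ENNReal.ofReal_toReal hfin]
      _ ≤ ∫⁻ x in S, ∑ i, (ENNReal.ofReal ((f (x + e i) - f x) ^ 2) +
            ENNReal.ofReal ((f (x + (-e i)) - f x) ^ 2)) := by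
          apply setLIntegral_mono' hSm
          intro x hx
          have e1 : ∀ i, ENNReal.ofReal ((f (x + e i) - f x) ^ 2) +
            ENNReal.ofReal ((f (x + (-e i)) - f x) ^ 2) =
              ENNReal.ofReal ((f (x + e i) - f x) ^ 2 + (f (x + (-e i)) - f x) ^ 2) := fun i =>
            (ENNReal.ofReal_add (sq_nonneg _) (sq_nonneg _)).symm
          simp only [e1]
          rw [← ENNReal.ofReal_sum_of_nonneg (fun i _ => by positivity)]
          exact ENNReal.ofReal_le_ofReal (hpt x hx)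
      _ ≤ ∫⁻ x, ∑ i, (ENNReal.ofReal ((f (x + e i) - f x) ^ 2) +
            ENNReal.ofReal ((f (x + (-e i)) - f x) ^ 2)) := setLIntegral_le_lintegral _ _
      _ = ∑ i, ((∫⁻ x, ENNReal.ofReal ((f (x + e i) - f x) ^ 2)) +
            ∫⁻ x, ENNReal.ofReal ((f (x + (-e i)) - f x) ^ 2)) := by
          have hsm2 : ∀ i ∈ (Finset.univ : Finset (Fin 3)), Measurable fun x : E3 =>
              (ENNReal.ofReal ((f (x + e i) - f x) ^ 2) +
                ENNReal.ofReal ((f (x + (-e i)) - f x) ^ 2)) := fun i _ => (hsm _).add (hsm _)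
          rw [lintegral_finsetSum _ hsm2]
          apply Finset.sum_congr rfl
          intro i _
          rw [lintegral_add_left (hsm _)]
      _ ≤ ∑ i : Fin 3, (ENNReal.ofReal (w ^ 2 * Tk g) + ENNReal.ofReal (w ^ 2 * Tk g)) := by
          apply Finset.sum_le_sum
          intro i _
          have s1 := h.shift (e i)
          have s2 := h.shift (-e i)
          rw [norm_neg] at s2
          rw [hen i] at s1 s2
          exact add_le_add s1 s2
      _ = ENNReal.ofReal (6 * (w ^ 2 * Tk g)) := by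
          rw [← ENNReal.ofReal_add (by positivity) (by positivity), Finset.sum_const,
            Finset.card_univ, Fintype.card_fin, nsmul_eq_mul,
            show ((3 : ℕ) : ℝ≥0∞) = ENNReal.ofReal 3 by simp, ← ENNReal.ofReal_mul (by norm_num)]
          congr 1
          ring
  rw [ENNReal.ofReal_le_ofReal_iff (by positivity), hvS] at key
  have hvol : vB * r₁ ^ 2 * min (w / 8) r₁ ≤ vol r₁ - vol (max (r₁ - w / 8) 0) := by
    rcases le_total (w / 8) r₁ with hc | hc
    · rw [min_eq_left hc, max_eq_left (by linarith)]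
      unfold vol
      rw [← mul_sub, mul_assoc]
      apply mul_le_mul_of_nonneg_left _ vB_pos.le
      set q := w / 8 with hq
      have e : r₁ ^ 3 - (r₁ - q) ^ 3 - r₁ ^ 2 * q = q * ((r₁ - q) * (2 * r₁ - q)) := by ring
      have h5 : 0 ≤ q * ((r₁ - q) * (2 * r₁ - q)) := by
        have h6 : 0 < q := by positivity
        have h7 : 0 ≤ r₁ - q := by linarith
        have h8 : 0 ≤ 2 * r₁ - q := by linarith
        positivity
      linarith
    · rw [min_eq_right hc, max_eq_right (by linarith)]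
      unfold vol
      apply le_of_eq
      ring
  linarith

/-- lower bound on the radius of the droplet -/
theorem radius_lower (h : H1 f g) (hF : Antitone F) (hF0 : ∀ r, 0 ≤ F r) (hf : f = fun x => F ‖x‖)
    {a δ : ℝ} (ha : 0 < a) (hδ : 0 < δ) (hδ1 : δ < 1 / 80000) (hM : 0 < Ms f)
    (hE : a ^ 6 / 2 * Tk g + Ws f ≤ δ * Ms f) :
    ∃ r : ℝ, 0 < r ∧ (∀ s, 0 ≤ s → s < r → 3 / 4 ≤ F s) ∧ Ms f ≤ 18 * vol r ∧
      a ^ 3 ≤ 80000 * δ * r := by
  obtain ⟨r₁, h1, ha1, hb1⟩ := radius h hF hf (c := 3 / 4) (by norm_num)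
  obtain ⟨r₂, h2, ha2, hb2⟩ := radius h hF hf (c := 1 / 2) (by norm_num)
  have hT := Tk_nonneg g
  have hW := Ws_nonneg f
  have hB := vB_pos
  have hTa : 0 ≤ a ^ 6 / 2 * Tk g := by positivity
  have hmass := mass_radius h hF0 hf h1 hb1 (δ := δ) (by linarith) (by linarith)
  have hr1 : 0 < r₁ := by
    rcases h1.eq_or_lt with h0 | h0
    · rw [← h0] at hmass
      unfold vol at hmass
      norm_num at hmass
      linarith
    · exact h0
  have h12 : r₁ ≤ r₂ := by
    by_contra hc
    push Not at hc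
    have h3 := ha1 ((r₁ + r₂) / 2) (by linarith) (by linarith)
    have h4 := hb2 ((r₁ + r₂) / 2) (by linarith)
    linarith
  refine ⟨r₁, hr1, ha1, hmass, ?_⟩
  have ha3 : 0 < a ^ 3 := by positivity
  have key : vB * r₁ ^ 2 * min (a ^ 3) r₁ / 4200 ≤ a ^ 6 / 2 * Tk g + Ws f := by
    rcases le_or_gt (r₂ - r₁) (a ^ 3) with hd | hd
    · have h3 := interface_narrow h hf h1 (w := 8 / 3 * a ^ 3) (by positivity) (by linarith)
        ha1 hb2
      have h4 : min (a ^ 3) r₁ / 3 ≤ min (8 / 3 * a ^ 3 / 8) r₁ := by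
        apply le_min
        · have := min_le_left (a ^ 3) r₁
          linarith
        · have := min_le_right (a ^ 3) r₁
          linarith
      have h5 : vB * r₁ ^ 2 * (min (a ^ 3) r₁ / 3) ≤ 96 * (8 / 3 * a ^ 3) ^ 2 * Tk g :=
        (mul_le_mul_of_nonneg_left h4 (by positivity)).trans h3
      have e : 96 * (8 / 3 * a ^ 3) ^ 2 * Tk g = 4096 / 3 * (a ^ 6 / 2 * Tk g) := by ring
      rw [e] at h5
      have hm : 0 ≤ min (a ^ 3) r₁ := le_min ha3.le h1
      have h6 : 0 ≤ vB * r₁ ^ 2 * min (a ^ 3) r₁ := by positivity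
      linarith
    · have h3 := interface_wide h hf h1 h12 hb1 ha2
      have h4 : vB * r₁ ^ 2 * min (a ^ 3) r₁ ≤ vB * r₁ ^ 2 * (r₂ - r₁) := by
        apply mul_le_mul_of_nonneg_left _ (by positivity)
        exact (min_le_left _ _).trans hd.le
      have hm : 0 ≤ min (a ^ 3) r₁ := le_min ha3.le h1
      have h6 : 0 ≤ vB * r₁ ^ 2 * min (a ^ 3) r₁ := by positivity
      linarith
  have h7 : vB * r₁ ^ 2 * min (a ^ 3) r₁ ≤ vB * r₁ ^ 2 * (75600 * δ * r₁) := by
    have h8 : vB * r₁ ^ 2 * min (a ^ 3) r₁ / 4200 ≤ δ * (18 * vol r₁) :=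
      (key.trans hE).trans (mul_le_mul_of_nonneg_left hmass hδ.le)
    unfold vol at h8
    linarith
  have h9 : min (a ^ 3) r₁ ≤ 75600 * δ * r₁ := le_of_mul_le_mul_left h7 (by positivity)
  rcases min_le_iff.1 h9 with h10 | h10
  · have : 0 < δ * r₁ := by positivity
    linarith
  · exfalso
    have h11 : 75600 * δ < 1 := by linarith
    nlinarith

end Pool.Agent.Helper26.Tf
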