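import Pool.Agent.Helper26.Tf.Loc

set_option autoImplicit false
set_option linter.unusedVariables false

namespace Pool.Agent.Helper26.Tf

open MeasureTheory Filter Topology Set Pool.Agent.TFDW
open scoped ENNReal NNReal ContDiff

variable {f : E3 → ℝ} {g : E3 → E3}

/-- the energy with a nucleus, shifted by the mass times the asymptotic energy per mass -/
noncomputable def GG (A z : ℝ) (f : E3 → ℝ) (g : E3 → E3) : ℝ :=
  NN A f g - dl A * Ms f - z * Ph f 0

/-- the local part of the energy -/
noncomputable def PR (A z R : ℝ) (f : E3 → ℝ) (g : E3 → E3) : ℝ :=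
  A * (∫ x in Metric.ball (0 : E3) R, ‖g x‖ ^ 2) + (∫ x in Metric.ball (0 : E3) R, W (f x)) +
    Dd ((Metric.ball (0 : E3) R).indicator f) - dl A * (∫ x in Metric.ball (0 : E3) R, f x ^ 2) -
    z * ∫ x in Metric.ball (0 : E3) R, f x ^ 2 / ‖x - 0‖

lemma kk_ind (B : Set E3) (f : E3 → ℝ) (p : E3 × E3) :
    kk (B.indicator f) p = (B ×ˢ B).indicator (kk f) p := by
  unfold kk
  by_cases h1 : p.1 ∈ B
  · by_cases h2 : p.2 ∈ B
    · have : p ∈ B ×ˢ B := ⟨h1, h2⟩
      rw [indicator_of_mem h1, indicator_of_mem h2, indicator_of_mem this]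
    · have : p ∉ B ×ˢ B := fun h => h2 h.2
      rw [indicator_of_notMem h2, indicator_of_notMem this]
      ring
  · have : p ∉ B ×ˢ B := fun h => h1 h.1
    rw [indicator_of_notMem h1, indicator_of_notMem this]
    ring

lemma kk_ind_int (h : H1 f g) {B : Set E3} (hB : MeasurableSet B) :
    Integrable (kk (B.indicator f)) ((volume : Measure E3).prod volume) := by
  have e : kk (B.indicator f) = (B ×ˢ B).indicator (kk f) := funext fun p => kk_ind B f p
  rw [e]
  exact h.kk_int.indicator (hB.prod hB)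

/-- The splitting inequality. -/
lemma split {A z : ℝ} (hA : 0 ≤ A) (hz : 0 ≤ z) {L : ℝ}
    (hL : ∀ R w : ℝ, 0 < w → ∀ x, ‖fderiv ℝ (ct R w) x‖ ≤ L / w) (h : H1 f g) {R ε : ℝ}
    (hR : 0 < R) (hε : 0 < ε) :
    PR A z R f g - ε * A * Tk g - ((1 + 1 / ε) * A * L ^ 2 + 1 + dl A) * (∫ x in ann R 1, f x ^ 2) -
      z / R * Ms f ≤ GG A z f g := by
  have hdl := dl_nonneg hA
  set B := Metric.ball (0 : E3) R with hB
  have hBm : MeasurableSet B := measurableSet_ball
  set η : E3 → ℝ := fun x => 1 - ct R 1 x with hη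
  have hs := ct_smooth hR one_pos
  have hηs : ContDiff ℝ ∞ η := contDiff_const.sub hs
  have hη0 : ∀ x, 0 ≤ η x := fun x => by
    have := ct_le_one R 1 x
    show 0 ≤ 1 - ct R 1 x
    linarith
  have hη1 : ∀ x, η x ≤ 1 := fun x => by
    have := ct_nonneg R 1 x
    show 1 - ct R 1 x ≤ 1
    linarith
  have hηf : ∀ x, fderiv ℝ η x = -fderiv ℝ (ct R 1) x := by
    intro x
    show fderiv ℝ (fun x => 1 - ct R 1 x) x = _
    rw [fderiv_const_sub]
  have hηn : ∀ x, ‖fderiv ℝ η x‖ ≤ (ann R 1).indicator (fun _ => L) x := by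
    intro x
    rw [hηf, norm_neg]
    have := ct_fderiv_ann hL one_pos (R := R) x
    rwa [div_one] at this
  have hL0 : 0 ≤ L := by
    have := hL R 1 one_pos 0
    rw [div_one] at this
    exact (norm_nonneg _).trans this
  have ho := h.mul hηs (B := 1) (C := L) (fun x => by
    rw [abs_of_nonneg (hη0 x)]; exact hη1 x) (fun x => by
    rw [hηf, norm_neg]
    have := hL R 1 one_pos x
    rwa [div_one] at this)
  set fo : E3 → ℝ := fun x => η x * f x with hfo
  set go : E3 → E3 := fun x => η x • g x + f x • gradient η x with hgo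
  have hmain := dl_le hA ho
  -- behaviour in the three regions
  have hin : ∀ x ∈ B, η x = 0 ∧ gradient η x = 0 := by
    intro x hx
    have hx' : ‖x‖ < R := by simpa [hB] using hx
    constructor
    · show 1 - ct R 1 x = 0
      rw [ct_one one_pos hx'.le, sub_self]
    · rw [← norm_eq_zero, norm_gradient', hηf, ct_fderiv_in one_pos hx']
      simp
  have hout : ∀ x, x ∉ B → x ∉ ann R 1 → η x = 1 := by
    intro x hx hx2
    have h1 : R ≤ ‖x‖ := by simpa [hB] using hx
    have h2 : R + 1 ≤ ‖x‖ := by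
      by_contra hc
      push Not at hc
      exact hx2 ⟨h1, hc.le⟩
    show 1 - ct R 1 x = 1
    rw [ct_zero one_pos h2, sub_zero]
  -- integrability
  have hAnn := ann_meas R 1
  have ia : Integrable ((ann R 1).indicator fun x => f x ^ 2) volume :=
    h.sq_int.indicator hAnn
  have iBg : Integrable (B.indicator fun x => ‖g x‖ ^ 2) volume := h.gsq_int.indicator hBm
  have iBW : Integrable (B.indicator fun x => W (f x)) volume := h.W_int.indicator hBm
  have iBf : Integrable (B.indicator fun x => f x ^ 2) volume := h.sq_int.indicator hBm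
  have iBp : Integrable (B.indicator fun x => f x ^ 2 / ‖x - 0‖) volume :=
    (h.pot_int 0).indicator hBm
  -- kinetic
  have kin : A * (∫ x in B, ‖g x‖ ^ 2) + A * Tk go ≤ A * Tk g + ε * A * Tk g +
      (1 + 1 / ε) * A * L ^ 2 * ∫ x in ann R 1, f x ^ 2 := by
    have h1 : (∫ x in B, ‖g x‖ ^ 2) + Tk go ≤ Tk g + ε * Tk g +
        (1 + 1 / ε) * L ^ 2 * ∫ x in ann R 1, f x ^ 2 := by
      have j1 : Integrable (fun x => ‖g x‖ ^ 2 + ε * ‖g x‖ ^ 2) volume :=
        h.gsq_int.add (h.gsq_int.const_mul ε)
      have e : Tk g + ε * Tk g + (1 + 1 / ε) * L ^ 2 * ∫ x in ann R 1, f x ^ 2 =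
          ∫ x, (‖g x‖ ^ 2 + ε * ‖g x‖ ^ 2 + (1 + 1 / ε) * L ^ 2 *
            (ann R 1).indicator (fun x => f x ^ 2) x) := by
        rw [integral_add j1 (ia.const_mul _), integral_add h.gsq_int (h.gsq_int.const_mul ε),
          integral_const_mul, integral_const_mul, integral_indicator hAnn]
        rfl
      have e2 : (∫ x in B, ‖g x‖ ^ 2) + Tk go =
          ∫ x, (B.indicator (fun x => ‖g x‖ ^ 2) x + ‖go x‖ ^ 2) := by
        rw [integral_add iBg ho.gsq_int, integral_indicator hBm]
        rfl
      rw [e, e2]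
      apply integral_mono (iBg.add ho.gsq_int) (j1.add (ia.const_mul _))
      intro x
      show B.indicator (fun x => ‖g x‖ ^ 2) x + ‖go x‖ ^ 2 ≤ ‖g x‖ ^ 2 + ε * ‖g x‖ ^ 2 +
        (1 + 1 / ε) * L ^ 2 * (ann R 1).indicator (fun x => f x ^ 2) x
      have hp : 0 ≤ (1 + 1 / ε) * L ^ 2 * (ann R 1).indicator (fun x => f x ^ 2) x :=
        mul_nonneg (by positivity) (indicator_nonneg (fun x _ => sq_nonneg _) x)
      have hp2 : 0 ≤ ε * ‖g x‖ ^ 2 := by positivity
      by_cases hx : x ∈ B
      · rw [indicator_of_mem hx]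
        have h2 : go x = 0 := by
          show η x • g x + f x • gradient η x = 0
          rw [(hin x hx).1, (hin x hx).2]
          simp
        rw [h2, norm_zero]
        linarith
      · rw [indicator_of_notMem hx, zero_add]
        have h2 : ‖go x‖ ≤ ‖g x‖ + |f x| * (ann R 1).indicator (fun _ => L) x := by
          show ‖η x • g x + f x • gradient η x‖ ≤ _
          refine (norm_add_le _ _).trans (add_le_add ?_ ?_)
          · rw [norm_smul, Real.norm_of_nonneg (hη0 x)]
            exact mul_le_of_le_one_left (norm_nonneg _) (hη1 x)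
          · rw [norm_smul, Real.norm_eq_abs, norm_gradient']
            exact mul_le_mul_of_nonneg_left (hηn x) (abs_nonneg _)
        have h3 := pow_le_pow_left₀ (norm_nonneg _) h2 2
        by_cases ha : x ∈ ann R 1
        · rw [indicator_of_mem ha] at h3 ⊢
          refine h3.trans ?_
          have h4 : 2 * (‖g x‖ * (|f x| * L)) ≤ ε * ‖g x‖ ^ 2 + 1 / ε * (|f x| * L) ^ 2 := by
            have h5 : 0 ≤ (ε * ‖g x‖ - |f x| * L) ^ 2 / ε := by positivity
            have h6 : (ε * ‖g x‖ - |f x| * L) ^ 2 / ε =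
                ε * ‖g x‖ ^ 2 + 1 / ε * (|f x| * L) ^ 2 - 2 * (‖g x‖ * (|f x| * L)) := by
              field_simp
              ring
            linarith
          have h7 : (|f x| * L) ^ 2 = L ^ 2 * f x ^ 2 := by
            rw [mul_pow, sq_abs]
            ring
          calc (‖g x‖ + |f x| * L) ^ 2 = ‖g x‖ ^ 2 + 2 * (‖g x‖ * (|f x| * L)) +
                (|f x| * L) ^ 2 := by ring
            _ ≤ ‖g x‖ ^ 2 + (ε * ‖g x‖ ^ 2 + 1 / ε * (|f x| * L) ^ 2) + (|f x| * L) ^ 2 := by
                linarith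
            _ = _ := by rw [h7]; ring
        · rw [indicator_of_notMem ha] at h3 ⊢
          rw [mul_zero, add_zero] at h3
          linarith
    have h2 := mul_le_mul_of_nonneg_left h1 hA
    linarith
  have wW : (∫ x in B, W (f x)) + Ws fo ≤ Ws f + ∫ x in ann R 1, f x ^ 2 := by
    have e : Ws f + ∫ x in ann R 1, f x ^ 2 =
        ∫ x, (W (f x) + (ann R 1).indicator (fun x => f x ^ 2) x) := by
      rw [integral_add h.W_int ia, integral_indicator hAnn]
      rfl
    have e2 : (∫ x in B, W (f x)) + Ws fo = ∫ x, (B.indicator (fun x => W (f x)) x + W (fo x)) := by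
      rw [integral_add iBW ho.W_int, integral_indicator hBm]
      rfl
    rw [e, e2]
    apply integral_mono (iBW.add ho.W_int) (h.W_int.add ia)
    intro x
    show B.indicator (fun x => W (f x)) x + W (fo x) ≤ W (f x) +
      (ann R 1).indicator (fun x => f x ^ 2) x
    have hp : 0 ≤ (ann R 1).indicator (fun x => f x ^ 2) x :=
      indicator_nonneg (fun x _ => sq_nonneg _) x
    by_cases hx : x ∈ B
    · rw [indicator_of_mem hx]
      have h2 : fo x = 0 := by
        show η x * f x = 0
        rw [(hin x hx).1, zero_mul]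
      rw [h2, W_zero]
      linarith
    · rw [indicator_of_notMem hx, zero_add]
      by_cases ha : x ∈ ann R 1
      · rw [indicator_of_mem ha]
        have h3 := W_mul_le (hη0 x) (hη1 x) (f x)
        have h4 : η x ^ 2 ≤ 1 := pow_le_one₀ (hη0 x) (hη1 x)
        have h5 : η x ^ 2 * (W (f x) + f x ^ 2) ≤ 1 * (W (f x) + f x ^ 2) :=
          mul_le_mul_of_nonneg_right h4 (add_nonneg (W_nonneg _) (sq_nonneg _))
        show W (η x * f x) ≤ _
        linarith
      · have h3 : fo x = f x := by
          show η x * f x = f x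
          rw [hout x hx ha, one_mul]
        rw [h3]
        linarith
  have mM : Ms f ≤ (∫ x in B, f x ^ 2) + Ms fo + ∫ x in ann R 1, f x ^ 2 := by
    have j3 : Integrable (fun x => B.indicator (fun x => f x ^ 2) x + fo x ^ 2) volume :=
      iBf.add ho.sq_int
    have e : (∫ x in B, f x ^ 2) + Ms fo + ∫ x in ann R 1, f x ^ 2 =
        ∫ x, (B.indicator (fun x => f x ^ 2) x + fo x ^ 2 +
          (ann R 1).indicator (fun x => f x ^ 2) x) := by
      rw [integral_add j3 ia, integral_add iBf ho.sq_int,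
        integral_indicator hAnn, integral_indicator hBm]
      rfl
    rw [e]
    apply integral_mono h.sq_int (j3.add ia)
    intro x
    show f x ^ 2 ≤ B.indicator (fun x => f x ^ 2) x + fo x ^ 2 +
      (ann R 1).indicator (fun x => f x ^ 2) x
    have hp : 0 ≤ (ann R 1).indicator (fun x => f x ^ 2) x :=
      indicator_nonneg (fun x _ => sq_nonneg _) x
    have hq : 0 ≤ fo x ^ 2 := sq_nonneg _
    by_cases hx : x ∈ B
    · rw [indicator_of_mem hx]
      linarith
    · rw [indicator_of_notMem hx, zero_add]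
      by_cases ha : x ∈ ann R 1
      · rw [indicator_of_mem ha]
        linarith
      · have h3 : fo x = f x := by
          show η x * f x = f x
          rw [hout x hx ha, one_mul]
        rw [h3]
        linarith
  have pP : Ph f 0 ≤ (∫ x in B, f x ^ 2 / ‖x - 0‖) + 1 / R * Ms f := by
    have e : (∫ x in B, f x ^ 2 / ‖x - 0‖) + 1 / R * Ms f =
        ∫ x, (B.indicator (fun x => f x ^ 2 / ‖x - 0‖) x + 1 / R * f x ^ 2) := by
      rw [integral_add iBp (h.sq_int.const_mul _), integral_indicator hBm, integral_const_mul]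
      rfl
    rw [e]
    apply integral_mono (h.pot_int 0) (iBp.add (h.sq_int.const_mul _))
    intro x
    show f x ^ 2 / ‖x - 0‖ ≤ B.indicator (fun x => f x ^ 2 / ‖x - 0‖) x + 1 / R * f x ^ 2
    by_cases hx : x ∈ B
    · rw [indicator_of_mem hx]
      have : 0 ≤ 1 / R * f x ^ 2 := by positivity
      linarith
    · rw [indicator_of_notMem hx, zero_add, sub_zero]
      have h1 : R ≤ ‖x‖ := by simpa [hB] using hx
      rw [one_div_mul_eq_div]
      exact div_le_div_of_nonneg_left (sq_nonneg _) hR h1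
  have dD : Dd (B.indicator f) + Dd fo ≤ Dd f := by
    unfold Dd
    rw [← mul_add, ← integral_add (kk_ind_int h hBm) ho.kk_int]
    apply mul_le_mul_of_nonneg_left _ (by norm_num)
    apply integral_mono ((kk_ind_int h hBm).add ho.kk_int) h.kk_int
    intro p
    show kk (B.indicator f) p + kk fo p ≤ kk f p
    rw [kk_ind]
    have hle : kk fo p ≤ kk f p := by
      unfold kk
      apply div_le_div_of_nonneg_right _ (norm_nonneg _)
      have h1 : ∀ x, fo x ^ 2 ≤ f x ^ 2 := by
        intro x
        show (η x * f x) ^ 2 ≤ f x ^ 2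
        rw [mul_pow]
        exact mul_le_of_le_one_left (sq_nonneg _) (pow_le_one₀ (hη0 x) (hη1 x))
      exact mul_le_mul (h1 _) (h1 _) (sq_nonneg _) (sq_nonneg _)
    by_cases hp : p ∈ B ×ˢ B
    · rw [indicator_of_mem hp]
      have h2 : kk fo p = 0 := by
        unfold kk
        have : fo p.1 = 0 := by
          show η p.1 * f p.1 = 0
          rw [(hin p.1 hp.1).1, zero_mul]
        rw [this]
        ring
      rw [h2, add_zero]
    · rw [indicator_of_notMem hp, zero_add]
      exact hle
  unfold GG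
  unfold NN at hmain ⊢
  unfold PR
  have m1 := mul_le_mul_of_nonneg_left mM hdl
  have p1 := mul_le_mul_of_nonneg_left pP hz
  have e3 : z * (1 / R * Ms f) = z / R * Ms f := by ring
  have e4 : z * ((∫ x in B, f x ^ 2 / ‖x - 0‖) + 1 / R * Ms f) =
      z * (∫ x in B, f x ^ 2 / ‖x - 0‖) + z / R * Ms f := by ring
  rw [e4] at p1
  nlinarith

end Pool.Agent.Helper26.Tf
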