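import Pool.Agent.Helper26.Tf.Dl

set_option autoImplicit false
set_option linter.unusedVariables false

namespace Pool.Agent.Helper26.Tf

open MeasureTheory Filter Topology Set Pool.Agent.TFDW
open scoped ENNReal NNReal ContDiff

variable {f : E3 → ℝ} {g : E3 → E3}

lemma ann_fin {R w : ℝ} (hR : 0 ≤ R) (hw : 0 ≤ w) : (volume : Measure E3) (ann R w) ≠ ⊤ := by
  rw [vol_ann hR hw]
  exact ENNReal.ofReal_ne_top

lemma int_ann {R w : ℝ} (hR : 0 ≤ R) (hw : 0 ≤ w) (c : ℝ) :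
    ∫ x, (ann R w).indicator (fun _ => c) x = c * (vol (R + w) - vol R) := by
  rw [integral_indicator (ann_meas R w), setIntegral_const, Measure.real, vol_ann hR hw,
    ENNReal.toReal_ofReal (sub_nonneg.2 (vol_mono hR (by linarith))), smul_eq_mul, mul_comm]

lemma int_ann' {R w : ℝ} (hR : 0 ≤ R) (hw : 0 ≤ w) (c : ℝ) :
    Integrable ((ann R w).indicator (fun _ => c)) (volume : Measure E3) := by
  rw [integrable_indicator_iff (ann_meas R w)]
  exact integrableOn_const (hs := ann_fin hR hw)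

lemma ct_H1 {R w : ℝ} (hR : 0 < R) (hw : 0 < w) : H1 (ct R w) (gradient (ct R w)) :=
  H1.of_smooth (ct_smooth hR hw) (ct_supp hw)

lemma ct_T {L : ℝ} (hL : ∀ R w : ℝ, 0 < w → ∀ x, ‖fderiv ℝ (ct R w) x‖ ≤ L / w)
    {R w : ℝ} (hR : 0 < R) (hw : 0 < w) :
    Tk (gradient (ct R w)) ≤ (L / w) ^ 2 * (vol (R + w) - vol R) := by
  rw [← int_ann hR.le hw.le]
  apply integral_mono (ct_H1 hR hw).gsq_int (int_ann' hR.le hw.le _)
  intro x
  show ‖gradient (ct R w) x‖ ^ 2 ≤ _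
  rw [norm_gradient']
  have := ct_fderiv_ann hL hw (R := R) x
  by_cases ha : x ∈ ann R w
  · rw [indicator_of_mem ha] at this ⊢
    exact pow_le_pow_left₀ (norm_nonneg _) this 2
  · rw [indicator_of_notMem ha] at this ⊢
    have h0 : ‖fderiv ℝ (ct R w) x‖ = 0 := le_antisymm this (norm_nonneg _)
    rw [h0]
    norm_num

lemma ct_M_ge {R w : ℝ} (hR : 0 < R) (hw : 0 < w) : vol R ≤ Ms (ct R w) := by
  have h1 : ∫ x in Metric.ball (0 : E3) R, (1 : ℝ) = vol R := by
    rw [setIntegral_const, Measure.real, volume_ball' 0 hR.le,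
      ENNReal.toReal_ofReal (vol_pos hR).le]
    simp
  rw [← h1, ← integral_indicator measurableSet_ball]
  apply integral_mono _ (ct_H1 hR hw).sq_int
  · intro x
    by_cases hx : x ∈ Metric.ball (0 : E3) R
    · rw [indicator_of_mem hx]
      have : ‖x‖ < R := by simpa using hx
      show 1 ≤ ct R w x ^ 2
      rw [ct_one hw this.le]
      norm_num
    · rw [indicator_of_notMem hx]
      exact sq_nonneg _
  · rw [integrable_indicator_iff measurableSet_ball]
    exact integrableOn_const (hs := measure_ball_lt_top.ne)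

lemma ct_M_le {R w : ℝ} (hR : 0 < R) (hw : 0 < w) : Ms (ct R w) ≤ vol (R + w) := by
  have hRw : 0 < R + w := by positivity
  have h1 : ∫ x in Metric.ball (0 : E3) (R + w), (1 : ℝ) = vol (R + w) := by
    rw [setIntegral_const, Measure.real, volume_ball' 0 hRw.le,
      ENNReal.toReal_ofReal (vol_pos hRw).le]
    simp
  rw [← h1, ← integral_indicator measurableSet_ball]
  apply integral_mono (ct_H1 hR hw).sq_int
  · rw [integrable_indicator_iff measurableSet_ball]
    exact integrableOn_const (hs := measure_ball_lt_top.ne)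
  · intro x
    by_cases hx : x ∈ Metric.ball (0 : E3) (R + w)
    · rw [indicator_of_mem hx]
      exact pow_le_one₀ (ct_nonneg R w x) (ct_le_one R w x)
    · rw [indicator_of_notMem hx]
      have : R + w ≤ ‖x‖ := by simpa using hx
      show ct R w x ^ 2 ≤ 0
      rw [ct_zero hw this]
      norm_num

lemma W_unit {u : ℝ} (h0 : 0 ≤ u) (h1 : u ≤ 1) : W u ≤ 1 := by
  unfold W
  have h2 : 0 ≤ (u ^ 2) ^ (1 / 3 : ℝ) := by positivity
  have h3 : (u ^ 2) ^ (1 / 3 : ℝ) ≤ 1 := Real.rpow_le_one (by positivity)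
    (pow_le_one₀ h0 h1) (by norm_num)
  have h4 : ((u ^ 2) ^ (1 / 3 : ℝ) - 1) ^ 2 ≤ 1 := by nlinarith
  have h5 : u ^ 2 ≤ 1 := pow_le_one₀ h0 h1
  exact mul_le_one₀ h5 (sq_nonneg _) h4

lemma W_zero : W 0 = 0 := by unfold W; norm_num
lemma W_one : W 1 = 0 := by unfold W; norm_num

lemma ct_W {R w : ℝ} (hR : 0 < R) (hw : 0 < w) : Ws (ct R w) ≤ vol (R + w) - vol R := by
  rw [← one_mul (vol (R + w) - vol R), ← int_ann hR.le hw.le]
  apply integral_mono (ct_H1 hR hw).W_int (int_ann' hR.le hw.le _)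
  intro x
  show W (ct R w x) ≤ _
  by_cases ha : x ∈ ann R w
  · rw [indicator_of_mem ha]
    exact W_unit (ct_nonneg R w x) (ct_le_one R w x)
  · rw [indicator_of_notMem ha]
    have : ‖x‖ < R ∨ R + w < ‖x‖ := by
      by_contra hc
      push Not at hc
      exact ha hc
    rcases this with h | h
    · rw [ct_one hw h.le, W_one]
    · rw [ct_zero hw h.le, W_zero]

/-- The energy per unit mass is small when the gradient coefficient is small. -/
theorem dl_small : ∃ C : ℝ, 0 < C ∧ ∀ a : ℝ, 0 < a → a ≤ 1 → dl (a ^ 6) ≤ C * a ^ 2 := by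
  obtain ⟨L, hL0, hL⟩ := ct_lip
  obtain ⟨K, hK0, hK⟩ := pot_bd
  have hB := vB_pos
  refine ⟨7 * (L ^ 2 + 1) + 27 * vB * (K * L ^ 2 + 1), by positivity, ?_⟩
  intro a ha ha1
  have hw : 0 < a ^ 3 := by positivity
  have hwa : a ^ 3 ≤ a := by
    calc a ^ 3 = a * a ^ 2 := by ring
      _ ≤ a * 1 := mul_le_mul_of_nonneg_left (pow_le_one₀ ha.le ha1) ha.le
      _ = a := mul_one _
  have h := ct_H1 ha hw
  have hann : vol (a + a ^ 3) - vol a ≤ vB * (7 * a ^ 5) := by
    unfold vol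
    rw [← mul_sub]
    apply mul_le_mul_of_nonneg_left _ hB.le
    have h1 : (a + a ^ 3) ^ 3 - a ^ 3 = a ^ 5 * (3 + 3 * a ^ 2 + (a ^ 2) ^ 2) := by ring
    rw [h1, mul_comm 7]
    apply mul_le_mul_of_nonneg_left _ (by positivity)
    have h2 : a ^ 2 ≤ 1 := pow_le_one₀ ha.le ha1
    have h3 : 0 ≤ a ^ 2 := by positivity
    nlinarith
  have hT : a ^ 6 * Tk (gradient (ct a (a ^ 3))) ≤ 7 * L ^ 2 * vB * a ^ 5 := by
    have h1 := ct_T hL ha hw
    calc a ^ 6 * Tk (gradient (ct a (a ^ 3))) ≤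
          a ^ 6 * ((L / a ^ 3) ^ 2 * (vB * (7 * a ^ 5))) := by
          apply mul_le_mul_of_nonneg_left _ (by positivity)
          exact h1.trans (mul_le_mul_of_nonneg_left hann (by positivity))
      _ = 7 * L ^ 2 * vB * a ^ 5 := by
          field_simp
  have hWs : Ws (ct a (a ^ 3)) ≤ 7 * vB * a ^ 5 := by
    have := ct_W ha hw
    linarith
  have hPh : ∀ x, Ph (ct a (a ^ 3)) x ≤ 27 * vB * (K * L ^ 2 + 1) * a ^ 2 := by
    intro x
    have h2a : 0 < 2 * a := by positivity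
    have h1 := ct_H1 h2a ha
    have hle : ∀ y, ct a (a ^ 3) y ≤ ct (2 * a) a y := by
      intro y
      rcases le_or_gt ‖y‖ (2 * a) with hy | hy
      · rw [ct_one ha hy]
        exact ct_le_one _ _ _
      · rw [ct_zero hw (by linarith)]
        exact ct_nonneg _ _ _
    have h2 : Ph (ct a (a ^ 3)) x ≤ Ph (ct (2 * a) a) x := by
      apply integral_mono (h.pot_int x) (h1.pot_int x)
      intro y
      apply div_le_div_of_nonneg_right _ (norm_nonneg _)
      exact pow_le_pow_left₀ (ct_nonneg _ _ _) (hle y) 2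
    have h3 := (hK _ _ h1 x).2 a ha
    have h4 := ct_T hL h2a ha
    have h5 := ct_M_le h2a ha
    have h6 : vol (2 * a + a) = 27 * vB * a ^ 3 := by unfold vol; ring
    have h7 : 0 < vol (2 * a) := vol_pos h2a
    have h8 : Tk (gradient (ct (2 * a) a)) ≤ 27 * vB * L ^ 2 * a := by
      calc Tk (gradient (ct (2 * a) a)) ≤ (L / a) ^ 2 * (vol (2 * a + a)) := by
            refine h4.trans (mul_le_mul_of_nonneg_left (by linarith) (by positivity))
        _ = _ := by
            rw [h6]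
            field_simp
    calc Ph (ct a (a ^ 3)) x ≤ K * a * Tk (gradient (ct (2 * a) a)) + Ms (ct (2 * a) a) / a :=
          h2.trans h3
      _ ≤ K * a * (27 * vB * L ^ 2 * a) + (27 * vB * a ^ 3) / a := by
          apply add_le_add
          · exact mul_le_mul_of_nonneg_left h8 (by positivity)
          · apply div_le_div_of_nonneg_right _ ha.le
            rw [← h6]
            exact h5
      _ = _ := by
          field_simp
  have hDd : Dd (ct a (a ^ 3)) ≤ 27 * vB * (K * L ^ 2 + 1) * a ^ 2 * Ms (ct a (a ^ 3)) := by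
    rw [h.Dd_eq]
    have hP0 : ∀ x, 0 ≤ Ph (ct a (a ^ 3)) x := fun x => Ph_nonneg _ _
    have h1 : ∫ x, ct a (a ^ 3) x ^ 2 * Ph (ct a (a ^ 3)) x ≤
        ∫ x, (27 * vB * (K * L ^ 2 + 1) * a ^ 2) * ct a (a ^ 3) x ^ 2 := by
      apply integral_mono_of_nonneg (Eventually.of_forall fun x =>
        mul_nonneg (sq_nonneg _) (hP0 x)) (h.sq_int.const_mul _)
      refine Eventually.of_forall fun x => ?_
      show ct a (a ^ 3) x ^ 2 * Ph (ct a (a ^ 3)) x ≤ _
      rw [mul_comm]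
      exact mul_le_mul_of_nonneg_right (hPh x) (sq_nonneg _)
    rw [integral_const_mul] at h1
    have h2 : 0 ≤ 27 * vB * (K * L ^ 2 + 1) * a ^ 2 * ∫ x, ct a (a ^ 3) x ^ 2 :=
      mul_nonneg (by positivity) (integral_nonneg fun x => sq_nonneg _)
    unfold Ms
    linarith
  have hM := ct_M_ge ha hw
  have hM0 : 0 < Ms (ct a (a ^ 3)) := lt_of_lt_of_le (vol_pos ha) hM
  have hA0 : 0 ≤ a ^ 6 := by positivity
  have h1 := dl_le hA0 h
  have h2 : 7 * (L ^ 2 + 1) * vB * a ^ 5 ≤ 7 * (L ^ 2 + 1) * a ^ 2 * Ms (ct a (a ^ 3)) := by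
    have : vol a = vB * a ^ 3 := rfl
    calc 7 * (L ^ 2 + 1) * vB * a ^ 5 = 7 * (L ^ 2 + 1) * a ^ 2 * vol a := by rw [this]; ring
      _ ≤ _ := mul_le_mul_of_nonneg_left hM (by positivity)
  have h3 : dl (a ^ 6) * Ms (ct a (a ^ 3)) ≤
      ((7 * (L ^ 2 + 1) + 27 * vB * (K * L ^ 2 + 1)) * a ^ 2) * Ms (ct a (a ^ 3)) := by
    calc dl (a ^ 6) * Ms (ct a (a ^ 3)) ≤ NN (a ^ 6) (ct a (a ^ 3)) (gradient (ct a (a ^ 3))) := h1
      _ = a ^ 6 * Tk (gradient (ct a (a ^ 3))) + Ws (ct a (a ^ 3)) + Dd (ct a (a ^ 3)) := rfl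
      _ ≤ _ := by nlinarith
  exact le_of_mul_le_mul_right h3 hM0

/-- Negative energy forces a definite mass. -/
theorem small_mass : ∃ K : ℝ, 0 < K ∧ ∀ a z : ℝ, 0 < a → 0 < z → z * K ≤ a ^ 6 / 2 →
    dl (a ^ 6) + z ≤ 1 / 3 → ∀ f g, H1 f g →
    NN (a ^ 6) f g - dl (a ^ 6) * Ms f - z * Ph f 0 < 0 → vol (3 * a ^ 3 / 10) / 128 < Ms f ∧
      a ^ 6 / 2 * Tk g + Ws f + Dd f ≤ (dl (a ^ 6) + z) * Ms f := by
  obtain ⟨K, hK0, hK⟩ := pot_bd
  refine ⟨K, hK0, ?_⟩
  intro a z ha hz hzK hd f g h hneg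
  have h1 := (hK f g h 0).2 1 one_pos
  have hT := Tk_nonneg g
  have hM := Ms_nonneg f
  have h2 : z * Ph f 0 ≤ a ^ 6 / 2 * Tk g + z * Ms f := by
    calc z * Ph f 0 ≤ z * (K * 1 * Tk g + Ms f / 1) := mul_le_mul_of_nonneg_left h1 hz.le
      _ = (z * K) * Tk g + z * Ms f := by ring
      _ ≤ _ := by
          have := mul_le_mul_of_nonneg_right hzK hT
          linarith
  have h3 : a ^ 6 / 2 * Tk g + Ws f + Dd f < (dl (a ^ 6) + z) * Ms f := by
    unfold NN at hneg
    linarith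
  refine ⟨?_, h3.le⟩
  by_contra hc
  push Not at hc
  have hr : 0 < 3 * a ^ 3 / 10 := by positivity
  have h4 := alternative h (A := a ^ 6 / 2) hr (by nlinarith [pow_pos ha 6])
    (fun x => (mb_le h x _).trans hc)
  have h5 := Dd_nonneg f
  have h6 : (dl (a ^ 6) + z) * Ms f ≤ 1 / 3 * Ms f := mul_le_mul_of_nonneg_right hd hM
  have h7 : 0 ≤ a ^ 6 / 2 / 2 * Tk g := by positivity
  linarith

end Pool.Agent.Helper26.Tf
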