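import Pool.Agent.Helper26.Tf.Rad

set_option autoImplicit false
set_option linter.unusedVariables false

namespace Pool.Agent.Helper26.Tf

open MeasureTheory Filter Topology Set Pool.Agent.TFDW
open scoped ENNReal NNReal ContDiff

variable {f : E3 → ℝ} {g : E3 → E3} {k : E3 → ℝ} {w : E3 → E3}

/-- integrand with two different functions -/
noncomputable def k2 (u v : E3 → ℝ) (p : E3 × E3) : ℝ := u p.1 ^ 2 * v p.2 ^ 2 / ‖p.1 - p.2‖

lemma k2_int (h : H1 f g) (h' : H1 k w) : Integrable (k2 f k) ((volume : Measure E3).prod volume) := by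
  obtain ⟨K, _, hK⟩ := pot_bd
  have hm : Measurable (k2 f k) := by
    have h1 : Measurable fun p : E3 × E3 => f p.1 := h.fm.comp measurable_fst
    have h2 : Measurable fun p : E3 × E3 => k p.2 := h'.fm.comp measurable_snd
    have h3 : Measurable fun p : E3 × E3 => ‖p.1 - p.2‖ :=
      (continuous_fst.sub continuous_snd).norm.measurable
    exact ((h1.pow_const 2).mul (h2.pow_const 2)).div h3
  rw [integrable_prod_iff hm.aestronglyMeasurable]
  have he : ∀ x, (fun y => k2 f k (x, y)) = fun y => f x ^ 2 * (k y ^ 2 / ‖y - x‖) := by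
    intro x
    funext y
    unfold k2
    rw [norm_sub_rev]
    ring
  constructor
  · filter_upwards with x
    rw [he x]
    exact (h'.pot_int x).const_mul _
  · have h2 : (fun x => ∫ y, ‖k2 f k (x, y)‖) = fun x => f x ^ 2 * Ph k x := by
      funext x
      have : (fun y => ‖k2 f k (x, y)‖) = fun y => k2 f k (x, y) := by
        funext y
        apply Real.norm_of_nonneg
        unfold k2
        positivity
      rw [this, he x, integral_const_mul]
      rfl
    rw [h2]
    refine Integrable.mono' (h.sq_int.mul_const (K * 1 * Tk w + Ms k / 1)) ?_ ?_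
    · rw [← h2]
      exact hm.norm.aestronglyMeasurable.integral_prod_right'
    · filter_upwards with x
      rw [Real.norm_of_nonneg (mul_nonneg (sq_nonneg _) (Ph_nonneg k x))]
      exact mul_le_mul_of_nonneg_left ((hK k w h' x).2 1 one_pos) (sq_nonneg _)

/-- the derivative of the Coulomb integrand -/
noncomputable def dk (f k : E3 → ℝ) (t : ℝ) (p : E3 × E3) : ℝ :=
  (2 * ((f p.1 + t * k p.1) * k p.1) * (f p.2 + t * k p.2) ^ 2 +
    (f p.1 + t * k p.1) ^ 2 * (2 * ((f p.2 + t * k p.2) * k p.2))) / ‖p.1 - p.2‖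

lemma ab_bound {a b t : ℝ} (ht : |t| ≤ 1) :
    |(a + t * b)| ^ 2 ≤ (a + b) ^ 2 + (a - b) ^ 2 ∧ |b| ^ 2 ≤ (a + b) ^ 2 + (a - b) ^ 2 ∧
      |(a + t * b) * b| ≤ (a + b) ^ 2 + (a - b) ^ 2 := by
  have h1 : -1 ≤ t ∧ t ≤ 1 := abs_le.1 ht
  have h0 : t ^ 2 ≤ 1 := by nlinarith [h1.1, h1.2]
  have e1 : |(a + t * b)| ^ 2 ≤ (a + b) ^ 2 + (a - b) ^ 2 := by
    rw [sq_abs]
    have : (a + t * b) ^ 2 ≤ 2 * (a ^ 2 + t ^ 2 * b ^ 2) := by nlinarith [sq_nonneg (a - t * b)]
    have h3 : t ^ 2 * b ^ 2 ≤ 1 * b ^ 2 := mul_le_mul_of_nonneg_right h0 (sq_nonneg _)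
    nlinarith
  have e2 : |b| ^ 2 ≤ (a + b) ^ 2 + (a - b) ^ 2 := by
    rw [sq_abs]
    nlinarith [sq_nonneg a, sq_nonneg b]
  refine ⟨e1, e2, ?_⟩
  rw [abs_mul]
  nlinarith [sq_nonneg (|a + t * b| - |b|)]

lemma Dd_deriv (h : H1 f g) (h' : H1 k w) :
    HasDerivAt (fun t : ℝ => Dd (fun x => f x + t * k x)) (2 * ∫ x, f x * k x * Ph f x) 0 := by
  have hu := h.lin h' 1
  have hv := h.lin h' (-1)
  set u : E3 → ℝ := fun x => f x + 1 * k x with hudef
  set v : E3 → ℝ := fun x => f x + (-1) * k x with hvdef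
  have hm1 : Measurable fun p : E3 × E3 => f p.1 := h.fm.comp measurable_fst
  have hm2 : Measurable fun p : E3 × E3 => f p.2 := h.fm.comp measurable_snd
  have hm3 : Measurable fun p : E3 × E3 => k p.1 := h'.fm.comp measurable_fst
  have hm4 : Measurable fun p : E3 × E3 => k p.2 := h'.fm.comp measurable_snd
  have hm5 : Measurable fun p : E3 × E3 => ‖p.1 - p.2‖ :=
    (continuous_fst.sub continuous_snd).norm.measurable
  have hdkm : ∀ t, Measurable (dk f k t) := by
    intro t
    unfold dk
    exact (((((hm1.add (hm3.const_mul t)).mul hm3).const_mul 2).mul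
      ((hm2.add (hm4.const_mul t)).pow_const 2)).add
      (((hm1.add (hm3.const_mul t)).pow_const 2).mul
        (((hm2.add (hm4.const_mul t)).mul hm4).const_mul 2))).div hm5
  have hb : Integrable (fun p => 4 * (k2 u u p + k2 u v p + (k2 v u p + k2 v v p)))
      ((volume : Measure E3).prod volume) :=
    (((k2_int hu hu).add (k2_int hu hv)).add ((k2_int hv hu).add (k2_int hv hv))).const_mul 4
  have hmain := hasDerivAt_integral_of_dominated_loc_of_deriv_le
    (μ := (volume : Measure E3).prod volume) (F := fun (t : ℝ) p => kk (fun x => f x + t * k x) p)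
    (F' := fun t p => dk f k t p) (x₀ := (0 : ℝ)) (s := Metric.ball 0 1)
    (bound := fun p => 4 * (k2 u u p + k2 u v p + (k2 v u p + k2 v v p)))
    (Metric.ball_mem_nhds 0 one_pos)
    (Eventually.of_forall fun t => (kk_meas (h.fm.add (h'.fm.const_mul t))).aestronglyMeasurable)
    (h.lin h' 0).kk_int (hdkm 0).aestronglyMeasurable
    (Eventually.of_forall fun p t ht => by
      have ht1 : |t| ≤ 1 := by
        have : |t| < 1 := by simpa using ht
        exact this.le
      obtain ⟨a1, a2, a3⟩ := ab_bound (a := f p.1) (b := k p.1) ht1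
      obtain ⟨b1, b2, b3⟩ := ab_bound (a := f p.2) (b := k p.2) ht1
      set P := (f p.1 + k p.1) ^ 2 + (f p.1 - k p.1) ^ 2 with hP
      set Q := (f p.2 + k p.2) ^ 2 + (f p.2 - k p.2) ^ 2 with hQ
      have hP0 : 0 ≤ P := by positivity
      have hQ0 : 0 ≤ Q := by positivity
      have e : 4 * (k2 u u p + k2 u v p + (k2 v u p + k2 v v p)) = 4 * (P * Q) / ‖p.1 - p.2‖ := by
        rw [hP, hQ]
        unfold k2
        simp only [hudef, hvdef]
        ring
      rw [e]
      unfold dk
      rw [norm_div, norm_norm]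
      apply div_le_div_of_nonneg_right _ (norm_nonneg _)
      rw [Real.norm_eq_abs]
      refine (abs_add_le _ _).trans ?_
      have h2 : |(2 : ℝ)| = 2 := abs_of_pos two_pos
      have e5 : |2 * ((f p.1 + t * k p.1) * k p.1) * (f p.2 + t * k p.2) ^ 2| =
          2 * (|(f p.1 + t * k p.1) * k p.1| * |f p.2 + t * k p.2| ^ 2) := by
        rw [abs_mul, abs_mul 2, abs_pow, h2]
        ring
      have e6 : |(f p.1 + t * k p.1) ^ 2 * (2 * ((f p.2 + t * k p.2) * k p.2))| =
          2 * (|f p.1 + t * k p.1| ^ 2 * |(f p.2 + t * k p.2) * k p.2|) := by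
        rw [abs_mul, abs_mul 2, abs_pow, h2]
        ring
      rw [e5, e6]
      have c1 : |(f p.1 + t * k p.1) * k p.1| * |f p.2 + t * k p.2| ^ 2 ≤ P * Q :=
        mul_le_mul a3 b1 (by positivity) hP0
      have c2 : |f p.1 + t * k p.1| ^ 2 * |(f p.2 + t * k p.2) * k p.2| ≤ P * Q :=
        mul_le_mul a1 b3 (abs_nonneg _) hP0
      linarith) hb
    (Eventually.of_forall fun p t _ => by
      have d1 : HasDerivAt (fun t : ℝ => f p.1 + t * k p.1) (k p.1) t := by
        simpa using ((hasDerivAt_id t).mul_const (k p.1)).const_add (f p.1)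
      have d2 : HasDerivAt (fun t : ℝ => f p.2 + t * k p.2) (k p.2) t := by
        simpa using ((hasDerivAt_id t).mul_const (k p.2)).const_add (f p.2)
      have d3 := ((d1.pow 2).mul (d2.pow 2)).div_const ‖p.1 - p.2‖
      refine d3.congr_deriv ?_
      unfold dk
      congr 1
      simp only [Pi.pow_apply]
      push_cast
      ring)
  obtain ⟨hdi, hd⟩ := hmain
  have hd2 := hd.const_mul (1 / 2)
  have hval : 1 / 2 * ∫ p, dk f k 0 p ∂((volume : Measure E3).prod volume) =
      2 * ∫ x, f x * k x * Ph f x := by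
    have e0 : ∀ p, dk f k 0 p = 2 * (f p.1 * k p.1 * f p.2 ^ 2 / ‖p.1 - p.2‖) +
        2 * (f p.1 ^ 2 * (f p.2 * k p.2) / ‖p.1 - p.2‖) := by
      intro p
      unfold dk
      ring
    -- integrability of the two halves
    have i1 : Integrable (fun p : E3 × E3 => f p.1 * k p.1 * f p.2 ^ 2 / ‖p.1 - p.2‖)
        ((volume : Measure E3).prod volume) := by
      refine Integrable.mono' ((k2_int h h).add (k2_int h' h))
        (((hm1.mul hm3).mul (hm2.pow_const 2)).div hm5).aestronglyMeasurable ?_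
      filter_upwards with p
      show ‖f p.1 * k p.1 * f p.2 ^ 2 / ‖p.1 - p.2‖‖ ≤ k2 f f p + k2 k f p
      unfold k2
      rw [norm_div, norm_norm, ← add_div]
      apply div_le_div_of_nonneg_right _ (norm_nonneg _)
      rw [norm_mul, Real.norm_of_nonneg (sq_nonneg (f p.2)), ← add_mul]
      apply mul_le_mul_of_nonneg_right _ (sq_nonneg _)
      rw [norm_mul, Real.norm_eq_abs, Real.norm_eq_abs]
      nlinarith [sq_nonneg (|f p.1| - |k p.1|), sq_abs (f p.1), sq_abs (k p.1),
        sq_nonneg (f p.1), sq_nonneg (k p.1)]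
    have i2 : Integrable (fun p : E3 × E3 => f p.1 ^ 2 * (f p.2 * k p.2) / ‖p.1 - p.2‖)
        ((volume : Measure E3).prod volume) := by
      have := i1.swap
      refine this.congr ?_
      filter_upwards with p
      simp only [Function.comp_apply, Prod.fst_swap, Prod.snd_swap]
      rw [norm_sub_rev]
      ring
    have e1 : ∫ p : E3 × E3, f p.1 * k p.1 * f p.2 ^ 2 / ‖p.1 - p.2‖
        ∂((volume : Measure E3).prod volume) = ∫ x, f x * k x * Ph f x := by
      rw [integral_prod _ i1]
      apply integral_congr_ae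
      filter_upwards with x
      unfold Ph
      rw [← integral_const_mul]
      apply integral_congr_ae
      filter_upwards with y
      show f x * k x * f y ^ 2 / ‖x - y‖ = f x * k x * (f y ^ 2 / ‖y - x‖)
      rw [norm_sub_rev]
      ring
    have e2 : ∫ p : E3 × E3, f p.1 ^ 2 * (f p.2 * k p.2) / ‖p.1 - p.2‖
        ∂((volume : Measure E3).prod volume) = ∫ x, f x * k x * Ph f x := by
      rw [← e1, ← integral_prod_swap]
      apply integral_congr_ae
      filter_upwards with p
      simp only [Prod.fst_swap, Prod.snd_swap]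
      rw [norm_sub_rev]
      ring
    simp only [e0]
    rw [integral_add (i1.const_mul 2) (i2.const_mul 2), integral_const_mul, integral_const_mul,
      e1, e2]
    ring
  rw [hval] at hd2
  exact hd2

/-- `W' (u) / u` -/
noncomputable def jj (u : ℝ) : ℝ :=
  2 * ((u ^ 2) ^ (1 / 3 : ℝ) - 1) * (5 / 3 * (u ^ 2) ^ (1 / 3 : ℝ) - 1)

lemma jj_cont : Continuous jj := by
  unfold jj
  have h : Continuous fun u : ℝ => (u ^ 2) ^ (1 / 3 : ℝ) :=
    (continuous_pow 2).rpow_const fun x => Or.inr (by norm_num)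
  exact (continuous_const.mul (h.sub continuous_const)).mul
    ((continuous_const.mul h).sub continuous_const)

lemma W_deriv {u : ℝ} (hu : 0 < u) : HasDerivAt W (u * jj u) u := by
  have h1 : HasDerivAt (fun u : ℝ => u ^ 2) (2 * u) u := by
    simpa using hasDerivAt_pow 2 u
  have h2 := h1.rpow_const (p := 1 / 3) (Or.inl (by positivity))
  have h3 := h1.mul ((h2.sub_const 1).pow 2)
  refine h3.congr_deriv ?_
  have hy : (u ^ 2 : ℝ) ^ (1 / 3 - 1 : ℝ) = (u ^ 2) ^ (1 / 3 : ℝ) / u ^ 2 := by
    rw [Real.rpow_sub_one (by positivity)]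
  unfold jj
  simp only [Pi.pow_apply]
  rw [hy]
  set y := (u ^ 2 : ℝ) ^ (1 / 3 : ℝ) with hydef
  push_cast
  field_simp
  ring

lemma jj_mono {u v : ℝ} (hu : 3 / 4 ≤ u) (huv : u ≤ v) : jj u ≤ jj v := by
  unfold jj
  have hu0 : 0 ≤ u := by linarith
  set y := (u ^ 2 : ℝ) ^ (1 / 3 : ℝ) with hy
  set x := (v ^ 2 : ℝ) ^ (1 / 3 : ℝ) with hx
  have hyx : y ≤ x := Real.rpow_le_rpow (by positivity) (pow_le_pow_left₀ hu0 huv 2) (by norm_num)
  have hy0 : 0 ≤ y := cbrt_nonneg u
  have hy3 : y ^ 3 = u ^ 2 := cbrt_cube u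
  have h1 : 4 / 5 ≤ y := by
    by_contra hc
    push Not at hc
    have h2 : y ^ 3 < (4 / 5 : ℝ) ^ 3 := pow_lt_pow_left₀ hc hy0 (by norm_num)
    have h3 : (3 / 4 : ℝ) ^ 2 ≤ u ^ 2 := pow_le_pow_left₀ (by norm_num) hu 2
    rw [hy3] at h2
    norm_num at h2 h3
    linarith
  have e : 2 * (x - 1) * (5 / 3 * x - 1) - 2 * (y - 1) * (5 / 3 * y - 1) =
      (x - y) * (10 / 3 * (x + y) - 16 / 3) := by ring
  have h4 : 0 ≤ (x - y) * (10 / 3 * (x + y) - 16 / 3) :=
    mul_nonneg (by linarith) (by linarith)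
  linarith

lemma Ws_deriv (h : H1 f g) (h' : H1 k w) {B Cm : ℝ} (hB : 0 < B) (hkB : ∀ x, |k x| ≤ B)
    (hr : ∀ x, k x ≠ 0 → 3 / 4 ≤ f x ∧ f x ≤ Cm) (hk : Integrable k volume) :
    Integrable (fun x => k x * (f x * jj (f x))) volume ∧
    HasDerivAt (fun t : ℝ => Ws (fun x => f x + t * k x)) (∫ x, k x * (f x * jj (f x))) 0 := by
  have hc : Continuous fun u : ℝ => u * jj u := continuous_id.mul jj_cont
  obtain ⟨C, hC⟩ := (isCompact_Icc (a := (1 / 2 : ℝ)) (b := Cm + 1 / 4)).exists_bound_of_continuousOn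
    hc.continuousOn
  set C' := max C 0 with hC'
  have hmain := hasDerivAt_integral_of_dominated_loc_of_deriv_le
    (μ := (volume : Measure E3)) (F := fun (t : ℝ) x => W (f x + t * k x))
    (F' := fun t x => k x * ((f x + t * k x) * jj (f x + t * k x)))
    (x₀ := (0 : ℝ)) (s := Metric.ball 0 (1 / (4 * B)))
    (bound := fun x => |k x| * C')
    (Metric.ball_mem_nhds 0 (by positivity))
    (Eventually.of_forall fun t => (W_cont.measurable.comp
      (h.fm.add (h'.fm.const_mul t))).aestronglyMeasurable)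
    (h.lin h' 0).W_int
    ((h'.fm.mul (hc.measurable.comp (h.fm.add (h'.fm.const_mul 0)))).aestronglyMeasurable)
    (Eventually.of_forall fun x t ht => by
      have ht1 : |t| < 1 / (4 * B) := by simpa using ht
      rw [norm_mul, Real.norm_eq_abs]
      by_cases hx : k x = 0
      · rw [hx]
        simp
      · obtain ⟨h1, h2⟩ := hr x hx
        apply mul_le_mul_of_nonneg_left _ (abs_nonneg _)
        refine le_trans (hC _ ?_) (le_max_left _ _)
        have h3 : |t * k x| ≤ 1 / 4 := by
          rw [abs_mul]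
          calc |t| * |k x| ≤ 1 / (4 * B) * B :=
                mul_le_mul ht1.le (hkB x) (abs_nonneg _) (by positivity)
            _ = 1 / 4 := by field_simp
        have h4 := abs_le.1 h3
        exact ⟨by linarith [h4.1], by linarith [h4.2]⟩) (hk.abs.mul_const C')
    (Eventually.of_forall fun x t ht => by
      have ht1 : |t| < 1 / (4 * B) := by simpa using ht
      by_cases hx : k x = 0
      · simp only [hx, mul_zero, add_zero, zero_mul]
        exact hasDerivAt_const t _
      · obtain ⟨h1, h2⟩ := hr x hx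
        have h3 : |t * k x| ≤ 1 / 4 := by
          rw [abs_mul]
          calc |t| * |k x| ≤ 1 / (4 * B) * B :=
                mul_le_mul ht1.le (hkB x) (abs_nonneg _) (by positivity)
            _ = 1 / 4 := by field_simp
        have h4 := abs_le.1 h3
        have d1 : HasDerivAt (fun t : ℝ => f x + t * k x) (k x) t := by
          simpa using ((hasDerivAt_id t).mul_const (k x)).const_add (f x)
        have d2 := (W_deriv (u := f x + t * k x) (by linarith [h4.1])).comp t d1
        refine d2.congr_deriv ?_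
        ring)
  obtain ⟨h1, h2⟩ := hmain
  simp only [zero_mul, add_zero] at h1 h2
  exact ⟨h1, h2⟩

end Pool.Agent.Helper26.Tf
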