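import Pool.Agent.Helper26.Tf.Var

set_option autoImplicit false
set_option linter.unusedVariables false

namespace Pool.Agent.Helper26.Tf

open MeasureTheory Filter Topology Set Pool.Agent.TFDW
open scoped ENNReal NNReal ContDiff

variable {f : E3 → ℝ} {g : E3 → E3} {k : E3 → ℝ} {w : E3 → E3}

lemma Tk_lin (h : H1 f g) (h' : H1 k w) (t : ℝ) :
    Tk (fun x => g x + t • w x) = Tk g + t * (2 * ∫ x, inner ℝ (g x) (w x)) + t ^ 2 * Tk w := by
  have i1 := inner_int h.g2 h'.g2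
  have e : ∀ x, ‖g x + t • w x‖ ^ 2 = ‖g x‖ ^ 2 + (2 * t) * inner ℝ (g x) (w x) +
      t ^ 2 * ‖w x‖ ^ 2 := by
    intro x
    rw [norm_add_sq_real, real_inner_smul_right, norm_smul, mul_pow, Real.norm_eq_abs, sq_abs]
    ring
  have j1 : Integrable (fun x => ‖g x‖ ^ 2 + (2 * t) * inner ℝ (g x) (w x)) volume :=
    h.gsq_int.add (i1.const_mul _)
  unfold Tk
  simp only [e]
  rw [integral_add j1 (h'.gsq_int.const_mul _), integral_add h.gsq_int (i1.const_mul _),
    integral_const_mul, integral_const_mul]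
  ring

lemma fk_int (h : H1 f g) (h' : H1 k w) : Integrable (fun x => f x * k x) volume :=
  h.f2.integrable_mul h'.f2

lemma Ms_lin (h : H1 f g) (h' : H1 k w) (t : ℝ) :
    Ms (fun x => f x + t * k x) = Ms f + t * (2 * ∫ x, f x * k x) + t ^ 2 * Ms k := by
  have i1 := fk_int h h'
  have e : ∀ x, (f x + t * k x) ^ 2 = f x ^ 2 + (2 * t) * (f x * k x) + t ^ 2 * k x ^ 2 := by
    intro x
    ring
  have j1 : Integrable (fun x => f x ^ 2 + (2 * t) * (f x * k x)) volume :=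
    h.sq_int.add (i1.const_mul _)
  unfold Ms
  simp only [e]
  rw [integral_add j1 (h'.sq_int.const_mul _), integral_add h.sq_int (i1.const_mul _),
    integral_const_mul, integral_const_mul]
  ring

lemma fkp_int (h : H1 f g) (h' : H1 k w) : Integrable (fun x => f x * k x / ‖x - 0‖) volume := by
  refine Integrable.mono' ((h.pot_int 0).add (h'.pot_int 0))
    ((h.fm.mul h'.fm).div ((measurable_id.sub_const 0).norm)).aestronglyMeasurable ?_
  filter_upwards with x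
  show ‖f x * k x / ‖x - 0‖‖ ≤ f x ^ 2 / ‖x - 0‖ + k x ^ 2 / ‖x - 0‖
  rw [norm_div, norm_norm, ← add_div]
  apply div_le_div_of_nonneg_right _ (norm_nonneg _)
  rw [norm_mul, Real.norm_eq_abs, Real.norm_eq_abs]
  nlinarith [sq_nonneg (|f x| - |k x|), sq_abs (f x), sq_abs (k x), sq_nonneg (f x),
    sq_nonneg (k x)]

lemma Ph_lin (h : H1 f g) (h' : H1 k w) (t : ℝ) :
    Ph (fun x => f x + t * k x) 0 = Ph f 0 + t * (2 * ∫ x, f x * k x / ‖x - 0‖) +
      t ^ 2 * Ph k 0 := by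
  have i1 := fkp_int h h'
  have e : ∀ x : E3, (f x + t * k x) ^ 2 / ‖x - 0‖ = f x ^ 2 / ‖x - 0‖ +
      (2 * t) * (f x * k x / ‖x - 0‖) + t ^ 2 * (k x ^ 2 / ‖x - 0‖) := by
    intro x
    ring
  have j1 : Integrable (fun x => f x ^ 2 / ‖x - 0‖ + (2 * t) * (f x * k x / ‖x - 0‖)) volume :=
    (h.pot_int 0).add (i1.const_mul _)
  unfold Ph
  simp only [e]
  rw [integral_add j1 ((h'.pot_int 0).const_mul _), integral_add (h.pot_int 0) (i1.const_mul _),
    integral_const_mul, integral_const_mul]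
  ring

lemma quad_deriv (a b c : ℝ) : HasDerivAt (fun t : ℝ => a + t * b + t ^ 2 * c) b 0 := by
  have h1 : HasDerivAt (fun t : ℝ => t * b) b 0 := by
    simpa using (hasDerivAt_id (0 : ℝ)).mul_const b
  have h2 : HasDerivAt (fun t : ℝ => t ^ 2 * c) 0 0 := by
    simpa using (hasDerivAt_pow 2 (0 : ℝ)).mul_const c
  have h3 := (h1.const_add a).add h2
  rw [add_zero] at h3
  exact h3

/-- The first variation inequality. -/
lemma first_var (h : H1 f g) (h' : H1 k w) {A z : ℝ}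
    (hmin : ∀ u v, H1 u v → Ms u ≤ Ms f → GG A z f g ≤ GG A z u v) {B Cm : ℝ} (hB : 0 < B)
    (hkB : ∀ x, |k x| ≤ B) (hr : ∀ x, k x ≠ 0 → 3 / 4 ≤ f x ∧ f x ≤ Cm)
    (hk : Integrable k volume) (hneg : ∫ x, f x * k x < 0) :
    0 ≤ A * (2 * ∫ x, inner ℝ (g x) (w x)) + (∫ x, k x * (f x * jj (f x))) +
      2 * (∫ x, f x * k x * Ph f x) - dl A * (2 * ∫ x, f x * k x) -
      z * (2 * ∫ x, f x * k x / ‖x - 0‖) := by
  set D := A * (2 * ∫ x, inner ℝ (g x) (w x)) + (∫ x, k x * (f x * jj (f x))) +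
      2 * (∫ x, f x * k x * Ph f x) - dl A * (2 * ∫ x, f x * k x) -
      z * (2 * ∫ x, f x * k x / ‖x - 0‖) with hD
  have hd : HasDerivAt (fun t : ℝ => GG A z (fun x => f x + t * k x) (fun x => g x + t • w x))
      D 0 := by
    unfold GG NN
    simp only [Tk_lin h h', Ms_lin h h', Ph_lin h h']
    exact (((((quad_deriv _ _ _).const_mul A).add (Ws_deriv h h' hB hkB hr hk).2).add
      (Dd_deriv h h')).sub ((quad_deriv _ _ _).const_mul (dl A))).sub
      ((quad_deriv _ _ _).const_mul z)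
  have hs := hasDerivAt_iff_tendsto_slope_zero.1 hd
  have hs2 := hs.mono_left (nhdsGT_le_nhdsNE (0 : ℝ))
  apply ge_of_tendsto hs2
  have hMk := Ms_nonneg k
  have ht0 : 0 < -(2 * ∫ x, f x * k x) / (Ms k + 1) := by
    apply div_pos _ (by positivity)
    linarith
  filter_upwards [Ioo_mem_nhdsGT ht0] with t ht
  have ht1 : 0 < t := ht.1
  have ht2 : t < -(2 * ∫ x, f x * k x) / (Ms k + 1) := ht.2
  rw [lt_div_iff₀ (by positivity)] at ht2
  have hM : Ms (fun x => f x + t * k x) ≤ Ms f := by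
    rw [Ms_lin h h']
    nlinarith
  have h1 := hmin _ _ (h.lin h' t) hM
  have e0 : GG A z (fun x => f x + 0 * k x) (fun x => g x + (0 : ℝ) • w x) = GG A z f g := by
    simp
  simp only [zero_add, smul_eq_mul]
  rw [e0]
  apply mul_nonneg (by positivity)
  linarith

/-- the radial bump -/
noncomputable def bp (b a w : ℝ) (x : E3) : ℝ := ct b w x - ct a w x

lemma bp_zero_in {b a w : ℝ} (hw : 0 < w) (hab : a + w ≤ b) {x : E3} (hx : ‖x‖ ≤ a) :
    bp b a w x = 0 := by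
  unfold bp
  rw [ct_one hw (by linarith : ‖x‖ ≤ b), ct_one hw hx, sub_self]

lemma bp_zero_out {b a w : ℝ} (hw : 0 < w) (hab : a + w ≤ b) {x : E3} (hx : b + w ≤ ‖x‖) :
    bp b a w x = 0 := by
  unfold bp
  rw [ct_zero hw hx, ct_zero hw (by linarith : a + w ≤ ‖x‖), sub_self]

lemma bp_one {b a w : ℝ} (hw : 0 < w) {x : E3} (hx : a + w ≤ ‖x‖) (hx2 : ‖x‖ ≤ b) :
    bp b a w x = 1 := by
  unfold bp
  rw [ct_one hw hx2, ct_zero hw hx, sub_zero]

lemma bp_nonneg {b a w : ℝ} (hw : 0 < w) (hab : a + w ≤ b) (x : E3) : 0 ≤ bp b a w x := by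
  unfold bp
  rcases le_or_gt ‖x‖ b with h | h
  · rw [ct_one hw h]
    linarith [ct_le_one a w x]
  · rw [ct_zero hw (by linarith : a + w ≤ ‖x‖)]
    linarith [ct_nonneg b w x]

lemma bp_le_one (b a w : ℝ) (x : E3) : bp b a w x ≤ 1 := by
  unfold bp
  linarith [ct_nonneg a w x, ct_le_one b w x]

lemma ct_int {R w : ℝ} (hR : 0 < R) (hw : 0 < w) : Integrable (ct R w) volume :=
  (ct_smooth hR hw).continuous.integrable_of_hasCompactSupport (ct_supp hw)

lemma ct_T' {L : ℝ} (hL : ∀ R w : ℝ, 0 < w → ∀ x, ‖fderiv ℝ (ct R w) x‖ ≤ L / w)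
    {R w s : ℝ} (hR : 0 < R) (hw : 0 < w) (hs : R + w ≤ s) :
    Tk (gradient (ct R w)) ≤ (L / w) ^ 2 * vol s := by
  refine (ct_T hL hR hw).trans (mul_le_mul_of_nonneg_left ?_ (sq_nonneg _))
  have h1 := vol_pos hR
  have h2 := vol_mono (by positivity : 0 ≤ R + w) hs
  linarith

lemma Tk_lin_le (h : H1 f g) (h' : H1 k w) (c : ℝ) :
    Tk (fun x => g x + c • w x) ≤ 2 * (Tk g + c ^ 2 * Tk w) := by
  have e : 2 * (Tk g + c ^ 2 * Tk w) = ∫ x, 2 * (‖g x‖ ^ 2 + c ^ 2 * ‖w x‖ ^ 2) := by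
    rw [integral_const_mul, integral_add h.gsq_int (h'.gsq_int.const_mul _), integral_const_mul]
    rfl
  rw [e]
  apply integral_mono (h.lin h' c).gsq_int
    ((h.gsq_int.add (h'.gsq_int.const_mul _)).const_mul 2)
  intro x
  show ‖g x + c • w x‖ ^ 2 ≤ 2 * (‖g x‖ ^ 2 + c ^ 2 * ‖w x‖ ^ 2)
  have h1 : ‖g x + c • w x‖ ≤ ‖g x‖ + |c| * ‖w x‖ := by
    refine (norm_add_le _ _).trans ?_
    rw [norm_smul, Real.norm_eq_abs]
  have h2 := pow_le_pow_left₀ (norm_nonneg _) h1 2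
  have h3 : (|c| * ‖w x‖) ^ 2 = c ^ 2 * ‖w x‖ ^ 2 := by rw [mul_pow, sq_abs]
  nlinarith [sq_nonneg (‖g x‖ - |c| * ‖w x‖)]

lemma bp_H1 {b a w : ℝ} (ha : 0 < a) (hb : 0 < b) (hw : 0 < w) :
    H1 (bp b a w) (fun x => gradient (ct b w) x + (-1 : ℝ) • gradient (ct a w) x) := by
  have h := (ct_H1 hb hw).lin (ct_H1 ha hw) (-1)
  have e : (fun x => ct b w x + (-1) * ct a w x) = bp b a w := by
    funext x
    unfold bp
    ring
  rw [e] at h
  exact h

lemma bp_T {L : ℝ} (hL : ∀ R w : ℝ, 0 < w → ∀ x, ‖fderiv ℝ (ct R w) x‖ ≤ L / w)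
    {b a w s : ℝ} (ha : 0 < a) (hb : 0 < b) (hw : 0 < w) (hab : a + w ≤ b) (hs : b + w ≤ s) :
    Tk (fun x => gradient (ct b w) x + (-1 : ℝ) • gradient (ct a w) x) ≤
      4 * (L / w) ^ 2 * vol s := by
  have h1 := Tk_lin_le (ct_H1 hb hw) (ct_H1 ha hw) (-1)
  have h2 := ct_T' hL hb hw hs
  have h3 := ct_T' hL ha hw (by linarith : a + w ≤ s)
  norm_num at h1
  have e : (fun x => gradient (ct b w) x + (-1 : ℝ) • gradient (ct a w) x) =
      fun x => gradient (ct b w) x + -gradient (ct a w) x := by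
    funext x
    rw [neg_one_smul]
  rw [e]
  linarith

/-- lower bound for the weighted bump -/
lemma bp_lower (h : H1 f g) {F : ℝ → ℝ} (hF0 : ∀ r, 0 ≤ F r) (hf : f = fun x => F ‖x‖) {ρ : ℝ}
    (hρ : ∀ s, 0 ≤ s → s < ρ → 3 / 4 ≤ F s) {b a w : ℝ} (ha : 0 < a) (hw : 0 < w)
    (hab : a + w ≤ b) (hb : b ≤ ρ) :
    3 / 4 * (vol b - vol (a + w)) ≤ ∫ x, f x * bp b a w x := by
  set S := Metric.ball (0 : E3) b \ Metric.closedBall 0 (a + w) with hS
  have hSm : MeasurableSet S := measurableSet_ball.diff measurableSet_closedBall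
  have hb0 : 0 < b := by linarith
  have hvS := shell_meas hb0.le hab
  rw [← hS, max_eq_left (by positivity)] at hvS
  have hfin : (volume : Measure E3) S ≠ ⊤ :=
    (lt_of_le_of_lt (measure_mono sdiff_subset) measure_ball_lt_top).ne
  have h3 : ∫ x, S.indicator (fun _ => (3 / 4 : ℝ)) x ≤ ∫ x, f x * bp b a w x := by
    apply integral_mono _ (fk_int h (bp_H1 ha hb0 hw))
    · intro x
      show S.indicator (fun _ => (3 / 4 : ℝ)) x ≤ f x * bp b a w x
      have e : f x = F ‖x‖ := by rw [hf]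
      by_cases hx : x ∈ S
      · rw [indicator_of_mem hx]
        have hx1 : ‖x‖ < b := by simpa using hx.1
        have hx2 : a + w < ‖x‖ := by simpa using hx.2
        rw [bp_one hw hx2.le hx1.le, mul_one, e]
        exact hρ _ (norm_nonneg x) (by linarith)
      · rw [indicator_of_notMem hx, e]
        exact mul_nonneg (hF0 _) (bp_nonneg hw hab x)
    · rw [integrable_indicator_iff hSm]
      exact integrableOn_const (hs := hfin)
  rw [integral_indicator hSm, setIntegral_const, hvS, smul_eq_mul] at h3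
  linarith

/-- upper bound for the weighted bump -/
lemma bp_upper (h : H1 f g) {b a w Cm : ℝ} (ha : 0 < a) (hw : 0 < w)
    (hab : a + w ≤ b) (hCm : 0 ≤ Cm) (hr : ∀ x, a ≤ ‖x‖ → f x ≤ Cm) :
    ∫ x, f x * bp b a w x ≤ Cm * vol (b + w) := by
  have hb0 : 0 < b := by linarith
  rw [← int_ball_const (by positivity : 0 ≤ b + w)]
  apply integral_mono (fk_int h (bp_H1 ha hb0 hw)) (int_ball_const' Cm)
  intro x
  show f x * bp b a w x ≤ (Metric.closedBall (0 : E3) (b + w)).indicator (fun _ => Cm) x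
  have h0 := bp_nonneg hw hab x
  have h1 := bp_le_one b a w x
  by_cases hx : x ∈ Metric.closedBall (0 : E3) (b + w)
  · rw [indicator_of_mem hx]
    rcases le_or_gt a ‖x‖ with hax | hax
    · have := hr x hax
      nlinarith
    · rw [bp_zero_in hw hab hax.le, mul_zero]
      exact hCm
  · rw [indicator_of_notMem hx]
    have : b + w < ‖x‖ := by simpa using hx
    rw [bp_zero_out hw hab this.le, mul_zero]

/-- the height inside the droplet is bounded -/
lemma height (h : H1 f g) {F : ℝ → ℝ} (hF : Antitone F) (hF0 : ∀ r, 0 ≤ F r)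
    (hf : f = fun x => F ‖x‖) {ρ : ℝ} (hρ : 0 < ρ) (hM : Ms f ≤ 18 * vol ρ) : F (ρ / 4) ≤ 34 := by
  have h1 : F (ρ / 4) ^ 2 * vol (ρ / 4) ≤ Ms f := by
    rw [← int_ball_const (by positivity : 0 ≤ ρ / 4)]
    apply integral_mono (int_ball_const' _) h.sq_int
    intro x
    show (Metric.closedBall (0 : E3) (ρ / 4)).indicator (fun _ => F (ρ / 4) ^ 2) x ≤ f x ^ 2
    by_cases hx : x ∈ Metric.closedBall (0 : E3) (ρ / 4)
    · rw [indicator_of_mem hx]
      have hx' : ‖x‖ ≤ ρ / 4 := by simpa using hx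
      rw [hf]
      exact pow_le_pow_left₀ (hF0 _) (hF hx') 2
    · rw [indicator_of_notMem hx]
      exact sq_nonneg _
  have h2 : vol ρ = 64 * vol (ρ / 4) := by
    unfold vol
    ring
  have h3 : 0 < vol (ρ / 4) := vol_pos (by positivity)
  rw [h2] at hM
  have h4 : F (ρ / 4) ^ 2 * vol (ρ / 4) ≤ 1152 * vol (ρ / 4) := by linarith
  have h5 := le_of_mul_le_mul_right h4 h3
  by_contra hc
  push Not at hc
  nlinarith

end Pool.Agent.Helper26.Tf
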