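import Pool.Agent.Helper26.Tf.Trial

set_option autoImplicit false
set_option linter.unusedVariables false

namespace Pool.Agent.Helper26.Tf

open MeasureTheory Filter Topology Set Pool.Agent.TFDW
open scoped ENNReal NNReal ContDiff

variable {f : E3 → ℝ} {g : E3 → E3}

/-- bounded sequences in a separable Hilbert space have weakly convergent subsequences -/
lemma weak_seq {H : Type*} [NormedAddCommGroup H] [InnerProductSpace ℝ H] [CompleteSpace H]
    [TopologicalSpace.SeparableSpace H] (u : ℕ → H) (C : ℝ) (hu : ∀ n, ‖u n‖ ≤ C) :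
    ∃ v : H, ∃ φ : ℕ → ℕ, StrictMono φ ∧
      ∀ w, Tendsto (fun n => inner ℝ (u (φ n)) w) atTop (𝓝 (inner ℝ v w)) := by
  have hc := WeakDual.isSeqCompact_closedBall ℝ H (0 : StrongDual ℝ H) C
  obtain ⟨a, _, φ, hφ, ht⟩ := hc (x := fun n =>
    StrongDual.toWeakDual (InnerProductSpace.toDual ℝ H (u n))) (by
      intro n
      simp only [mem_preimage, Metric.mem_closedBall, dist_zero_right]
      calc ‖InnerProductSpace.toDual ℝ H (u n)‖ = ‖u n‖ := LinearIsometryEquiv.norm_map _ _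
        _ ≤ C := hu n)
  refine ⟨(InnerProductSpace.toDual ℝ H).symm (WeakDual.toStrongDual a), φ, hφ, fun w => ?_⟩
  have h1 := (WeakDual.eval_continuous (𝕜 := ℝ) w).continuousAt.tendsto.comp ht
  have h2 : inner ℝ ((InnerProductSpace.toDual ℝ H).symm (WeakDual.toStrongDual a)) w = a w := by
    rw [InnerProductSpace.toDual_symm_apply]
    rfl
  rw [h2]
  exact h1

lemma norm_sq_toLp {E : Type*} [NormedAddCommGroup E] [InnerProductSpace ℝ E] {u : E3 → E}
    (hu : MemLp u 2 (volume : Measure E3)) : ‖hu.toLp u‖ ^ 2 = ∫ x, ‖u x‖ ^ 2 := by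
  rw [← real_inner_self_eq_norm_sq, L2.inner_def]
  apply integral_congr_ae
  filter_upwards [hu.coeFn_toLp] with x hx
  rw [hx, real_inner_self_eq_norm_sq]

/-- weak limits of bounded sequences of square integrable functions -/
lemma weak_L2 {E : Type*} [NormedAddCommGroup E] [InnerProductSpace ℝ E] [CompleteSpace E]
    [SecondCountableTopology E] [MeasurableSpace E] [BorelSpace E]
    (u : ℕ → E3 → E) (hu : ∀ n, MemLp (u n) 2 (volume : Measure E3)) (C : ℝ)
    (hC : ∀ n, ∫ x, ‖u n x‖ ^ 2 ≤ C) :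
    ∃ v : E3 → E, Measurable v ∧ MemLp v 2 (volume : Measure E3) ∧ ∃ φ : ℕ → ℕ, StrictMono φ ∧
      ∀ w : E3 → E, MemLp w 2 (volume : Measure E3) →
        Tendsto (fun n => ∫ x, inner ℝ (u (φ n) x) (w x)) atTop (𝓝 (∫ x, inner ℝ (v x) (w x))) := by
  haveI : Fact ((1 : ℝ≥0∞) ≤ 2) := ⟨by norm_num⟩
  haveI : Fact ((2 : ℝ≥0∞) ≠ ⊤) := ⟨by norm_num⟩
  haveI : SecondCountableTopology (Lp E 2 (volume : Measure E3)) := inferInstance
  obtain ⟨v, φ, hφ, ht⟩ := weak_seq (H := Lp E 2 (volume : Measure E3))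
    (fun n => (hu n).toLp (u n)) (√C) (by
      intro n
      apply Real.le_sqrt_of_sq_le
      rw [norm_sq_toLp]
      exact hC n)
  refine ⟨v, (Lp.stronglyMeasurable v).measurable, Lp.memLp v, φ, hφ, fun w hw => ?_⟩
  have h1 := ht (hw.toLp w)
  simp only [L2.inner_def] at h1
  have e1 : ∀ n, ∫ x, inner ℝ ((hu (φ n)).toLp (u (φ n)) x) (hw.toLp w x) =
      ∫ x, inner ℝ (u (φ n) x) (w x) := by
    intro n
    apply integral_congr_ae
    filter_upwards [(hu (φ n)).coeFn_toLp, hw.coeFn_toLp] with x h1 h2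
    rw [h1, h2]
  have e2 : ∫ x, inner ℝ (v x) (hw.toLp w x) = ∫ x, inner ℝ (v x) (w x) := by
    apply integral_congr_ae
    filter_upwards [hw.coeFn_toLp] with x h2
    rw [h2]
  simp only [e1] at h1
  rw [e2] at h1
  exact h1

/-- Weak compactness for Sobolev functions. -/
lemma weak_H1 (f : ℕ → E3 → ℝ) (g : ℕ → E3 → E3) (h : ∀ n, H1 (f n) (g n)) (C : ℝ)
    (hM : ∀ n, Ms (f n) ≤ C) (hT : ∀ n, Tk (g n) ≤ C) :
    ∃ F G, H1 F G ∧ ∃ φ : ℕ → ℕ, StrictMono φ ∧
      (∀ ψ : E3 → ℝ, MemLp ψ 2 (volume : Measure E3) →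
        Tendsto (fun n => ∫ x, f (φ n) x * ψ x) atTop (𝓝 (∫ x, F x * ψ x))) ∧
      (∀ Ψ : E3 → E3, MemLp Ψ 2 (volume : Measure E3) →
        Tendsto (fun n => ∫ x, inner ℝ (g (φ n) x) (Ψ x)) atTop
          (𝓝 (∫ x, inner ℝ (G x) (Ψ x)))) := by
  obtain ⟨F, hFm, hF2, φ, hφ, hφt⟩ := weak_L2 f (fun n => (h n).f2) C (fun n => by
    have e : (fun x => ‖f n x‖ ^ 2) = fun x => f n x ^ 2 := by
      funext x
      rw [Real.norm_eq_abs, sq_abs]
    rw [e]
    exact hM n)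
  obtain ⟨G, hGm, hG2, ψ, hψ, hψt⟩ := weak_L2 (fun n => g (φ n)) (fun n => (h (φ n)).g2) C
    (fun n => hT (φ n))
  have hin : ∀ a b : ℝ, inner ℝ a b = a * b := fun a b => by
    show b * a = a * b
    ring
  have hf : ∀ χ : E3 → ℝ, MemLp χ 2 (volume : Measure E3) →
        Tendsto (fun n => ∫ x, f (φ (ψ n)) x * χ x) atTop (𝓝 (∫ x, F x * χ x)) := by
    intro χ hχ
    have h1 := (hφt χ hχ).comp hψ.tendsto_atTop
    simp only [hin] at h1
    exact h1
  refine ⟨F, G, ⟨hFm, hGm, hF2, hG2, ?_⟩, fun n => φ (ψ n), hφ.comp hψ, hf, hψt⟩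
  intro χ hχ hχc v
  have hχd : Continuous fun x => fderiv ℝ χ x v :=
    (hχ.continuous_fderiv (by simp)).clm_apply continuous_const
  have m1 : MemLp (fun x => fderiv ℝ χ x v) 2 (volume : Measure E3) :=
    hχd.memLp_of_hasCompactSupport (hχc.fderiv_apply (𝕜 := ℝ) v)
  have m2 : MemLp (fun x => χ x • v) 2 (volume : Measure E3) :=
    (hχ.continuous.smul continuous_const).memLp_of_hasCompactSupport hχc.smul_right
  have t1 := hf _ m1
  have t2 := (hψt _ m2).neg
  have e : ∀ x : E3, ∀ y : E3, inner ℝ y (χ x • v) = inner ℝ y v * χ x := by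
    intro x y
    rw [real_inner_smul_right]
    ring
  simp only [e] at t2
  have e2 : (fun n => ∫ x, f (φ (ψ n)) x * fderiv ℝ χ x v) =
      fun n => -∫ x, inner ℝ (g (φ (ψ n)) x) v * χ x := by
    funext n
    exact (h (φ (ψ n))).weak χ hχ hχc v
  rw [e2] at t1
  exact tendsto_nhds_unique t1 t2

end Pool.Agent.Helper26.Tf
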